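import Pool.Agent.Lib.MP_54d165_co.PS.Basic

/-! Row A1 (about 90 lines): two copies suffice if one copy covers a half. -/

set_option autoImplicit false

namespace Newton54P

open Complex Set Newton54S

/-- the isometry whose inverse is `x ↦ α x + c` -/
noncomputable def A1_iso (α c : ℂ) (hα : ‖α‖ = 1) : ℂ ≃ᵢ ℂ :=
  (IsometryEquiv.mk' (fun x : ℂ => α * x + c) (fun y : ℂ => α⁻¹ * (y - c))
    (fun x => by
      have h0 : α ≠ 0 := by
        rintro rfl
        rw [norm_zero] at hα
        exact zero_ne_one hα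
      show α * (α⁻¹ * (x - c)) + c = x
      rw [← mul_assoc, mul_inv_cancel₀ h0, one_mul, sub_add_cancel])
    (Isometry.of_dist_eq fun x y => by
      rw [dist_add_right, dist_eq_norm, ← mul_sub, norm_mul, hα, one_mul, dist_eq_norm])).symm

theorem A1_iso_symm (α c : ℂ) (hα : ‖α‖ = 1) (x : ℂ) : (A1_iso α c hα).symm x = α * x + c := rfl

theorem A1_convex_T {C : Set ℂ} (hC : Convex ℝ C) (α c : ℂ) :
    Convex ℝ {x : ℂ | α * x + c ∈ interior C} := by
  intro x hx y hy a b ha hb hab
  have h1 := hC.interior hx hy ha hb hab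
  have h2 : α * (a • x + b • y) + c = a • (α * x + c) + b • (α * y + c) := by
    have h3 : (c : ℂ) = a • c + b • c := by rw [← add_smul, hab, one_smul]
    conv_lhs => rw [h3]
    simp only [Complex.real_smul]
    ring
  show α * (a • x + b • y) + c ∈ interior C
  rw [h2]
  exact h1

/-- the linear function vanishing on the line through the origin and `⟨p, t⟩` -/
noncomputable def A1_cross (p t : ℝ) (x : ℂ) : ℝ := p * x.im - t * x.re

theorem A1_cross_comb (p t a b : ℝ) (x y : ℂ) :
    A1_cross p t (a • x + b • y) = a * A1_cross p t x + b * A1_cross p t y := by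
  simp only [A1_cross, Complex.add_re, Complex.add_im, Complex.smul_re, Complex.smul_im,
    smul_eq_mul]
  ring

theorem A1_cross_neg (p t : ℝ) (x : ℂ) : A1_cross p t (-x) = -A1_cross p t x := by
  simp only [A1_cross, Complex.neg_re, Complex.neg_im]
  ring

theorem A1_pos {C : Set ℂ} {φ : ℝ} (h : Insc C φ) {t : ℝ} (ht : |t| < Real.sin φ) {a : ℂ}
    (ha : a ∈ C) (h1 : ‖a‖ = 1) (h2 : 0 < a.im) : 0 < A1_cross (Real.cos φ) t a := by
  have h3 := h.im_ge ha h1 h2
  have h4 := h.abs_re ha h1
  have h5 := h.cos_pos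
  have h6 : t * a.re ≤ |t| * Real.cos φ := by
    calc t * a.re ≤ |t * a.re| := le_abs_self _
      _ = |t| * |a.re| := abs_mul _ _
      _ ≤ |t| * Real.cos φ := mul_le_mul_of_nonneg_left h4 (abs_nonneg _)
  unfold A1_cross
  nlinarith

/-- the claim (1) -/
theorem A1_claim {C : Set ℂ} {φ : ℝ} (h : Insc C φ) {t : ℝ} (ht : |t| < Real.sin φ) {α c : ℂ}
    (h1 : α * ⟨Real.cos φ, t⟩ + c ∈ interior C)
    (h2 : α * (-⟨Real.cos φ, t⟩) + c ∈ interior C)
    (h3 : ∀ a ∈ C, ‖a‖ = 1 → 0 < a.im → α * a + c ∈ interior C) {x : ℂ} (hx : x ∈ C)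
    (hcx : 0 ≤ A1_cross (Real.cos φ) t x) : α * x + c ∈ interior C := by
  have hT := A1_convex_T h.conv α c
  have hcos := h.cos_pos
  set T : Set ℂ := {x : ℂ | α * x + c ∈ interior C} with hTdef
  set Ap : Set ℂ := {a | a ∈ C ∧ ‖a‖ = 1 ∧ 0 < a.im} with hAp
  set An : Set ℂ := {a | a ∈ C ∧ ‖a‖ = 1 ∧ a.im < 0} with hAn
  have hApne : Ap.Nonempty := ⟨uv φ, h.top, norm_uv φ, h.sin_pos⟩
  have hAnne : An.Nonempty := ⟨uv (-φ), h.bot, norm_uv _, by
    rw [uv_im, Real.sin_neg]
    linarith [h.sin_pos]⟩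
  have hsub : {a | a ∈ C ∧ ‖a‖ = 1} ⊆ Ap ∪ An := by
    rintro a ⟨ha, ha1⟩
    have h4 := h.abs_im ha ha1
    have h5 := h.sin_pos
    rcases lt_trichotomy a.im 0 with h6 | h6 | h6
    · exact Or.inr ⟨ha, ha1, h6⟩
    · rw [h6, abs_zero] at h4
      linarith
    · exact Or.inl ⟨ha, ha1, h6⟩
  have h4 : x ∈ convexHull ℝ (Ap ∪ An) := convexHull_mono hsub (h.hull hx)
  rw [convexHull_union hApne hAnne, mem_convexJoin] at h4
  obtain ⟨p, hp, q, hq, hxpq⟩ := h4
  have hpT : p ∈ T := convexHull_min (fun a ha => h3 a ha.1 ha.2.1 ha.2.2) hT hp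
  have hpC : p ∈ C := convexHull_min (fun a ha => ha.1) h.conv hp
  have hqC : q ∈ C := convexHull_min (fun a ha => ha.1) h.conv hq
  have hcp : 0 < A1_cross (Real.cos φ) t p := by
    have hcv : Convex ℝ {x : ℂ | 0 < A1_cross (Real.cos φ) t x} := by
      intro u hu v hv a b ha hb hab
      show 0 < A1_cross (Real.cos φ) t (a • u + b • v)
      rw [A1_cross_comb]
      have hu' : 0 < A1_cross (Real.cos φ) t u := hu
      have hv' : 0 < A1_cross (Real.cos φ) t v := hv
      rcases eq_or_lt_of_le ha with h0 | h0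
      · have hb1 : b = 1 := by linarith
        rw [← h0, hb1]
        linarith
      · have := mul_pos h0 hu'
        have := mul_nonneg hb hv'.le
        linarith
    exact convexHull_min (fun a ha => A1_pos h ht ha.1 ha.2.1 ha.2.2) hcv hp
  have hcq : A1_cross (Real.cos φ) t q < 0 := by
    have hcv : Convex ℝ {x : ℂ | A1_cross (Real.cos φ) t x < 0} := by
      intro u hu v hv a b ha hb hab
      show A1_cross (Real.cos φ) t (a • u + b • v) < 0
      rw [A1_cross_comb]
      have hu' : A1_cross (Real.cos φ) t u < 0 := hu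
      have hv' : A1_cross (Real.cos φ) t v < 0 := hv
      rcases eq_or_lt_of_le ha with h0 | h0
      · have hb1 : b = 1 := by linarith
        rw [← h0, hb1]
        linarith
      · have := mul_neg_of_pos_of_neg h0 hu'
        have := mul_nonpos_of_nonneg_of_nonpos hb hv'.le
        linarith
    refine convexHull_min (fun a ha => ?_) hcv hq
    have h5 := A1_pos h ht (h.sym a ha.1) (by rw [norm_neg]; exact ha.2.1)
      (by rw [Complex.neg_im]; linarith [ha.2.2])
    rw [A1_cross_neg] at h5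
    show A1_cross (Real.cos φ) t a < 0
    linarith
  obtain ⟨a, b, ha, hb, hab, rfl⟩ := hxpq
  rw [A1_cross_comb] at hcx
  set u : ℝ := A1_cross (Real.cos φ) t p with hu
  set v : ℝ := A1_cross (Real.cos φ) t q with hv
  have huv : 0 < u - v := by linarith
  set b' : ℝ := u / (u - v) with hb'
  set a' : ℝ := -v / (u - v) with ha'
  have hb'0 : 0 < b' := div_pos hcp huv
  have ha'0 : 0 < a' := div_pos (by linarith) huv
  have hab' : a' + b' = 1 := by
    rw [ha', hb', ← add_div, neg_add_eq_sub, div_self huv.ne']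
  have hzC : a' • p + b' • q ∈ C := h.conv hpC hqC ha'0.le hb'0.le hab'
  have hzc : A1_cross (Real.cos φ) t (a' • p + b' • q) = 0 := by
    rw [A1_cross_comb, ← hu, ← hv, ha', hb']
    field_simp
    ring
  have hzT : a' • p + b' • q ∈ T := by
    set z := a' • p + b' • q with hz
    have hzre := h.abs_re_le hzC
    rw [abs_le] at hzre
    set l : ℝ := z.re / Real.cos φ with hl
    have hl1 : -1 ≤ l := by
      rw [hl, le_div_iff₀ hcos]
      linarith
    have hl2 : l ≤ 1 := by
      rw [hl, div_le_one hcos]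
      exact hzre.2
    have hzim : Real.cos φ * z.im = t * z.re := by
      unfold A1_cross at hzc
      linarith
    have hzy : z = ((1 + l) / 2) • (⟨Real.cos φ, t⟩ : ℂ) + ((1 - l) / 2) • (-⟨Real.cos φ, t⟩ : ℂ) := by
      apply Complex.ext
      · simp only [Complex.add_re, Complex.smul_re, Complex.neg_re, smul_eq_mul]
        rw [hl]
        field_simp
        ring
      · simp only [Complex.add_im, Complex.smul_im, Complex.neg_im, smul_eq_mul]
        have h6 : z.im = t * z.re / Real.cos φ := by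
          rw [eq_div_iff hcos.ne', mul_comm]
          exact hzim
        rw [h6, hl]
        field_simp
        ring
    rw [hzy]
    exact hT h1 h2 (by linarith) (by linarith) (by ring)
  have hbb : b ≤ b' := by
    rw [hb', le_div_iff₀ huv]
    have : a = 1 - b := by linarith
    rw [this] at hcx
    nlinarith
  set μ : ℝ := b / b' with hμ
  have hμ0 : 0 ≤ μ := div_nonneg hb hb'0.le
  have hμ1 : μ ≤ 1 := (div_le_one hb'0).2 hbb
  have hμb : μ * b' = b := div_mul_cancel₀ b hb'0.ne'
  have hfin := hT hpT hzT (by linarith : 0 ≤ 1 - μ) hμ0 (by ring)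
  have heq : (1 - μ) • p + μ • (a' • p + b' • q) = a • p + b • q := by
    rw [smul_add, smul_smul, smul_smul, hμb, ← add_assoc, ← add_smul]
    congr 2
    have h7 : a' = 1 - b' := by linarith
    rw [h7]
    have : μ * (1 - b') = μ - b := by rw [mul_sub, mul_one, hμb]
    rw [this]
    linarith
  rw [heq] at hfin
  exact hfin

/-- ROW A1.  `y = cos φ + i t` lies on the edge between `uv (-φ)` and `uv φ`.  If the isometry `x ↦ α x + c`
maps `y`, `-y` and all unit vectors of `C` in the upper half plane into the interior of `C`, then two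
copies suffice.
Proof.  Put `T = {x | α x + c ∈ interior C}` (convex, as `interior C` is convex; the map is affine) and
`cross x = cos φ * x.im - t * x.re` (real linear, zero at `± y`).
(1) CLAIM: `x ∈ C`, `0 ≤ cross x` imply `x ∈ T`.  Let `A₊ = {a ∈ C | ‖a‖ = 1, 0 < a.im}`, `A₋ = -A₊`.
`h.abs_im` gives `a.im ≠ 0` for unit vectors of `C`, so `{a ∈ C | ‖a‖ = 1} = A₊ ∪ A₋` (`h.sym`).
On `A₊`: `cross a ≥ cos φ * sin φ - |t| * cos φ > 0` (`h.im_ge`, `h.abs_re`), so on `A₋` `cross a < 0`.
`x ∈ convexHull (A₊ ∪ A₋)` (`h.hull`); both sets are nonempty (`uv φ ∈ A₊`), so by `convexHull_union`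
(`mem_convexJoin`) `x` lies on a segment `[p, q]` with `p ∈ convexHull A₊` (hence `0 < cross p`, `p ∈ T`)
and `q ∈ convexHull A₋` (`cross q < 0`, `q ∈ C`).  Write `x = p + s (q - p)`, `0 ≤ s ≤ 1`, and let
`s₀ = cross p / (cross p - cross q) ∈ (0,1)`, `z = p + s₀ (q - p) ∈ C`, `cross z = 0`; `0 ≤ cross x` gives
`s ≤ s₀`, so `x` is a convex combination of `p` and `z`.  `cross z = 0` gives `z = (z.re / cos φ) • y`, and
`|z.re| ≤ cos φ` (`h.abs_re_le`), so `z ∈ segment (-y) y ⊆ T`.  Hence `x ∈ T`.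
(2) `cov_of_fintype` with `ι = Bool`, `(G true).symm x = α x + c`, `(G false).symm x = α x - c`
(`G true x = α⁻¹ (x - c)`, ...; build the isometries with `IsometryEquiv.mk'` or `IsometryEquiv.mk`, norm of
`α` is one): for `x ∈ C` either `0 ≤ cross x` and (1) applies, or `0 ≤ cross (-x)`, and then
`α (-x) + c ∈ interior C`, so `α x - c ∈ interior C` by `h.neg_mem_int`.  `Fintype.card Bool = 2`. -/
theorem Insc.cov_two {C : Set ℂ} {φ : ℝ} (h : Insc C φ) {t : ℝ} (ht : |t| < Real.sin φ) {α c : ℂ}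
    (hα : ‖α‖ = 1) (h1 : α * ⟨Real.cos φ, t⟩ + c ∈ interior C)
    (h2 : α * (-⟨Real.cos φ, t⟩) + c ∈ interior C)
    (h3 : ∀ a ∈ C, ‖a‖ = 1 → 0 < a.im → α * a + c ∈ interior C) : Cov C 2 := by
  have hcov := cov_of_fintype (C := C) (ι := Bool)
    (fun i => if i then A1_iso α c hα else A1_iso α (-c) hα) (fun x hx => by
      rcases le_total 0 (A1_cross (Real.cos φ) t x) with h4 | h4
      · refine ⟨true, ?_⟩
        simp only [if_true]
        rw [A1_iso_symm]
        exact A1_claim h ht h1 h2 h3 hx h4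
      · refine ⟨false, ?_⟩
        simp only [Bool.false_eq_true, if_false]
        rw [A1_iso_symm]
        have h5 : 0 ≤ A1_cross (Real.cos φ) t (-x) := by
          rw [A1_cross_neg]
          linarith
        have h6 := h.neg_mem_int (A1_claim h ht h1 h2 h3 (h.sym x hx) h5)
        have h7 : -(α * -x + c) = α * x + -c := by ring
        rwa [h7] at h6)
  rwa [Fintype.card_bool] at hcov

end Newton54P
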