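import Pool.Agent.Lib.MP_54d165_co.PS.Basic

/-! Row B1: widths of copies of the regular polygon. -/

set_option autoImplicit false

namespace Newton54P

open Complex Set Newton54S

/-- the regular polygon with `2 k` vertices inscribed in the unit circle -/
noncomputable def poly (k : ℕ) : Set ℂ :=
  convexHull ℝ (range fun j : Fin (2 * k) => uv ((j : ℕ) * (Real.pi / k)))

private theorem b1_cos_odd {k : ℕ} (hk : 2 ≤ k) (n : ℤ) (hn : n % 2 = 1) :
    |Real.cos (n * (Real.pi / (2 * k)))| ≤ Real.cos (Real.pi / (2 * k)) := by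
  have hk0 : (0 : ℝ) < k := by
    have : 0 < k := by omega
    exact_mod_cast this
  have hpi := Real.pi_pos
  set u : ℝ := Real.pi / (2 * k) with hu
  have hu0 : 0 < u := by positivity
  have hku : 2 * (k : ℝ) * u = Real.pi := by rw [hu]; field_simp
  set m : ℤ := n / (2 * (k : ℤ)) with hm
  set r : ℤ := n % (2 * (k : ℤ)) with hr
  have hk2 : (0 : ℤ) < 2 * (k : ℤ) := by omega
  have h1 : n = r + 2 * (k : ℤ) * m := by
    rw [hr, hm]
    exact (Int.emod_add_mul_ediv n (2 * (k : ℤ))).symm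
  have hr0 : 0 ≤ r := Int.emod_nonneg _ hk2.ne'
  have hr1 : r < 2 * (k : ℤ) := Int.emod_lt_of_pos _ hk2
  have hr2 : r % 2 = 1 := by
    have h2 : (2 * (k : ℤ) * m) % 2 = 0 := by
      rw [mul_assoc]
      exact Int.mul_emod_right 2 _
    omega
  have hr3 : 1 ≤ r := by omega
  have hr4 : r ≤ 2 * (k : ℤ) - 1 := by omega
  have h3 : (n : ℝ) * u = r * u + m * Real.pi := by
    rw [h1]
    push_cast
    rw [← hku]
    ring
  rw [h3, Real.cos_add_int_mul_pi, abs_mul, abs_zpow, abs_neg, abs_one, one_zpow, one_mul]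
  have hr3' : (1 : ℝ) ≤ r := by exact_mod_cast hr3
  have hr4' : (r : ℝ) ≤ 2 * k - 1 := by exact_mod_cast hr4
  have h4 : u ≤ r * u := by nlinarith
  have h5 : r * u ≤ Real.pi - u := by
    rw [← hku]
    nlinarith
  rw [abs_le]
  constructor
  · rw [← Real.cos_pi_sub]
    exact Real.cos_le_cos_of_nonneg_of_le_pi (by nlinarith) (by linarith) h5
  · exact Real.cos_le_cos_of_nonneg_of_le_pi hu0.le (by linarith) h4

private theorem b1_dt {k : ℕ} (hk : 2 ≤ k) (j : ℤ) {z : ℂ} (hz : z ∈ poly k) :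
    |dt (Real.pi / (2 * k) + j * (Real.pi / k)) z| ≤ Real.cos (Real.pi / (2 * k)) := by
  have hk0 : (0 : ℝ) < k := by
    have : 0 < k := by omega
    exact_mod_cast this
  set η : ℝ := Real.pi / (2 * k) + j * (Real.pi / k) with hη
  set c : ℝ := Real.cos (Real.pi / (2 * k)) with hc
  have hconv : Convex ℝ {z : ℂ | |dt η z| ≤ c} := by
    intro x hx y hy a b ha hb hab
    simp only [mem_ofPred_eq, abs_le] at hx hy ⊢
    rw [dt_add, dt_smul, dt_smul]
    have e1 : c = a * c + b * c := by rw [← add_mul, hab, one_mul]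
    constructor
    · nlinarith [mul_le_mul_of_nonneg_left hx.1 ha, mul_le_mul_of_nonneg_left hy.1 hb]
    · nlinarith [mul_le_mul_of_nonneg_left hx.2 ha, mul_le_mul_of_nonneg_left hy.2 hb]
  have hsub : poly k ⊆ {z : ℂ | |dt η z| ≤ c} := by
    refine convexHull_min ?_ hconv
    rintro _ ⟨i, rfl⟩
    simp only [mem_ofPred_eq]
    rw [dt_uv]
    have h1 : ((i : ℕ) : ℝ) * (Real.pi / k) - η =
        ((2 * ((i : ℕ) : ℤ) - 2 * j - 1 : ℤ) : ℝ) * (Real.pi / (2 * k)) := by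
      rw [hη]
      push_cast
      field_simp
      ring
    rw [h1]
    exact b1_cos_odd hk _ (by omega)
  exact hsub hz

private theorem b1_dt_sub {k : ℕ} (hk : 2 ≤ k) (j : ℤ) {η : ℝ}
    (hη : η = Real.pi / (2 * k) + j * (Real.pi / k)) {z z' : ℂ} (hz : z ∈ poly k)
    (hz' : z' ∈ poly k) : dt η (z - z') ≤ 2 * Real.cos (Real.pi / (2 * k)) := by
  subst hη
  rw [dt_sub]
  have h1 := abs_le.1 (b1_dt hk j hz)
  have h2 := abs_le.1 (b1_dt hk j hz')
  linarith [h1.2, h2.1]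

private theorem b1_isom (g : ℂ ≃ᵢ ℂ) : ∃ α : ℝ, (∀ z z' : ℂ, g z - g z' = uv α * (z - z')) ∨
    (∀ z z' : ℂ, g z - g z' = uv α * (starRingEnd ℂ) (z - z')) := by
  set A := g.toRealAffineIsometryEquiv.linearIsometryEquiv with hA
  have hg : ∀ y, g y = A y + g 0 := by
    intro y
    have h1 := g.toRealAffineIsometryEquiv.map_vadd 0 y
    simpa [hA] using h1
  obtain ⟨a, ha⟩ := linear_isometry_complex A
  obtain ⟨α, -, -, hα⟩ := exists_uv (a := (a : ℂ)) (Circle.norm_coe a)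
  refine ⟨α, ?_⟩
  rcases ha with ha | ha
  · left
    intro z z'
    rw [hg z, hg z', ha, rotation_apply, rotation_apply, hα]
    ring
  · right
    intro z z'
    rw [hg z, hg z', ha, map_sub, ← hα]
    simp only [LinearIsometryEquiv.trans_apply, rotation_apply, Complex.conjLIE_apply]
    ring

private theorem b1_floor {p x : ℝ} (hp : 0 < p) : ∃ (j : ℤ) (θ : ℝ), 0 ≤ θ ∧ θ ≤ p ∧ x = θ + j * p := by
  refine ⟨⌊x / p⌋, x - ⌊x / p⌋ * p, ?_, ?_, by ring⟩
  · have h1 := Int.floor_le (x / p)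
    rw [le_div_iff₀ hp] at h1
    linarith
  · have h1 := (Int.lt_floor_add_one (x / p)).le
    rw [div_le_iff₀ hp] at h1
    linarith

/-- ROW B1. -/
theorem copy_width {k : ℕ} (hk : 2 ≤ k) (g : ℂ ≃ᵢ ℂ) (ϑ : ℝ) : ∃ θ : ℝ, 0 ≤ θ ∧ θ ≤ Real.pi / k ∧
    ∀ z ∈ g '' poly k, ∀ z' ∈ g '' poly k,
      dt (ϑ - θ) (z - z') ≤ 2 * Real.cos (Real.pi / (2 * k)) ∧
      dt (ϑ - θ + Real.pi / k) (z - z') ≤ 2 * Real.cos (Real.pi / (2 * k)) := by
  have hk0 : (0 : ℝ) < k := by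
    have : 0 < k := by omega
    exact_mod_cast this
  have hp : 0 < Real.pi / k := div_pos Real.pi_pos hk0
  obtain ⟨α, h | h⟩ := b1_isom g
  · obtain ⟨j, θ, h0, h1, hx⟩ := b1_floor (x := ϑ - α - Real.pi / (2 * k)) hp
    refine ⟨θ, h0, h1, ?_⟩
    rintro _ ⟨z, hz, rfl⟩ _ ⟨z', hz', rfl⟩
    rw [h z z', dt_mul_uv, dt_mul_uv]
    constructor
    · exact b1_dt_sub hk j (by linarith) hz hz'
    · exact b1_dt_sub hk (j + 1) (by push_cast; linarith) hz hz'
  · obtain ⟨j, θ, h0, h1, hx⟩ := b1_floor (x := ϑ - α + Real.pi / (2 * k)) hp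
    refine ⟨θ, h0, h1, ?_⟩
    rintro _ ⟨z, hz, rfl⟩ _ ⟨z', hz', rfl⟩
    rw [h z z', dt_mul_uv, dt_mul_uv, dt_conj, dt_conj]
    constructor
    · exact b1_dt_sub hk (-j) (by push_cast; linarith) hz hz'
    · exact b1_dt_sub hk (-j - 1) (by push_cast; linarith) hz hz'

end Newton54P
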