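import Pool.Agent.Lib.MP_54d165_co.PS.B1

/-! Row B2 (about 160 lines): two copies of a regular polygon are not enough. -/

set_option autoImplicit false

namespace Newton54P

open Complex Set Newton54S
open scoped RealInnerProductSpace

/-- auxiliary: `B sin t ≤ 2 c - w' cos t` with `w' > 2 c` bounds `B` -/
private theorem b2_half {c t w' B : ℝ} (ht0 : 0 < t) (ht : t < Real.pi / 2) (hw : 2 * c < w')
    (h : w' * Real.cos t + B * Real.sin t ≤ 2 * c) :
    B * Real.cos (t / 2) < 2 * c * Real.sin (t / 2) := by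
  have hcos : 0 < Real.cos t := Real.cos_pos_of_mem_Ioo ⟨by linarith [Real.pi_pos], ht⟩
  have hs : 0 < Real.sin (t / 2) := Real.sin_pos_of_pos_of_lt_pi (by linarith) (by linarith [Real.pi_pos])
  have e1 : Real.cos t = 1 - 2 * Real.sin (t / 2) ^ 2 := by
    have := Real.cos_two_mul (t / 2)
    rw [show 2 * (t / 2) = t by ring] at this
    rw [this, Real.cos_sq']
    ring
  have e2 : Real.sin t = 2 * Real.sin (t / 2) * Real.cos (t / 2) := by
    have := Real.sin_two_mul (t / 2)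
    rwa [show 2 * (t / 2) = t by ring] at this
  have h1 : B * Real.sin t < 2 * c * (1 - Real.cos t) := by
    have := mul_lt_mul_of_pos_right hw hcos
    linarith
  rw [e1, e2] at h1
  have h2 : Real.sin (t / 2) * (B * Real.cos (t / 2)) < Real.sin (t / 2) * (2 * c * Real.sin (t / 2)) := by
    nlinarith
  exact lt_of_mul_lt_mul_left h2 hs.le

/-- ROW B2, part 1 (trigonometry).  `θ = 0` gives `w' ≤ 2 cos (γ/2)`, against hw; also `θ = γ`.  So `0 < θ < γ`.
`B sin θ ≤ 2 cos (γ/2) - w' cos θ < 2 cos (γ/2) (1 - cos θ)` (`cos θ ≥ 0`, and if `cos θ = 0` then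
`θ = π/2 = γ`, excluded) so `B < 2 cos (γ/2) tan (θ/2)`, likewise
`A < 2 cos (γ/2) tan ((γ - θ)/2)`.  With `x = θ/2`, `y = (γ - θ)/2 > 0`, `x + y = γ/2 ≤ π/4`:
`tan x + tan y = sin (x + y)/(cos x cos y) ≤ tan (x + y)` as `cos (x + y) ≤ cos x cos y`.  So
`A + B < 2 cos (γ/2) tan (γ/2) = 2 sin (γ/2)`. -/
theorem trapezoid_trig {γ θ w' A B : ℝ} (hγ0 : 0 < γ) (hγ : γ ≤ Real.pi / 2) (h0 : 0 ≤ θ)
    (h1 : θ ≤ γ) (hw : 2 * Real.cos (γ / 2) < w') (hA : 0 ≤ A) (hB : 0 ≤ B)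
    (h2 : w' * Real.cos θ + B * Real.sin θ ≤ 2 * Real.cos (γ / 2))
    (h3 : w' * Real.cos (γ - θ) + A * Real.sin (γ - θ) ≤ 2 * Real.cos (γ / 2)) :
    A + B < 2 * Real.sin (γ / 2) := by
  have hpi := Real.pi_pos
  rcases eq_or_lt_of_le h0 with rfl | h0'
  · rw [Real.cos_zero, Real.sin_zero] at h2
    linarith
  rcases eq_or_lt_of_le h1 with rfl | h1'
  · rw [sub_self, Real.cos_zero, Real.sin_zero] at h3
    linarith
  have hb := b2_half (c := Real.cos (γ / 2)) h0' (by linarith) hw h2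
  have ha := b2_half (c := Real.cos (γ / 2)) (t := γ - θ) (by linarith) (by linarith) hw h3
  have hcx : 0 < Real.cos (θ / 2) := Real.cos_pos_of_mem_Ioo ⟨by linarith, by linarith⟩
  have hcy : 0 < Real.cos ((γ - θ) / 2) := Real.cos_pos_of_mem_Ioo ⟨by linarith, by linarith⟩
  have hsx : 0 < Real.sin (θ / 2) := Real.sin_pos_of_pos_of_lt_pi (by linarith) (by linarith)
  have hsy : 0 < Real.sin ((γ - θ) / 2) := Real.sin_pos_of_pos_of_lt_pi (by linarith) (by linarith)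
  have ec : Real.cos (γ / 2) = Real.cos (θ / 2) * Real.cos ((γ - θ) / 2) -
      Real.sin (θ / 2) * Real.sin ((γ - θ) / 2) := by
    rw [← Real.cos_add]; congr 1; ring
  have es : Real.sin (γ / 2) = Real.sin (θ / 2) * Real.cos ((γ - θ) / 2) +
      Real.cos (θ / 2) * Real.sin ((γ - θ) / 2) := by
    rw [← Real.sin_add]; congr 1; ring
  have hs : 0 < Real.sin (γ / 2) := by
    rw [es]
    have := mul_pos hsx hcy
    have := mul_pos hcx hsy
    linarith
  have hcle : Real.cos (γ / 2) ≤ Real.cos (θ / 2) * Real.cos ((γ - θ) / 2) := by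
    rw [ec]
    have := mul_pos hsx hsy
    linarith
  have k1 := mul_lt_mul_of_pos_right hb hcy
  have k2 := mul_lt_mul_of_pos_right ha hcx
  have k3 : (A + B) * (Real.cos (θ / 2) * Real.cos ((γ - θ) / 2)) <
      2 * Real.cos (γ / 2) * Real.sin (γ / 2) := by
    rw [es]
    linarith
  have k4 : 2 * Real.cos (γ / 2) * Real.sin (γ / 2) ≤
      2 * Real.sin (γ / 2) * (Real.cos (θ / 2) * Real.cos ((γ - θ) / 2)) := by
    have := mul_le_mul_of_nonneg_left hcle (by linarith : 0 ≤ 2 * Real.sin (γ / 2))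
    linarith
  exact lt_of_mul_lt_mul_right (k3.trans_le k4) (mul_pos hcx hcy).le

private noncomputable def b2v (k j : ℕ) : ℂ := uv ((j : ℝ) * (Real.pi / k))

private theorem b2_v_add {k : ℕ} (hk : 2 ≤ k) (j : ℕ) : b2v k (j + k) = -b2v k j := by
  have hk0 : (k : ℝ) ≠ 0 := by
    have : (0 : ℝ) < k := by exact_mod_cast (by omega : 0 < k)
    exact this.ne'
  unfold b2v
  rw [← uv_add_pi]
  congr 1
  push_cast
  field_simp

private theorem b2_v_mem {k : ℕ} (hk : 2 ≤ k) (j : ℕ) : b2v k j ∈ poly k := by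
  have hper : ∀ q i : ℕ, b2v k (i + q * (2 * k)) = b2v k i := by
    intro q
    induction q with
    | zero => intro i; simp
    | succ q ih =>
      intro i
      rw [show i + (q + 1) * (2 * k) = (i + q * (2 * k)) + k + k by ring, b2_v_add hk, b2_v_add hk,
        neg_neg, ih]
  have hj : j = j % (2 * k) + (j / (2 * k)) * (2 * k) := (Nat.mod_add_div' j (2 * k)).symm
  rw [hj, hper]
  exact subset_convexHull ℝ _ ⟨⟨j % (2 * k), Nat.mod_lt _ (by omega)⟩, rfl⟩

private theorem b2_norm {k : ℕ} {x : ℂ} (hx : x ∈ poly k) : ‖x‖ ≤ 1 := by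
  have h1 : poly k ⊆ Metric.closedBall (0 : ℂ) 1 := by
    refine convexHull_min ?_ (convex_closedBall 0 1)
    rintro _ ⟨j, rfl⟩
    rw [mem_closedBall_zero_iff, norm_uv]
  have h2 := h1 hx
  rwa [mem_closedBall_zero_iff] at h2

private theorem b2_compact (k : ℕ) : IsCompact (poly k) := (finite_range _).isCompact_convexHull (𝕜 := ℝ)

/-- a segment going from one closed set to another one meets the intersection -/
private theorem b2_cross {T T' : Set ℂ} (hT : IsClosed T) (hT' : IsClosed T') {p e : ℂ} {L : ℝ} (hL : 0 ≤ L)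
    (h0 : p ∈ T) (h1 : p + (L : ℂ) * e ∈ T') (hc : ∀ a : ℝ, 0 ≤ a → a ≤ L → p + (a : ℂ) * e ∈ T ∪ T') :
    ∃ a : ℝ, 0 ≤ a ∧ a ≤ L ∧ p + (a : ℂ) * e ∈ T ∧ p + (a : ℂ) * e ∈ T' := by
  have hcont : Continuous fun a : ℝ => p + (a : ℂ) * e := by fun_prop
  have hpre : IsPreconnected (Icc (0 : ℝ) L) := isPreconnected_Icc
  have h := isPreconnected_closed_iff.1 hpre _ _ (hT.preimage hcont) (hT'.preimage hcont) ?_ ?_ ?_
  · obtain ⟨a, ha, ha1, ha2⟩ := h
    exact ⟨a, ha.1, ha.2, ha1, ha2⟩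
  · intro a ha
    exact hc a ha.1 ha.2
  · exact ⟨0, ⟨le_refl _, hL⟩, by simpa using h0⟩
  · exact ⟨L, ⟨hL, le_refl _⟩, h1⟩

/-- the width estimate for one copy -/
private theorem b2_final {k : ℕ} (hk : 2 ≤ k) (g : ℂ ≃ᵢ ℂ) (ϑ r A B : ℝ) (hr : 1 < r) (hA : 0 ≤ A) (hB : 0 ≤ B)
    {z1 z1' z2 z2' : ℂ} (m1 : z1 ∈ g '' poly k) (m1' : z1' ∈ g '' poly k) (m2 : z2 ∈ g '' poly k)
    (m2' : z2' ∈ g '' poly k)
    (e1 : z1 - z1' = ((r * (2 * Real.cos (Real.pi / k / 2)) : ℝ) : ℂ) * uv ϑ + (A : ℂ) * uv (ϑ + Real.pi / 2))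
    (e2 : z2 - z2' = ((r * (2 * Real.cos (Real.pi / k / 2)) : ℝ) : ℂ) * uv ϑ - (B : ℂ) * uv (ϑ + Real.pi / 2)) :
    A + B < 2 * Real.sin (Real.pi / k / 2) := by
  have hk0 : (0 : ℝ) < k := by exact_mod_cast (by omega : 0 < k)
  have hk2 : (2 : ℝ) ≤ k := by exact_mod_cast hk
  have hpi := Real.pi_pos
  have hγ0 : 0 < Real.pi / k := by positivity
  have hγ : Real.pi / k ≤ Real.pi / 2 := div_le_div_of_nonneg_left hpi.le (by norm_num) hk2
  have hc : 0 < Real.cos (Real.pi / k / 2) := Real.cos_pos_of_mem_Ioo ⟨by linarith, by linarith⟩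
  obtain ⟨θ, h0, h1, h⟩ := copy_width hk g ϑ
  have hh : Real.pi / (2 * k) = Real.pi / k / 2 := by
    rw [mul_comm, div_div]
  have k1 := (h z2 m2 z2' m2').1
  have k2 := (h z1 m1 z1' m1').2
  rw [e2, hh, dt_sub, dt_real_mul, dt_real_mul, dt_uv, dt_uv, show ϑ - (ϑ - θ) = θ by ring,
    show ϑ + Real.pi / 2 - (ϑ - θ) = θ + Real.pi / 2 by ring, Real.cos_add_pi_div_two] at k1
  rw [e1, hh, dt_add, dt_real_mul, dt_real_mul, dt_uv, dt_uv,
    show ϑ - (ϑ - θ + Real.pi / k) = -(Real.pi / k - θ) by ring, Real.cos_neg,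
    show ϑ + Real.pi / 2 - (ϑ - θ + Real.pi / k) = Real.pi / 2 - (Real.pi / k - θ) by ring,
    Real.cos_pi_div_two_sub] at k2
  refine trapezoid_trig (w' := r * (2 * Real.cos (Real.pi / k / 2))) hγ0 hγ h0 h1 ?_ hA hB ?_ k2
  · nlinarith
  · linarith

/-- ROW B2, part 2.  Let `γ = π/k`, `P = poly k`, `v j = uv (j γ)` (`j : ℕ`; all `v j ∈ P`, as `v (j + 2k) = v j`,
`v (j + k) = -v j`), `P` compact (`Set.Finite.isCompact_convexHull` or `isCompact_convexHull`...).
Suppose `Cov P 2`: isometries `g 0, g 1` and an open `U ⊇ P`, `U ⊆ g 0 '' P ∪ g 1 '' P`.  There is `ε > 0` with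
`(1 + ε) • P ⊆ U` (compactness; e.g. continuity of `(s, x) ↦ s x` and the tube lemma, or `thickening`:
`IsCompact.exists_thickening_subset_open`, `‖(1+ε) x - x‖ ≤ ε`).  Put `r = 1 + ε`, `T i = g i '' P` (convex, compact,
centrally symmetric about `c i = g i 0`; all points within distance `1` of `c i`, as `‖x‖ ≤ 1` on `P`).
(a) `r v j ∈ T i` implies `0 < ⟪r v j, c i⟫` : `‖r v j - c i‖ ≤ 1 < r`, expand the square.  So not both
`r v j ∈ T i` and `-(r v j) ∈ T i`.  As `r v j, -r v j ∈ T 0 ∪ T 1`: exactly one of them is in `T 0`, the other in `T 1`;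
in particular `r v j ∈ T 0 ↔ r v j ∉ T 1`, and `r v (j + k) ∈ T 0 ↔ r v j ∉ T 0`.
(b) There is `j` with `r v j ∈ T i`, `r v (j + 1) ∈ T i'`, `i ≠ i'` (`j < k`; else by induction `r v k` would be
in the same `T i` as `r v 0`).  Then `-r v j ∈ T i'`, `-r v (j + 1) ∈ T i`.
(c) `e = uv (ϑ + π/2)`, `ϑ = (2j + 1) γ/2`, `s = 2 sin (γ/2)`: `v (j+1) - v j = s e`, `v (j+1) + v j = w uv ϑ`,
`w = 2 cos (γ/2)`.  The segment `r v j + a e`, `0 ≤ a ≤ r s`, lies in `r P ⊆ T i ∪ T i'`; it is connected, starts in the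
closed set `T i` and ends in the closed set `T i'`, so some `r v j + a e ∈ T i ∩ T i'` (`isPreconnected_closed_iff`
for `Icc 0 (r s)`).  Similarly some `-r v (j + 1) + b e ∈ T i ∩ T i'`, `0 ≤ b ≤ r s`.
(d) differences of points of `T i`: `(r v j + a e) - (-r v (j+1)) = r w uv ϑ + a e`,
`r v j - (-r v (j+1) + b e) = r w uv ϑ - b e`.  Of `T i'`: `r v (j+1) - (-r v (j+1) + b e) = r w uv ϑ + (r s - b) e`,
`(r v j + a e) - (-r v j) = r w uv ϑ - (r s - a) e`.  So for `T i` with `A = a`, `B = b`, or for `T i'` with `A = r s - b`,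
`B = r s - a`, we have `A + B ≥ r s ≥ s` and differences `r w uv ϑ + A e`, `r w uv ϑ - B e`.
(e) `copy_width` (for that copy, `ϑ`) gives `θ`; `dt (ϑ - θ) (r w uv ϑ - B e) = r w cos θ + B sin θ`,
`dt (ϑ - θ + γ) (r w uv ϑ + A e) = r w cos (γ - θ) + A sin (γ - θ)`.  `trapezoid_trig` with `w' = r w`: `A + B < s`,
contradiction. -/
theorem not_cov_poly {k : ℕ} (hk : 2 ≤ k) : ¬ Cov (poly k) 2 := by
  rintro ⟨g, U, hU, hPU, hUg⟩
  have hk0 : (0 : ℝ) < k := by exact_mod_cast (by omega : 0 < k)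
  have hk2 : (2 : ℝ) ≤ k := by exact_mod_cast hk
  have hpi := Real.pi_pos
  have hγ0 : 0 < Real.pi / k := by positivity
  have hγ : Real.pi / k ≤ Real.pi / 2 := div_le_div_of_nonneg_left hpi.le (by norm_num) hk2
  have hconv : Convex ℝ (poly k) := convex_convexHull ℝ _
  -- the enlargement
  obtain ⟨δ, hδ, hδU⟩ := (b2_compact k).exists_thickening_subset_open hU hPU
  obtain ⟨r, hr1, hrU⟩ : ∃ r : ℝ, 1 < r ∧ ∀ x ∈ poly k, (r : ℂ) * x ∈ U := by
    refine ⟨1 + δ / 2, by linarith, fun x hx => hδU ?_⟩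
    rw [Metric.mem_thickening_iff]
    refine ⟨x, hx, ?_⟩
    rw [dist_eq_norm, show ((1 + δ / 2 : ℝ) : ℂ) * x - x = ((δ / 2 : ℝ) : ℂ) * x by push_cast; ring,
      norm_mul, Complex.norm_real, Real.norm_of_nonneg (by linarith)]
    have := b2_norm hx
    nlinarith [norm_nonneg x]
  have hcovT : ∀ x ∈ poly k, ∃ i, (r : ℂ) * x ∈ g i '' poly k := fun x hx => by
    have := hUg (hrU x hx)
    rwa [mem_iUnion] at this
  have hclosed : ∀ i, IsClosed (g i '' poly k) := fun i => ((b2_compact k).image (g i).continuous).isClosed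
  -- (a)
  have hpos : ∀ (i : Fin 2) (x : ℂ), ‖x‖ = 1 → (r : ℂ) * x ∈ g i '' poly k → 0 < ⟪(r : ℂ) * x, g i 0⟫ := by
    rintro i x hx ⟨y, hy, hxy⟩
    have h1 : ‖(r : ℂ) * x - g i 0‖ ≤ 1 := by
      rw [← hxy, ← dist_eq_norm, (g i).dist_eq, dist_zero_right]
      exact b2_norm hy
    have h2 : ‖(r : ℂ) * x‖ = r := by
      rw [norm_mul, Complex.norm_real, Real.norm_of_nonneg (by linarith), hx, mul_one]
    have h3 := norm_sub_sq_real ((r : ℂ) * x) (g i 0)
    rw [h2] at h3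
    have h4 : ‖(r : ℂ) * x - g i 0‖ ^ 2 ≤ 1 := by
      nlinarith [norm_nonneg ((r : ℂ) * x - g i 0)]
    nlinarith [sq_nonneg ‖g i 0‖]
  have hnot : ∀ (i : Fin 2) (j : ℕ), (r : ℂ) * b2v k j ∈ g i '' poly k →
      (r : ℂ) * -b2v k j ∉ g i '' poly k := by
    intro i j h1 h2
    have h3 := hpos i (b2v k j) (norm_uv _) h1
    have h4 := hpos i (-b2v k j) (by rw [norm_neg]; exact norm_uv _) h2
    rw [mul_neg, inner_neg_left] at h4
    linarith
  have hor : ∀ (i i' : Fin 2), i ≠ i' → ∀ x ∈ poly k, (r : ℂ) * x ∉ g i '' poly k →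
      (r : ℂ) * x ∈ g i' '' poly k := by
    intro i i' hii x hx hn
    obtain ⟨l, hl⟩ := hcovT x hx
    have hl' : l = i' := by
      have hli : l ≠ i := fun h => hn (h ▸ hl)
      omega
    exact hl' ▸ hl
  -- (b)
  obtain ⟨i, j, hij, hij1⟩ : ∃ (i : Fin 2) (j : ℕ), (r : ℂ) * b2v k j ∈ g i '' poly k ∧
      (r : ℂ) * b2v k (j + 1) ∉ g i '' poly k := by
    by_contra hcon
    push Not at hcon
    obtain ⟨i, hi⟩ := hcovT (b2v k 0) (b2_v_mem hk 0)
    have hall : ∀ j, (r : ℂ) * b2v k j ∈ g i '' poly k := by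
      intro j
      induction j with
      | zero => exact hi
      | succ j ih => exact hcon i j ih
    refine hnot i 0 hi ?_
    have h1 := hall (0 + k)
    rwa [b2_v_add hk] at h1
  obtain ⟨i', hi'⟩ : ∃ i' : Fin 2, i ≠ i' := ⟨1 - i, by omega⟩
  have hneg : ∀ j, -b2v k j ∈ poly k := fun j => by
    rw [← b2_v_add hk]
    exact b2_v_mem hk _
  have q1 : (r : ℂ) * b2v k (j + 1) ∈ g i' '' poly k := hor i i' hi' _ (b2_v_mem hk _) hij1
  have q2 : (r : ℂ) * -b2v k j ∈ g i' '' poly k := hor i i' hi' _ (hneg _) (hnot i j hij)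
  have q3 : (r : ℂ) * -b2v k (j + 1) ∈ g i '' poly k := hor i' i hi'.symm _ (hneg _) (hnot i' (j + 1) q1)
  -- (c)
  set γ : ℝ := Real.pi / k with hγdef
  set ϑ : ℝ := (2 * (j : ℝ) + 1) * (γ / 2) with hϑ
  set s : ℝ := 2 * Real.sin (γ / 2) with hs
  set w : ℝ := 2 * Real.cos (γ / 2) with hw
  set e : ℂ := uv (ϑ + Real.pi / 2) with he
  have hs0 : 0 < s := by
    have := Real.sin_pos_of_pos_of_lt_pi (x := γ / 2) (by linarith) (by linarith)
    linarith
  have a1 : (j : ℝ) * γ = ϑ - γ / 2 := by rw [hϑ]; ring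
  have a2 : ((j + 1 : ℕ) : ℝ) * γ = ϑ + γ / 2 := by rw [hϑ]; push_cast; ring
  have hdiff : b2v k (j + 1) - b2v k j = (s : ℂ) * e := by
    unfold b2v
    rw [← hγdef, a1, a2, he, hs]
    apply Complex.ext
    · rw [Complex.sub_re, uv_re, uv_re, Complex.re_ofReal_mul, uv_re, Real.cos_add_pi_div_two,
        Real.cos_add, Real.cos_sub]
      ring
    · rw [Complex.sub_im, uv_im, uv_im, Complex.im_ofReal_mul, uv_im, Real.sin_add_pi_div_two,
        Real.sin_add, Real.sin_sub]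
      ring
  have hsum : b2v k (j + 1) + b2v k j = (w : ℂ) * uv ϑ := by
    unfold b2v
    rw [← hγdef, a1, a2, hw]
    apply Complex.ext
    · rw [Complex.add_re, uv_re, uv_re, Complex.re_ofReal_mul, uv_re, Real.cos_add, Real.cos_sub]
      ring
    · rw [Complex.add_im, uv_im, uv_im, Complex.im_ofReal_mul, uv_im, Real.sin_add, Real.sin_sub]
      ring
  have hrs : 0 ≤ r * s := by positivity
  have hseg : ∀ (p q : ℂ), p ∈ poly k → q ∈ poly k → q - p = (s : ℂ) * e → ∀ a : ℝ, 0 ≤ a → a ≤ r * s →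
      (r : ℂ) * p + (a : ℂ) * e ∈ g i '' poly k ∪ g i' '' poly k := by
    intro p q hp hq hpq a ha0 ha1
    have hrs0 : 0 < r * s := by positivity
    have hm : (1 - a / (r * s)) • p + (a / (r * s)) • q ∈ poly k := by
      refine hconv hp hq ?_ (by positivity) (by ring)
      rw [sub_nonneg, div_le_one hrs0]
      exact ha1
    have heq : (r : ℂ) * p + (a : ℂ) * e = (r : ℂ) * ((1 - a / (r * s)) • p + (a / (r * s)) • q) := by
      have hq' : q = p + (s : ℂ) * e := by rw [← hpq]; ring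
      have hr0 : (r : ℂ) ≠ 0 := by exact_mod_cast (by linarith : r ≠ 0)
      have hs0' : (s : ℂ) ≠ 0 := by exact_mod_cast hs0.ne'
      rw [hq', Complex.real_smul, Complex.real_smul]
      push_cast
      field_simp
      ring
    rw [heq]
    by_cases hc : (r : ℂ) * ((1 - a / (r * s)) • p + (a / (r * s)) • q) ∈ g i '' poly k
    · exact Or.inl hc
    · exact Or.inr (hor i i' hi' _ hm hc)
  obtain ⟨a, ha0, ha1, ha2, ha3⟩ := b2_cross (hclosed i) (hclosed i') (p := (r : ℂ) * b2v k j) (e := e) hrs hij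
    (by
      have : (r : ℂ) * b2v k j + ((r * s : ℝ) : ℂ) * e = (r : ℂ) * b2v k (j + 1) := by
        push_cast
        rw [mul_assoc, ← hdiff]
        ring
      rw [this]
      exact q1)
    (hseg _ _ (b2_v_mem hk j) (b2_v_mem hk (j + 1)) hdiff)
  obtain ⟨b, hb0, hb1, hb2, hb3⟩ := b2_cross (hclosed i) (hclosed i') (p := (r : ℂ) * -b2v k (j + 1)) (e := e) hrs q3
    (by
      have : (r : ℂ) * -b2v k (j + 1) + ((r * s : ℝ) : ℂ) * e = (r : ℂ) * -b2v k j := by
        push_cast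
        rw [mul_assoc, ← hdiff]
        ring
      rw [this]
      exact q2)
    (hseg _ _ (hneg (j + 1)) (hneg j) (by rw [← hdiff]; ring))
  -- (d), (e)
  have hrs1 : s ≤ r * s := by nlinarith
  have hwr : ((r * w : ℝ) : ℂ) * uv ϑ = (r : ℂ) * (b2v k (j + 1) + b2v k j) := by
    rw [hsum]
    push_cast
    ring
  have hse : ((r * s : ℝ) : ℂ) * e = (r : ℂ) * (b2v k (j + 1) - b2v k j) := by
    rw [hdiff]
    push_cast
    ring
  rcases le_total (r * s) (a + b) with hab | hab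
  · have := b2_final hk (g i) ϑ r a b hr1 ha0 hb0 ha2 q3 hij hb2
      (by rw [hwr]; ring) (by rw [hwr]; ring)
    linarith
  · have := b2_final hk (g i') ϑ r (r * s - b) (r * s - a) hr1 (by linarith) (by linarith) q1 hb3 ha3 q2
      (by
        rw [hwr, Complex.ofReal_sub, sub_mul, hse]
        ring)
      (by
        rw [hwr, Complex.ofReal_sub, sub_mul, hse]
        ring)
    linarith

end Newton54P
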