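import Pool.Agent.Lib.MP_54d165_co.Main

/-!
# Centrally symmetric planar bodies: basic definitions
-/

set_option autoImplicit false

namespace Newton54P

open Complex Set Newton54S
open scoped RealInnerProductSpace ComplexConjugate Topology

/-- scalar product with the unit vector of angle `η` -/
noncomputable def dt (η : ℝ) (w : ℂ) : ℝ := w.re * Real.cos η + w.im * Real.sin η

/-- the unit vector of angle `η` -/
noncomputable def uv (η : ℝ) : ℂ := ⟨Real.cos η, Real.sin η⟩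

@[simp] theorem uv_re (η : ℝ) : (uv η).re = Real.cos η := rfl
@[simp] theorem uv_im (η : ℝ) : (uv η).im = Real.sin η := rfl

theorem norm_uv (η : ℝ) : ‖uv η‖ = 1 := by
  rw [Complex.norm_def, Complex.normSq_apply, uv_re, uv_im, Real.sqrt_eq_one]
  nlinarith [Real.sin_sq_add_cos_sq η]

theorem uv_ne_zero (η : ℝ) : uv η ≠ 0 := by
  rw [← norm_ne_zero_iff, norm_uv]
  exact one_ne_zero

theorem uv_eq_exp (η : ℝ) : uv η = Complex.exp (η * Complex.I) := by
  apply Complex.ext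
  · rw [Complex.exp_ofReal_mul_I_re]; rfl
  · rw [Complex.exp_ofReal_mul_I_im]; rfl

theorem uv_add (a b : ℝ) : uv (a + b) = uv a * uv b := by
  apply Complex.ext
  · simp [Real.cos_add]
  · simp only [uv_im, Complex.mul_im, uv_re, Real.sin_add]; ring

theorem uv_zero : uv 0 = 1 := by apply Complex.ext <;> simp

theorem uv_mul_neg (a : ℝ) : uv a * uv (-a) = 1 := by rw [← uv_add, add_neg_cancel, uv_zero]

theorem uv_neg_mul (a : ℝ) : uv (-a) * uv a = 1 := by rw [← uv_add, neg_add_cancel, uv_zero]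

theorem conj_uv (a : ℝ) : conj (uv a) = uv (-a) := by apply Complex.ext <;> simp

theorem uv_add_pi (a : ℝ) : uv (a + Real.pi) = -uv a := by apply Complex.ext <;> simp

theorem uv_sub_pi (a : ℝ) : uv (a - Real.pi) = -uv a := by apply Complex.ext <;> simp

theorem uv_pi_sub (a : ℝ) : uv (Real.pi - a) = -uv (-a) := by apply Complex.ext <;> simp

theorem uv_add_two_pi (a : ℝ) : uv (a + 2 * Real.pi) = uv a := by apply Complex.ext <;> simp

theorem exists_uv {a : ℂ} (ha : ‖a‖ = 1) : ∃ α : ℝ, -Real.pi < α ∧ α ≤ Real.pi ∧ a = uv α := by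
  refine ⟨Complex.arg a, Complex.neg_pi_lt_arg a, Complex.arg_le_pi a, ?_⟩
  rw [uv_eq_exp]
  have h := Complex.norm_mul_exp_arg_mul_I a
  rw [ha, Complex.ofReal_one, one_mul] at h
  exact h.symm

/-- every complex number in polar form -/
theorem exists_polar (a : ℂ) : ∃ α : ℝ, -Real.pi < α ∧ α ≤ Real.pi ∧ a = ‖a‖ * uv α := by
  refine ⟨Complex.arg a, Complex.neg_pi_lt_arg a, Complex.arg_le_pi a, ?_⟩
  rw [uv_eq_exp]
  exact (Complex.norm_mul_exp_arg_mul_I a).symm

theorem dt_eq_inner (η : ℝ) (w : ℂ) : dt η w = ⟪uv η, w⟫ := by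
  rw [Complex.inner, dt]
  simp

@[simp] theorem dt_zero_left (w : ℂ) : dt 0 w = w.re := by simp [dt]

@[simp] theorem dt_zero_right (η : ℝ) : dt η 0 = 0 := by simp [dt]

theorem dt_uv (η α : ℝ) : dt η (uv α) = Real.cos (α - η) := by
  rw [dt, uv_re, uv_im, Real.cos_sub]

theorem dt_add (η : ℝ) (x y : ℂ) : dt η (x + y) = dt η x + dt η y := by
  simp only [dt, Complex.add_re, Complex.add_im]; ring

theorem dt_sub (η : ℝ) (x y : ℂ) : dt η (x - y) = dt η x - dt η y := by
  simp only [dt, Complex.sub_re, Complex.sub_im]; ring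

theorem dt_neg (η : ℝ) (x : ℂ) : dt η (-x) = -dt η x := by
  simp only [dt, Complex.neg_re, Complex.neg_im]; ring

theorem dt_smul (η r : ℝ) (x : ℂ) : dt η (r • x) = r * dt η x := by
  simp only [dt, Complex.smul_re, Complex.smul_im, smul_eq_mul]; ring

theorem dt_real_mul (η r : ℝ) (x : ℂ) : dt η (r * x) = r * dt η x := by
  simp only [dt, Complex.re_ofReal_mul, Complex.im_ofReal_mul]; ring

theorem dt_add_pi (η : ℝ) (x : ℂ) : dt (η + Real.pi) x = -dt η x := by
  simp only [dt, Real.cos_add_pi, Real.sin_add_pi]; ring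

theorem dt_sub_pi (η : ℝ) (x : ℂ) : dt (η - Real.pi) x = -dt η x := by
  simp only [dt, Real.cos_sub_pi, Real.sin_sub_pi]; ring

theorem dt_add_two_pi (η : ℝ) (x : ℂ) : dt (η + 2 * Real.pi) x = dt η x := by
  simp only [dt, Real.cos_add_two_pi, Real.sin_add_two_pi]

theorem dt_add_int (η : ℝ) (n : ℤ) (x : ℂ) : dt (η + n * (2 * Real.pi)) x = dt η x := by
  simp only [dt, Real.cos_add_int_mul_two_pi, Real.sin_add_int_mul_two_pi]

theorem dt_mul_uv (η α : ℝ) (x : ℂ) : dt η (uv α * x) = dt (η - α) x := by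
  simp only [dt, Complex.mul_re, Complex.mul_im, uv_re, uv_im, Real.cos_sub, Real.sin_sub]; ring

theorem dt_conj (η : ℝ) (x : ℂ) : dt η (conj x) = dt (-η) x := by
  simp only [dt, Complex.conj_re, Complex.conj_im, Real.cos_neg, Real.sin_neg]; ring

theorem dt_pi_div_two (w : ℂ) : dt (Real.pi / 2) w = w.im := by simp [dt]

theorem dt_pi (w : ℂ) : dt Real.pi w = -w.re := by simp [dt]

theorem dt_le_norm (η : ℝ) (w : ℂ) : dt η w ≤ ‖w‖ := by
  rw [dt_eq_inner]
  have h := real_inner_le_norm (uv η) w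
  rwa [norm_uv, one_mul] at h

theorem continuous_dt : Continuous fun p : ℝ × ℂ => dt p.1 p.2 := by
  unfold dt
  fun_prop

theorem continuous_uv : Continuous uv := by
  have h : uv = fun η : ℝ => Complex.exp (η * Complex.I) := funext uv_eq_exp
  rw [h]
  fun_prop

/-- a nonzero vector is a positive multiple of some `uv η` -/
theorem exists_pos_mul_uv {v : ℂ} (hv : v ≠ 0) : ∃ r η : ℝ, 0 < r ∧ v = r * uv η := by
  obtain ⟨α, -, -, h⟩ := exists_polar v
  exact ⟨‖v‖, α, norm_pos_iff.2 hv, h⟩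

/-- separation: a point which is not interior has a normal direction -/
theorem exists_dt {C : Set ℂ} (hconv : Convex ℝ C) (hint : (interior C).Nonempty) {w : ℂ}
    (hw : w ∉ interior C) : ∃ η : ℝ, ∀ y ∈ C, dt η y ≤ dt η w := by
  obtain ⟨f, hf⟩ := geometric_hahn_banach_open_point hconv.interior isOpen_interior hw
  have hle : ∀ y ∈ C, f y ≤ f w := by
    intro y hy
    have h1 : C ⊆ closure (interior C) := by
      rw [hconv.closure_interior_eq_closure_of_nonempty_interior hint]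
      exact subset_closure
    exact closure_minimal (s := interior C) (t := {z | f z ≤ f w})
      (fun z hz => (hf z hz).le) (isClosed_le f.continuous continuous_const) (h1 hy)
  set v : ℂ := ⟨f 1, f Complex.I⟩ with hv
  have hfv : ∀ z : ℂ, f z = z.re * v.re + z.im * v.im := by
    intro z
    have h1 : z = z.re • (1 : ℂ) + z.im • Complex.I := by
      apply Complex.ext <;> simp
    conv_lhs => rw [h1]
    rw [map_add, map_smul, map_smul, smul_eq_mul, smul_eq_mul]
  have hv0 : v ≠ 0 := by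
    intro h0
    obtain ⟨z, hz⟩ := hint
    have h1 := hf z hz
    rw [hfv, hfv, h0] at h1
    simp at h1
  obtain ⟨r, η, hr, hη⟩ := exists_pos_mul_uv hv0
  refine ⟨η, fun y hy => ?_⟩
  have h2 : ∀ z, f z = r * dt η z := by
    intro z
    rw [hfv, hη, dt, Complex.re_ofReal_mul, Complex.im_ofReal_mul, uv_re, uv_im]
    ring
  have h3 := hle y hy
  rw [h2, h2] at h3
  exact le_of_mul_le_mul_left h3 hr

/-- criterion for interior points -/
theorem mem_int {C : Set ℂ} (hconv : Convex ℝ C) (hint : (interior C).Nonempty) {w : ℂ}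
    (h : ∀ η : ℝ, ∃ y ∈ C, dt η w < dt η y) : w ∈ interior C := by
  by_contra hw
  obtain ⟨η, hη⟩ := exists_dt hconv hint hw
  obtain ⟨y, hy, hlt⟩ := h η
  exact absurd (hη y hy) (not_le.2 hlt)

/-- an interior point is strictly below some point in each direction -/
theorem lt_of_mem_int {C : Set ℂ} {w : ℂ} (hw : w ∈ interior C) (η : ℝ) :
    ∃ y ∈ C, dt η w < dt η y := by
  have h1 : Filter.Tendsto (fun t : ℝ => w + t * uv η) (𝓝 0) (𝓝 (w + (0 : ℝ) * uv η)) := by
    have : Continuous fun t : ℝ => w + t * uv η := by fun_prop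
    exact this.tendsto 0
  rw [Complex.ofReal_zero, zero_mul, add_zero] at h1
  have h2 := h1.eventually (isOpen_interior.mem_nhds hw)
  have h3 : ∀ᶠ t : ℝ in 𝓝[>] 0, w + t * uv η ∈ interior C := h2.filter_mono nhdsWithin_le_nhds
  obtain ⟨t, ht, ht0⟩ := (h3.and self_mem_nhdsWithin).exists
  refine ⟨w + t * uv η, interior_subset ht, ?_⟩
  rw [dt_add, dt_real_mul, dt_uv, sub_self, Real.cos_zero, mul_one]
  exact lt_add_of_pos_right _ ht0

/-- **the sinusoid lemma**: positivity at two angles less than `π` apart gives positivity between -/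
theorem dt_pos_of_between {η₁ η₂ η : ℝ} {z : ℂ} (h1 : 0 < dt η₁ z) (h2 : 0 < dt η₂ z)
    (hle1 : η₁ ≤ η) (hle2 : η ≤ η₂) (hlt : η₂ - η₁ < Real.pi) : 0 < dt η z := by
  rcases eq_or_lt_of_le (hle1.trans hle2) with heq | hlt'
  · have : η = η₁ := le_antisymm (heq ▸ hle2) hle1
    rwa [this]
  · have hs : 0 < Real.sin (η₂ - η₁) := Real.sin_pos_of_pos_of_lt_pi (by linarith) hlt
    have hid : Real.sin (η₂ - η₁) * dt η z =
        Real.sin (η₂ - η) * dt η₁ z + Real.sin (η - η₁) * dt η₂ z := by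
      simp only [dt, Real.sin_sub]
      have e := Real.sin_sq_add_cos_sq η
      have e1 := Real.sin_sq_add_cos_sq η₁
      have e2 := Real.sin_sq_add_cos_sq η₂
      ring
    have hp : 0 < Real.sin (η₂ - η₁) * dt η z := by
      rw [hid]
      rcases eq_or_lt_of_le hle1 with heq | hlt1
      · have : 0 < Real.sin (η₂ - η) := by rw [← heq]; exact hs
        have h3 : Real.sin (η - η₁) = 0 := by rw [heq, sub_self, Real.sin_zero]
        rw [h3, zero_mul, add_zero]
        exact mul_pos this h1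
      · have h3 : 0 < Real.sin (η - η₁) := Real.sin_pos_of_pos_of_lt_pi (by linarith) (by linarith)
        have h4 : 0 ≤ Real.sin (η₂ - η) :=
          Real.sin_nonneg_of_nonneg_of_le_pi (by linarith) (by linarith)
        have h5 := mul_nonneg h4 h1.le
        have h6 := mul_pos h3 h2
        linarith
    exact (mul_pos_iff_of_pos_left hs).1 hp

/-- the situation: a centrally symmetric convex body which is the convex hull of its unit vectors,
with the gap `(-φ, φ)` of directions of unit vectors between the unit vectors `uv (-φ)`, `uv φ` -/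
structure Insc (C : Set ℂ) (φ : ℝ) : Prop where
  conv : Convex ℝ C
  comp : IsCompact C
  int : (interior C).Nonempty
  sym : ∀ x ∈ C, -x ∈ C
  hull : C ⊆ convexHull ℝ {a | a ∈ C ∧ ‖a‖ = 1}
  pos : 0 < φ
  lt : φ < Real.pi / 2
  top : uv φ ∈ C
  bot : uv (-φ) ∈ C
  gap : ∀ a ∈ C, ‖a‖ = 1 → a.re ≤ Real.cos φ

namespace Insc

variable {C : Set ℂ} {φ : ℝ}

theorem cos_pos (h : Insc C φ) : 0 < Real.cos φ :=
  Real.cos_pos_of_mem_Ioo ⟨by linarith [h.pos, Real.pi_pos], h.lt⟩

theorem sin_pos (h : Insc C φ) : 0 < Real.sin φ :=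
  Real.sin_pos_of_pos_of_lt_pi h.pos (by linarith [h.lt, Real.pi_pos])

theorem abs_re (h : Insc C φ) {a : ℂ} (ha : a ∈ C) (h1 : ‖a‖ = 1) : |a.re| ≤ Real.cos φ := by
  rw [abs_le]
  refine ⟨?_, h.gap a ha h1⟩
  have h2 := h.gap (-a) (h.sym a ha) (by rw [norm_neg, h1])
  rw [Complex.neg_re] at h2
  linarith

theorem abs_im (h : Insc C φ) {a : ℂ} (ha : a ∈ C) (h1 : ‖a‖ = 1) : Real.sin φ ≤ |a.im| := by
  have h2 := h.abs_re ha h1
  have h3 : a.re ^ 2 + a.im ^ 2 = 1 := by
    have := Complex.sq_norm a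
    rw [h1, Complex.normSq_apply] at this
    nlinarith
  have h4 : a.re ^ 2 ≤ Real.cos φ ^ 2 := by
    rw [← sq_abs a.re]
    exact pow_le_pow_left₀ (abs_nonneg _) h2 2
  refine abs_le_of_sq_le_sq' ?_ (abs_nonneg _) |>.2
  rw [sq_abs]
  nlinarith [Real.sin_sq_add_cos_sq φ]

/-- unit vectors of `C` in the upper half plane -/
theorem im_ge (h : Insc C φ) {a : ℂ} (ha : a ∈ C) (h1 : ‖a‖ = 1) (h2 : 0 < a.im) :
    Real.sin φ ≤ a.im := by
  have h3 := h.abs_im ha h1
  rwa [abs_of_pos h2] at h3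

theorem angle (h : Insc C φ) {a : ℂ} (ha : a ∈ C) (h1 : ‖a‖ = 1) (h2 : 0 < a.im) :
    ∃ β : ℝ, φ ≤ β ∧ β ≤ Real.pi - φ ∧ a = uv β := by
  obtain ⟨β, hβ1, hβ2, rfl⟩ := exists_uv h1
  have h3 := h.abs_re ha h1
  rw [uv_re, abs_le] at h3
  rw [uv_im] at h2
  have hβ0 : 0 < β := by
    by_contra hc
    push Not at hc
    have := Real.sin_nonpos_of_nonpos_of_neg_pi_le hc hβ1.le
    linarith
  refine ⟨β, ?_, ?_, rfl⟩
  · by_contra hc
    push Not at hc
    have := Real.cos_lt_cos_of_nonneg_of_le_pi hβ0.le (by linarith [h.lt, Real.pi_pos]) hc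
    linarith
  · by_contra hc
    push Not at hc
    have h5 := Real.cos_lt_cos_of_nonneg_of_le_pi (x := Real.pi - φ) (y := β)
      (by linarith [h.lt, Real.pi_pos]) hβ2 (by linarith)
    rw [Real.cos_pi_sub] at h5
    linarith

theorem norm_le (h : Insc C φ) {x : ℂ} (hx : x ∈ C) : ‖x‖ ≤ 1 := by
  have h1 : convexHull ℝ {a | a ∈ C ∧ ‖a‖ = 1} ⊆ Metric.closedBall (0 : ℂ) 1 := by
    refine convexHull_min ?_ (convex_closedBall 0 1)
    rintro a ⟨-, ha⟩
    rw [mem_closedBall_zero_iff, ha]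
  have h2 := h1 (h.hull hx)
  rwa [mem_closedBall_zero_iff] at h2

theorem abs_re_le (h : Insc C φ) {x : ℂ} (hx : x ∈ C) : |x.re| ≤ Real.cos φ := by
  have hcl : Convex ℝ {z : ℂ | |z.re| ≤ Real.cos φ} := by
    intro z hz w hw a b ha hb hab
    simp only [mem_ofPred_eq, abs_le] at hz hw ⊢
    rw [Complex.add_re, Complex.smul_re, Complex.smul_re, smul_eq_mul, smul_eq_mul]
    have e1 : Real.cos φ = a * Real.cos φ + b * Real.cos φ := by rw [← add_mul, hab, one_mul]
    constructor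
    · nlinarith [mul_le_mul_of_nonneg_left hz.1 ha, mul_le_mul_of_nonneg_left hw.1 hb]
    · nlinarith [mul_le_mul_of_nonneg_left hz.2 ha, mul_le_mul_of_nonneg_left hw.2 hb]
  have h1 : convexHull ℝ {a | a ∈ C ∧ ‖a‖ = 1} ⊆ {z : ℂ | |z.re| ≤ Real.cos φ} :=
    convexHull_min (fun a ha => h.abs_re ha.1 ha.2) hcl
  exact h1 (h.hull hx)

theorem mem_int (h : Insc C φ) {w : ℂ} (hw : ∀ η : ℝ, ∃ y ∈ C, dt η w < dt η y) :
    w ∈ interior C := Newton54P.mem_int h.conv h.int hw

/-- the open rectangle with vertices `± uv (± φ)` lies in the interior -/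
theorem rect (h : Insc C φ) {w : ℂ} (h1 : |w.re| < Real.cos φ) (h2 : |w.im| < Real.sin φ) :
    w ∈ interior C := by
  refine h.mem_int fun η => ?_
  rw [abs_lt] at h1 h2
  have hne : Real.cos η ≠ 0 ∨ Real.sin η ≠ 0 := by
    by_contra hc
    push Not at hc
    have := Real.sin_sq_add_cos_sq η
    rw [hc.1, hc.2] at this
    norm_num at this
  have key : ∀ (s t : ℝ), (s = Real.cos φ ∨ s = -Real.cos φ) → (t = Real.sin φ ∨ t = -Real.sin φ) →
      (⟨s, t⟩ : ℂ) ∈ C := by
    rintro s t (rfl | rfl) (rfl | rfl)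
    · exact h.top
    · have := h.bot
      rwa [show uv (-φ) = ⟨Real.cos φ, -Real.sin φ⟩ by apply Complex.ext <;> simp] at this
    · have := h.sym _ h.bot
      rwa [show -uv (-φ) = ⟨-Real.cos φ, Real.sin φ⟩ by apply Complex.ext <;> simp] at this
    · have := h.sym _ h.top
      rwa [show -uv φ = ⟨-Real.cos φ, -Real.sin φ⟩ by apply Complex.ext <;> simp] at this
  rcases le_or_gt 0 (Real.cos η) with hc | hc <;> rcases le_or_gt 0 (Real.sin η) with hs | hs
  · refine ⟨_, key _ _ (Or.inl rfl) (Or.inl rfl), ?_⟩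
    simp only [dt]
    rcases hne with h3 | h3
    · have := lt_of_le_of_ne hc h3.symm
      nlinarith
    · have := lt_of_le_of_ne hs h3.symm
      nlinarith
  · refine ⟨_, key _ _ (Or.inl rfl) (Or.inr rfl), ?_⟩
    simp only [dt]
    nlinarith
  · refine ⟨_, key _ _ (Or.inr rfl) (Or.inl rfl), ?_⟩
    simp only [dt]
    nlinarith
  · refine ⟨_, key _ _ (Or.inr rfl) (Or.inr rfl), ?_⟩
    simp only [dt]
    nlinarith

/-- central symmetry of the interior -/
theorem neg_mem_int (h : Insc C φ) {w : ℂ} (hw : w ∈ interior C) : -w ∈ interior C := by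
  refine h.mem_int fun η => ?_
  obtain ⟨y, hy, hlt⟩ := lt_of_mem_int hw (η + Real.pi)
  refine ⟨-y, h.sym y hy, ?_⟩
  rw [dt_add_pi, dt_add_pi] at hlt
  rw [dt_neg, dt_neg]
  exact hlt

end Insc

/-! ### invariance under similarities -/

theorem cov_sim {C : Set ℂ} {k : ℕ} (f : ℂ ≃ₜ ℂ) {r : ℝ} (hr : 0 < r)
    (hf : ∀ x y, dist (f x) (f y) = r * dist x y) (h : Cov (f '' C) k) : Cov C k := by
  obtain ⟨g, U, hU, hCU, hUg⟩ := h
  have hiso : ∀ i, Isometry (f.toEquiv.trans ((g i).toEquiv.trans f.symm.toEquiv)) := by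
    intro i
    refine Isometry.of_dist_eq fun x y => ?_
    have h1 : ∀ a b : ℂ, dist (f.symm a) (f.symm b) = r⁻¹ * dist a b := by
      intro a b
      have h2 := hf (f.symm a) (f.symm b)
      rw [f.apply_symm_apply, f.apply_symm_apply] at h2
      rw [h2, ← mul_assoc, inv_mul_cancel₀ hr.ne', one_mul]
    show dist (f.symm (g i (f x))) (f.symm (g i (f y))) = dist x y
    rw [h1, (g i).dist_eq, hf, ← mul_assoc, inv_mul_cancel₀ hr.ne', one_mul]
  refine ⟨fun i => ⟨_, hiso i⟩, f ⁻¹' U, hU.preimage f.continuous, ?_, ?_⟩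
  · intro x hx
    exact hCU ⟨x, hx, rfl⟩
  · intro x hx
    obtain ⟨i, y, ⟨z, hz, rfl⟩, hy⟩ := mem_iUnion.1 (hUg hx)
    refine mem_iUnion.2 ⟨i, z, hz, ?_⟩
    show f.symm (g i (f z)) = x
    rw [hy, f.symm_apply_apply]

/-- the similarity `x ↦ u x + c` -/
noncomputable def simHomeo (u : ℂ) (hu : u ≠ 0) (c : ℂ) : ℂ ≃ₜ ℂ where
  toFun x := u * x + c
  invFun y := u⁻¹ * (y - c)
  left_inv x := by
    show u⁻¹ * (u * x + c - c) = x
    rw [add_sub_cancel_right, ← mul_assoc, inv_mul_cancel₀ hu, one_mul]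
  right_inv y := by
    show u * (u⁻¹ * (y - c)) + c = y
    rw [← mul_assoc, mul_inv_cancel₀ hu, one_mul, sub_add_cancel]
  continuous_toFun := by fun_prop
  continuous_invFun := by fun_prop

theorem cov_mul {C : Set ℂ} {k : ℕ} {u : ℂ} (hu : u ≠ 0) (c : ℂ)
    (h : Cov ((fun x => u * x + c) '' C) k) : Cov C k := by
  refine cov_sim (simHomeo u hu c) (norm_pos_iff.2 hu) (fun x y => ?_) h
  show dist (u * x + c) (u * y + c) = ‖u‖ * dist x y
  rw [dist_add_right, dist_eq_norm, ← mul_sub, norm_mul, dist_eq_norm]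

theorem cov_mul_iff {C : Set ℂ} {k : ℕ} {u : ℂ} (hu : u ≠ 0) (c : ℂ) :
    Cov ((fun x => u * x + c) '' C) k ↔ Cov C k := by
  refine ⟨cov_mul hu c, fun h => ?_⟩
  refine cov_mul (inv_ne_zero hu) (-(u⁻¹ * c)) ?_
  rw [← image_comp]
  have : ((fun x => u⁻¹ * x + -(u⁻¹ * c)) ∘ fun x => u * x + c) = id := by
    funext x
    simp only [Function.comp_apply, id_eq]
    rw [mul_add, ← mul_assoc, inv_mul_cancel₀ hu]
    ring
  rw [this, image_id]
  exact h

theorem cov_conj {C : Set ℂ} {k : ℕ} (h : Cov (conj '' C) k) : Cov C k := by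
  refine cov_sim (Complex.conjLIE.toHomeomorph) one_pos (fun x y => ?_) h
  show dist (conj x) (conj y) = 1 * dist x y
  rw [one_mul]
  exact Complex.conjLIE.dist_map x y

/-- the body rotated by the angle `θ` -/
def rt (θ : ℝ) (C : Set ℂ) : Set ℂ := {x | uv (-θ) * x ∈ C}

theorem mem_rt {θ : ℝ} {C : Set ℂ} {x : ℂ} : x ∈ rt θ C ↔ uv (-θ) * x ∈ C := Iff.rfl

theorem uv_mem_rt {θ α : ℝ} {C : Set ℂ} : uv α ∈ rt θ C ↔ uv (α - θ) ∈ C := by
  rw [mem_rt, ← uv_add, show -θ + α = α - θ by ring]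

theorem rt_rt (a b : ℝ) (C : Set ℂ) : rt a (rt b C) = rt (a + b) C := by
  ext x
  rw [mem_rt, mem_rt, mem_rt, ← mul_assoc, ← uv_add, show -b + -a = -(a + b) by ring]

theorem rt_zero (C : Set ℂ) : rt 0 C = C := by
  ext x
  rw [mem_rt, neg_zero, uv_zero, one_mul]

theorem rt_eq_image (θ : ℝ) (C : Set ℂ) : rt θ C = (fun x => uv θ * x + 0) '' C := by
  ext x
  constructor
  · intro hx
    refine ⟨uv (-θ) * x, hx, ?_⟩
    simp only
    rw [← mul_assoc, uv_mul_neg, one_mul, add_zero]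
  · rintro ⟨y, hy, rfl⟩
    simp only
    rw [mem_rt, add_zero, ← mul_assoc, uv_neg_mul, one_mul]
    exact hy

theorem cov_rt {θ : ℝ} {C : Set ℂ} {k : ℕ} (h : Cov (rt θ C) k) : Cov C k := by
  rw [rt_eq_image] at h
  exact cov_mul (uv_ne_zero θ) 0 h

/-- the body reflected in the real axis -/
def cj (C : Set ℂ) : Set ℂ := {x | conj x ∈ C}

theorem mem_cj {C : Set ℂ} {x : ℂ} : x ∈ cj C ↔ conj x ∈ C := Iff.rfl

theorem uv_mem_cj {C : Set ℂ} {α : ℝ} : uv α ∈ cj C ↔ uv (-α) ∈ C := by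
  rw [mem_cj, conj_uv]

theorem cj_eq_image (C : Set ℂ) : cj C = conj '' C := by
  ext x
  constructor
  · intro hx
    exact ⟨conj x, hx, Complex.conj_conj x⟩
  · rintro ⟨y, hy, rfl⟩
    rw [mem_cj, Complex.conj_conj]
    exact hy

theorem cov_cj {C : Set ℂ} {k : ℕ} (h : Cov (cj C) k) : Cov C k := by
  rw [cj_eq_image] at h
  exact cov_conj h

theorem rt_convex {C : Set ℂ} (h : Convex ℝ C) (θ : ℝ) : Convex ℝ (rt θ C) := by
  intro x hx y hy a b ha hb hab
  rw [mem_rt] at hx hy ⊢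
  have := h hx hy ha hb hab
  rw [mul_add, mul_smul_comm, mul_smul_comm]
  exact this

theorem rt_compact {C : Set ℂ} (h : IsCompact C) (θ : ℝ) : IsCompact (rt θ C) := by
  rw [rt_eq_image]
  exact h.image (by fun_prop)

theorem rt_interior (θ : ℝ) (C : Set ℂ) : interior (rt θ C) = rt θ (interior C) := by
  rw [rt_eq_image, rt_eq_image]
  exact ((simHomeo (uv θ) (uv_ne_zero θ) 0).image_interior C).symm

theorem rt_int {C : Set ℂ} (h : (interior C).Nonempty) (θ : ℝ) : (interior (rt θ C)).Nonempty := by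
  rw [rt_interior]
  obtain ⟨z, hz⟩ := h
  refine ⟨uv θ * z, ?_⟩
  rw [mem_rt, ← mul_assoc, uv_neg_mul, one_mul]
  exact hz

theorem rt_sym {C : Set ℂ} (h : ∀ x ∈ C, -x ∈ C) (θ : ℝ) : ∀ x ∈ rt θ C, -x ∈ rt θ C := by
  intro x hx
  rw [mem_rt] at hx ⊢
  rw [mul_neg]
  exact h _ hx

theorem norm_uv_mul (θ : ℝ) (x : ℂ) : ‖uv θ * x‖ = ‖x‖ := by rw [norm_mul, norm_uv, one_mul]

theorem rt_hull {C : Set ℂ} (h : C ⊆ convexHull ℝ {a | a ∈ C ∧ ‖a‖ = 1}) (θ : ℝ) :
    rt θ C ⊆ convexHull ℝ {a | a ∈ rt θ C ∧ ‖a‖ = 1} := by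
  have h1 : Convex ℝ (rt (-θ) (convexHull ℝ {a | a ∈ rt θ C ∧ ‖a‖ = 1})) :=
    rt_convex (convex_convexHull ℝ _) _
  have h2 : {a | a ∈ C ∧ ‖a‖ = 1} ⊆ rt (-θ) (convexHull ℝ {a | a ∈ rt θ C ∧ ‖a‖ = 1}) := by
    rintro a ⟨ha, ha1⟩
    rw [mem_rt, neg_neg]
    refine subset_convexHull ℝ _ ⟨?_, ?_⟩
    · rw [mem_rt, ← mul_assoc, uv_neg_mul, one_mul]
      exact ha
    · rw [norm_uv_mul, ha1]
  intro x hx
  have h3 := convexHull_min h2 h1 (h hx)
  rw [mem_rt, neg_neg, ← mul_assoc, uv_mul_neg, one_mul] at h3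
  exact h3

theorem cj_convex {C : Set ℂ} (h : Convex ℝ C) : Convex ℝ (cj C) := by
  intro x hx y hy a b ha hb hab
  rw [mem_cj] at hx hy ⊢
  have h1 := h hx hy ha hb hab
  have h2 : conj (a • x + b • y) = a • conj x + b • conj y := by
    apply Complex.ext <;> simp
  rw [h2]
  exact h1

theorem cj_compact {C : Set ℂ} (h : IsCompact C) : IsCompact (cj C) := by
  rw [cj_eq_image]
  exact h.image Complex.continuous_conj

theorem cj_interior (C : Set ℂ) : interior (cj C) = cj (interior C) := by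
  rw [cj_eq_image, cj_eq_image]
  exact (Complex.conjLIE.toHomeomorph.image_interior C).symm

theorem Insc.cj {C : Set ℂ} {φ : ℝ} (h : Insc C φ) : Insc (cj C) φ where
  conv := cj_convex h.conv
  comp := cj_compact h.comp
  int := by
    rw [cj_interior]
    obtain ⟨z, hz⟩ := h.int
    exact ⟨conj z, by rw [mem_cj, Complex.conj_conj]; exact hz⟩
  sym := by
    intro x hx
    rw [mem_cj] at hx ⊢
    rw [map_neg]
    exact h.sym _ hx
  hull := by
    have h2 : {a | a ∈ C ∧ ‖a‖ = 1} ⊆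
        Newton54P.cj (convexHull ℝ {a | a ∈ Newton54P.cj C ∧ ‖a‖ = 1}) := by
      rintro a ⟨ha, ha1⟩
      rw [mem_cj]
      refine subset_convexHull ℝ _ ⟨?_, ?_⟩
      · rw [mem_cj, Complex.conj_conj]
        exact ha
      · rw [RCLike.norm_conj, ha1]
    intro x hx
    have h3 := convexHull_min h2 (cj_convex (convex_convexHull ℝ _)) (h.hull hx)
    rw [mem_cj, Complex.conj_conj] at h3
    exact h3
  pos := h.pos
  lt := h.lt
  top := by rw [uv_mem_cj]; exact h.bot
  bot := by rw [uv_mem_cj, neg_neg]; exact h.top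
  gap := by
    intro a ha h1
    have := h.gap (conj a) ha (by rw [RCLike.norm_conj, h1])
    rwa [Complex.conj_re] at this

end Newton54P
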