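import Pool.Agent.Lib.MP_54d165_co.PS.Basic

/-! Row E1: the edge lemma. -/

set_option autoImplicit false

namespace Newton54P

open Complex Set Newton54S
open scoped RealInnerProductSpace

private theorem e1_inner (z w : ℂ) : ⟪z, w⟫ = z.re * w.re + z.im * w.im := by
  rw [Complex.inner]
  simp only [Complex.mul_re, Complex.conj_re, Complex.conj_im]
  ring

theorem cov_rotation {C : Set ℂ} (hconv : Convex ℝ C) (hcomp : IsCompact C) {α t : ℝ}
    (h : ∀ x ∈ C, (∃ τ : ℝ, 0 < τ ∧ x - τ • (⟨α + x.im, -(t + x.re)⟩ : ℂ) ∈ interior C) ∨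
      ∃ τ : ℝ, 0 < τ ∧ x - τ • (⟨x.im - α, t - x.re⟩ : ℂ) ∈ interior C) : Cov C 2 := by
  have hu : ‖(Complex.I : ℂ)‖ = 1 := Complex.norm_I
  have hw : ‖(1 : ℂ)‖ = 1 := norm_one
  have huw : ⟪(Complex.I : ℂ), (1 : ℂ)⟫ = 0 := by rw [e1_inner]; simp
  have hom : ∀ x : ℂ, om Complex.I 1 x = ⟨x.im, -x.re⟩ := by
    intro x
    rw [om, e1_inner, e1_inner]
    apply Complex.ext <;> simp
  have key := cov_of_linear hconv hcomp (ι := Bool) (rot hu hw huw) (om Complex.I 1)
    (fun b => if b then (⟨α, -t⟩ : ℂ) else ⟨-α, t⟩) (rot_tendsto hu hw huw) (by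
      intro x hx
      rcases h x hx with ⟨τ, hτ, hi⟩ | ⟨τ, hτ, hi⟩
      · refine ⟨true, τ, hτ, ?_⟩
        have e : (if true = true then (⟨α, -t⟩ : ℂ) else ⟨-α, t⟩) + om Complex.I 1 x =
            ⟨α + x.im, -(t + x.re)⟩ := by
          rw [hom]
          apply Complex.ext <;> simp
          ring
        rw [e]
        exact hi
      · refine ⟨false, τ, hτ, ?_⟩
        have e : (if false = true then (⟨α, -t⟩ : ℂ) else ⟨-α, t⟩) + om Complex.I 1 x =
            ⟨x.im - α, t - x.re⟩ := by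
          rw [hom]
          apply Complex.ext <;> simp
          · ring
          · ring
        rw [e]
        exact hi)
  rwa [Fintype.card_bool] at key

private theorem e1_neg {C : Set ℂ} (hsym : ∀ x ∈ C, -x ∈ C) {x n : ℂ} (h : Nml C x n) :
    Nml C (-x) (-n) := by
  refine ⟨by rw [norm_neg]; exact h.1, fun y hy => ?_⟩
  have := h.2 (-y) (hsym y hy)
  rw [e1_inner, e1_inner] at this ⊢
  simp only [Complex.neg_re, Complex.neg_im] at this ⊢
  linarith

private theorem e1_sq {n : ℂ} (h : ‖n‖ = 1) : n.re ^ 2 + n.im ^ 2 = 1 := by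
  have := Complex.sq_norm n
  rw [h, Complex.normSq_apply] at this
  nlinarith

/-- the case of a common normal `1` -/
private theorem e1_four_pos {C : Set ℂ} {H y₁ y₂ : ℝ}
    (hre : ∀ x ∈ C, x.re ≤ H) (hp : (⟨H, y₁⟩ : ℂ) ∈ C) (hq : (⟨H, y₂⟩ : ℂ) ∈ C)
    (hF : ∀ x ∈ C, x.re = H → y₁ ≤ x.im ∧ x.im ≤ y₂)
    (hone : y₁ < y₂ ∨ ∀ η : ℝ, Real.sin η < 0 → ¬ ∀ y ∈ C, dt η y ≤ dt η ⟨H, y₁⟩)
    {x n n' : ℂ} (hx : x ∈ C) (hn : Nml C x n) (hn' : Nml C x n') (h1 : n.im < 0)
    (h2 : 0 < n'.im) (h3 : 0 < n'.im * n.re - n.im * n'.re) : False := by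
  have hxH : x.re = H := by
    refine le_antisymm (hre x hx) ?_
    have e1 := hn.2 _ hp
    have e2 := hn'.2 _ hp
    rw [e1_inner, e1_inner] at e1 e2
    simp only at e1 e2
    have e3 := mul_le_mul_of_nonneg_left e1 h2.le
    have e4 := mul_le_mul_of_nonneg_left e2 (neg_nonneg.2 h1.le)
    have e5 : (n'.im * n.re - n.im * n'.re) * H ≤ (n'.im * n.re - n.im * n'.re) * x.re := by
      linarith
    exact le_of_mul_le_mul_left e5 h3
  obtain ⟨h4, h5⟩ := hF x hx hxH
  have h6 : y₂ ≤ x.im := by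
    have e2 := hn'.2 _ hq
    rw [e1_inner, e1_inner] at e2
    simp only at e2
    rw [hxH] at e2
    have e5 : n'.im * y₂ ≤ n'.im * x.im := by linarith
    exact le_of_mul_le_mul_left e5 h2
  have h7 : x.im ≤ y₁ := by
    have e2 := hn.2 _ hp
    rw [e1_inner, e1_inner] at e2
    simp only at e2
    rw [hxH] at e2
    have e5 : (-n.im) * x.im ≤ (-n.im) * y₁ := by linarith
    exact le_of_mul_le_mul_left e5 (neg_pos.2 h1)
  have h8 : y₁ = y₂ := by linarith
  have h9 : x = ⟨H, y₁⟩ := by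
    apply Complex.ext
    · exact hxH
    · exact le_antisymm h7 h4
  rcases hone with h | h
  · linarith
  · obtain ⟨η, -, -, rfl⟩ := exists_uv hn.1
    refine h η h1 fun y hy => ?_
    have e := hn.2 y hy
    rw [← dt_eq_inner, ← dt_eq_inner, h9] at e
    exact e

theorem e1_four {C : Set ℂ} (hint : (interior C).Nonempty) (hsym : ∀ x ∈ C, -x ∈ C)
    {H y₁ y₂ : ℝ}
    (hre : ∀ x ∈ C, x.re ≤ H) (hp : (⟨H, y₁⟩ : ℂ) ∈ C) (hq : (⟨H, y₂⟩ : ℂ) ∈ C)
    (hF : ∀ x ∈ C, x.re = H → y₁ ≤ x.im ∧ x.im ≤ y₂)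
    (hone : y₁ < y₂ ∨ ∀ η : ℝ, Real.sin η < 0 → ¬ ∀ y ∈ C, dt η y ≤ dt η ⟨H, y₁⟩)
    {x n n' : ℂ} (hx : x ∈ C) (hn : Nml C x n) (hn' : Nml C x n') (h1 : n.im < 0)
    (h2 : 0 < n'.im) : False := by
  rcases lt_trichotomy (n'.im * n.re - n.im * n'.re) 0 with h | h | h
  · refine e1_four_pos hre hp hq hF hone (hsym x hx) (e1_neg hsym hn') (e1_neg hsym hn) ?_ ?_ ?_
    · rw [Complex.neg_im]; linarith
    · rw [Complex.neg_im]; linarith
    · simp only [Complex.neg_im, Complex.neg_re]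
      linarith
  · obtain ⟨z, hz⟩ := hint
    obtain ⟨η, -, -, rfl⟩ := exists_uv hn.1
    obtain ⟨y, hy, hlt⟩ := lt_of_mem_int hz η
    have hconst : ∀ y ∈ C, ⟪uv η, y⟫ = ⟪uv η, x⟫ := by
      intro y hy
      refine le_antisymm (hn.2 y hy) ?_
      have e := hn'.2 y hy
      rw [e1_inner, e1_inner] at e ⊢
      have e1 : (-(uv η).im) * (n'.re * y.re + n'.im * y.im) ≤
          (-(uv η).im) * (n'.re * x.re + n'.im * x.im) :=
        mul_le_mul_of_nonneg_left e (by linarith)
      have e2 : n'.im * ((uv η).re * x.re + (uv η).im * x.im) ≤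
          n'.im * ((uv η).re * y.re + (uv η).im * y.im) := by
        have e3 : n'.im * (uv η).re = (uv η).im * n'.re := by linarith
        calc n'.im * ((uv η).re * x.re + (uv η).im * x.im)
            = (n'.im * (uv η).re) * x.re + n'.im * (uv η).im * x.im := by ring
          _ = ((uv η).im * n'.re) * x.re + n'.im * (uv η).im * x.im := by rw [e3]
          _ = -((-(uv η).im) * (n'.re * x.re + n'.im * x.im)) := by ring
          _ ≤ -((-(uv η).im) * (n'.re * y.re + n'.im * y.im)) := neg_le_neg e1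
          _ = ((uv η).im * n'.re) * y.re + n'.im * (uv η).im * y.im := by ring
          _ = (n'.im * (uv η).re) * y.re + n'.im * (uv η).im * y.im := by rw [e3]
          _ = n'.im * ((uv η).re * y.re + (uv η).im * y.im) := by ring
      exact le_of_mul_le_mul_left e2 h2
    rw [dt_eq_inner, dt_eq_inner, hconst y hy, hconst z (interior_subset hz)] at hlt
    exact absurd hlt (lt_irrefl _)
  · exact e1_four_pos hre hp hq hF hone hx hn hn' h1 h2 h

/-- statement (3) of the row: all normals of `x` look upwards -/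
private theorem e1_three {C : Set ℂ} (hsym : ∀ x ∈ C, -x ∈ C) {H y₁ y₂ : ℝ}
    (hre : ∀ x ∈ C, x.re ≤ H) (hp : (⟨H, y₁⟩ : ℂ) ∈ C) (hq : (⟨H, y₂⟩ : ℂ) ∈ C)
    (hy : 0 < y₁ + y₂) {α t : ℝ} (hα : α = (y₂ - y₁) / 2) (htH : |H| + 1 ≤ t)
    (ht : ∀ x ∈ C, ∀ n, Nml C x n → 0 ≤ n.re → n.im ≤ 0 →
      0 < (α + x.im) * n.re - (t + x.re) * n.im)
    {x : ℂ} (hx : x ∈ C) {n₀ : ℂ} (hn₀ : Nml C x n₀) (h0 : n₀.im < 0)
    (hall : ∀ n, Nml C x n → n.im ≤ 0) {n : ℂ} (hn : Nml C x n) :
    0 < (α + x.im) * n.re - (t + x.re) * n.im := by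
  have hxre : 0 ≤ x.re + H := by
    have := hre _ (hsym x hx)
    rw [Complex.neg_re] at this
    linarith
  have htx : 0 < t + x.re := by
    have := le_abs_self H
    linarith
  have hcomp : ∀ m : ℂ, Nml C x m → 0 ≤ (x.re + H) * m.re + (x.im + y₂) * m.im := by
    intro m hm
    have e := hm.2 _ (hsym _ hq)
    rw [e1_inner, e1_inner] at e
    simp only [Complex.neg_re, Complex.neg_im] at e
    linarith
  rcases le_or_gt 0 n.re with h1 | h1
  · exact ht x hx n hn h1 (hall n hn)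
  · rcases (hall n hn).lt_or_eq with h2 | h2
    · have e1 := hcomp n hn
      have e2 : (x.re + H) * n.re ≤ 0 := mul_nonpos_of_nonneg_of_nonpos hxre h1.le
      have e3 : 0 ≤ (x.im + y₂) * n.im := by linarith
      have e4 : x.im + y₂ ≤ 0 := by
        by_contra hc
        push Not at hc
        have := mul_neg_of_pos_of_neg hc h2
        linarith
      have e5 : α + x.im < 0 := by rw [hα]; linarith
      have e6 := mul_pos_of_neg_of_neg e5 h1
      have e7 := mul_neg_of_pos_of_neg htx h2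
      linarith
    · have e0 : n.re = -1 := by
        have := e1_sq hn.1
        rw [h2] at this
        have h3 : (n.re - 1) * (n.re + 1) = 0 := by linarith
        rcases mul_eq_zero.1 h3 with h4 | h4
        · linarith
        · linarith
      have e1 : x.re = -H := by
        have e := hn.2 _ (hsym _ hp)
        rw [e1_inner, e1_inner] at e
        simp only [Complex.neg_re, Complex.neg_im, h2, e0] at e
        linarith
      have e2 := hcomp n₀ hn₀
      rw [e1] at e2
      have e3 : 0 ≤ (x.im + y₂) * n₀.im := by linarith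
      have e4 : x.im + y₂ ≤ 0 := by
        by_contra hc
        push Not at hc
        have := mul_neg_of_pos_of_neg hc h0
        linarith
      have e5 : α + x.im < 0 := by rw [hα]; linarith
      rw [h2, e0]
      linarith

theorem cov_edge {C : Set ℂ} (hconv : Convex ℝ C) (hcomp : IsCompact C)
    (hint : (interior C).Nonempty) (hsym : ∀ x ∈ C, -x ∈ C) {H y₁ y₂ : ℝ}
    (hre : ∀ x ∈ C, x.re ≤ H) (hp : (⟨H, y₁⟩ : ℂ) ∈ C) (hq : (⟨H, y₂⟩ : ℂ) ∈ C)
    (hF : ∀ x ∈ C, x.re = H → y₁ ≤ x.im ∧ x.im ≤ y₂) (hy : 0 < y₁ + y₂)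
    (hone : y₁ < y₂ ∨ ∀ η : ℝ, Real.sin η < 0 → ¬ ∀ y ∈ C, dt η y ≤ dt η ⟨H, y₁⟩) :
    Cov C 2 := by
  obtain ⟨α, hα⟩ : ∃ α : ℝ, α = (y₂ - y₁) / 2 := ⟨_, rfl⟩
  have hH : 0 < H := by
    obtain ⟨z, hz⟩ := hint
    obtain ⟨y, hy1, hlt⟩ := lt_of_mem_int hz 0
    obtain ⟨y', hy1', hlt'⟩ := lt_of_mem_int hz Real.pi
    rw [dt_zero_left, dt_zero_left] at hlt
    rw [dt_pi, dt_pi] at hlt'
    have e1 := hre y hy1
    have e2 := hre _ (hsym y' hy1')
    rw [Complex.neg_re] at e2
    linarith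
  -- compactness
  obtain ⟨L, hL, hLK⟩ := compact_combine
    (K := {p : ℂ × ℂ | p.1 ∈ C ∧ Nml C p.1 p.2} ∩ {p : ℂ × ℂ | 0 ≤ p.2.re ∧ p.2.im ≤ 0})
    (ψ := fun p => -p.2.im) (φ := fun p => (α + p.1.im) * p.2.re - p.1.re * p.2.im)
    ((isCompact_nml hcomp).inter_right (by
      have e1 : IsClosed {p : ℂ × ℂ | 0 ≤ p.2.re} := isClosed_le (by fun_prop) (by fun_prop)
      have e2 : IsClosed {p : ℂ × ℂ | p.2.im ≤ 0} := isClosed_le (by fun_prop) (by fun_prop)
      exact e1.inter e2))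
    (by fun_prop) (by fun_prop)
    (by
      rintro p ⟨-, -, h⟩
      exact neg_nonneg.2 h)
    (by
      rintro ⟨x, n⟩ ⟨⟨hx, hn⟩, h1, h2⟩ h3
      dsimp only at hx hn h1 h2 h3 ⊢
      have h4 : n.im = 0 := by linarith
      have h5 : n.re = 1 := by
        have := e1_sq hn.1
        rw [h4] at this
        have h3 : (n.re - 1) * (n.re + 1) = 0 := by linarith
        rcases mul_eq_zero.1 h3 with h6 | h6
        · linarith
        · linarith
      have h6 : x.re = H := by
        refine le_antisymm (hre x hx) ?_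
        have e := hn.2 _ hp
        rw [e1_inner, e1_inner] at e
        simp only [h4, h5] at e
        linarith
      have h7 := hF x hx h6
      rw [h4, h5, hα]
      linarith [h7.1])
  obtain ⟨t, htL, htH⟩ : ∃ t : ℝ, L ≤ t ∧ |H| + 1 ≤ t :=
    ⟨max L (|H| + 1), le_max_left _ _, le_max_right _ _⟩
  have ht : ∀ x ∈ C, ∀ n, Nml C x n → 0 ≤ n.re → n.im ≤ 0 →
      0 < (α + x.im) * n.re - (t + x.re) * n.im := by
    intro x hx n hn h1 h2
    have e := hLK (x, n) ⟨⟨hx, hn⟩, h1, h2⟩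
    simp only at e
    have e2 := mul_le_mul_of_nonneg_right htL (neg_nonneg.2 h2)
    linarith
  refine cov_rotation hconv hcomp (α := α) (t := t) fun x hx => ?_
  have hV : ∀ n : ℂ, ⟪n, (⟨α + x.im, -(t + x.re)⟩ : ℂ)⟫ =
      (α + x.im) * n.re - (t + x.re) * n.im := by
    intro n
    rw [e1_inner]
    ring
  have hW : ∀ n : ℂ, ⟪n, (⟨x.im - α, t - x.re⟩ : ℂ)⟫ =
      (x.im - α) * n.re + (t - x.re) * n.im := by
    intro n
    rw [e1_inner]
    ring
  by_cases hA : ∃ n₀, Nml C x n₀ ∧ n₀.im < 0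
  · obtain ⟨n₀, hn₀, h0⟩ := hA
    have hall : ∀ n, Nml C x n → n.im ≤ 0 := by
      intro n hn
      by_contra hc
      push Not at hc
      exact e1_four hint hsym hre hp hq hF hone hx hn₀ hn h0 hc
    refine Or.inl (inward hconv hint hx _ fun n hn => ?_)
    rw [hV]
    exact e1_three hsym hre hp hq hy hα htH ht hx hn₀ h0 hall hn
  by_cases hB : ∃ n₀, Nml C x n₀ ∧ 0 < n₀.im
  · obtain ⟨n₀, hn₀, h0⟩ := hB
    have hall : ∀ n, Nml C (-x) n → n.im ≤ 0 := by
      intro n hn
      by_contra hc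
      push Not at hc
      have h1 := e1_neg hsym hn
      rw [neg_neg] at h1
      exact hA ⟨-n, h1, by rw [Complex.neg_im]; linarith⟩
    refine Or.inr (inward hconv hint hx _ fun n hn => ?_)
    rw [hW]
    have e := e1_three hsym hre hp hq hy hα htH ht (hsym x hx) (e1_neg hsym hn₀)
      (by rw [Complex.neg_im]; linarith) hall (e1_neg hsym hn)
    simp only [Complex.neg_re, Complex.neg_im] at e
    linarith
  · have him : ∀ n, Nml C x n → n.im = 0 := by
      intro n hn
      refine le_antisymm ?_ ?_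
      · by_contra hc
        push Not at hc
        exact hB ⟨n, hn, hc⟩
      · by_contra hc
        push Not at hc
        exact hA ⟨n, hn, hc⟩
    have hre1 : ∀ n, Nml C x n → (n.re = 1 ∧ H ≤ x.re) ∨ (n.re = -1 ∧ x.re ≤ -H) := by
      intro n hn
      have h4 := him n hn
      have := e1_sq hn.1
      rw [h4] at this
      have h3 : (n.re - 1) * (n.re + 1) = 0 := by linarith
      rcases mul_eq_zero.1 h3 with h6 | h6
      · left
        have h5 : n.re = 1 := by linarith
        refine ⟨h5, ?_⟩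
        have e := hn.2 _ hp
        rw [e1_inner, e1_inner] at e
        simp only [h4, h5] at e
        linarith
      · right
        have h5 : n.re = -1 := by linarith
        refine ⟨h5, ?_⟩
        have e := hn.2 _ (hsym _ hp)
        rw [e1_inner, e1_inner] at e
        simp only [Complex.neg_re, Complex.neg_im, h4, h5] at e
        linarith
    by_cases hc : H ≤ x.re
    · refine Or.inl (inward hconv hint hx _ fun n hn => ?_)
      rw [hV]
      rcases hre1 n hn with ⟨h5, -⟩ | ⟨-, h6⟩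
      · have h7 := hF x hx (le_antisymm (hre x hx) hc)
        rw [h5, him n hn, hα]
        linarith [h7.1]
      · linarith
    · refine Or.inr (inward hconv hint hx _ fun n hn => ?_)
      rw [hW]
      rcases hre1 n hn with ⟨-, h6⟩ | ⟨h5, h6⟩
      · exact absurd h6 hc
      · have h7 : (-x).re = H := by
          refine le_antisymm (hre _ (hsym x hx)) ?_
          rw [Complex.neg_re]
          linarith
        have h8 := hF (-x) (hsym x hx) h7
        rw [Complex.neg_im] at h8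
        rw [h5, him n hn, hα]
        linarith [h8.1]

end Newton54P
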