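import Pool.Agent.Lib.MP_54d165_co.PS.Basic

/-! Row I1 (about 140 lines): the largest gap. -/

set_option autoImplicit false

namespace Newton54P

open Complex Set Newton54S

private theorem i1_bot {C : Set ℂ} (hcomp : IsCompact C) {φ : ℝ} (h0 : 0 < φ) (h1 : φ < Real.pi / 2)
    (hmax : ∀ η : ℝ, ∃ a ∈ C, ‖a‖ = 1 ∧ Real.cos φ ≤ dt η a)
    (hgap : ∀ a ∈ C, ‖a‖ = 1 → a.re ≤ Real.cos φ) : uv (-φ) ∈ C := by
  rw [← hcomp.isClosed.closure_eq, Metric.mem_closure_iff]
  intro ε hε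
  obtain ⟨δ', hδ', hcont⟩ := Metric.continuousAt_iff.1 (continuous_uv.continuousAt (x := -φ)) ε hε
  have hcos : 0 < Real.cos φ := Real.cos_pos_of_mem_Ioo ⟨by linarith [Real.pi_pos], h1⟩
  set δ : ℝ := min (δ' / 2) (min (φ / 2) ((Real.pi / 2 - φ) / 2)) with hδ
  have hδ0 : 0 < δ := by
    refine lt_min (by linarith) (lt_min (by linarith) (by linarith))
  have hδ1 : δ ≤ δ' / 2 := min_le_left _ _
  have hδ2 : δ ≤ φ / 2 := (min_le_right _ _).trans (min_le_left _ _)
  have hδ3 : δ ≤ (Real.pi / 2 - φ) / 2 := (min_le_right _ _).trans (min_le_right _ _)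
  obtain ⟨a, haC, ha1, ha⟩ := hmax (-δ)
  obtain ⟨α, hα1, hα2, rfl⟩ := exists_uv ha1
  have hg := hgap _ haC ha1
  rw [uv_re] at hg
  rw [dt_uv, sub_neg_eq_add] at ha
  have hle : α + δ ≤ Real.pi := by
    by_contra hc
    push Not at hc
    have := Real.cos_neg_of_pi_div_two_lt_of_lt (x := α + δ) (by linarith [Real.pi_pos]) (by linarith [Real.pi_pos])
    linarith
  have habs : |α + δ| ≤ φ := by
    by_contra hc
    push Not at hc
    have h2 : |α + δ| ≤ Real.pi := by
      rw [abs_le]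
      exact ⟨by linarith, hle⟩
    have h3 := Real.cos_lt_cos_of_nonneg_of_le_pi h0.le h2 hc
    rw [Real.cos_abs] at h3
    linarith
  rw [abs_le] at habs
  have hα3 : α ≤ -φ := by
    by_contra hc
    push Not at hc
    have h2 : |α| < φ := by
      rw [abs_lt]
      exact ⟨hc, by linarith [habs.2]⟩
    have h3 := Real.cos_lt_cos_of_nonneg_of_le_pi (abs_nonneg α) (by linarith [Real.pi_pos]) h2
    rw [Real.cos_abs] at h3
    linarith
  refine ⟨uv α, haC, ?_⟩
  rw [dist_comm]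
  apply hcont
  rw [Real.dist_eq, abs_lt]
  constructor
  · linarith [habs.1]
  · linarith

/-- ROW I1, part 1: both ends of a largest gap belong to the body.
Let `ε > 0` be small (`ε < π/2 - φ`, `ε < φ`).  hmax at `η = -ε` gives a unit vector `a = uv α ∈ C`, `-π < α ≤ π`, with
`cos φ ≤ cos (α + ε)`; hgap: `cos α ≤ cos φ`, so `φ ≤ |α|`.  From `cos φ ≤ cos (α + ε)` (and
`-π < α + ε < 3π/2`... ) we get `|α + ε| ≤ φ` (if `α + ε ≤ π`: `cos` antitone on `[0, π]`; if `α + ε > π` then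
`cos (α + ε) < 0`, for `ε < π/2`).  So `α ≤ φ - ε < φ`, hence `α ≤ -φ`, and `-φ - ε ≤ α`.  Letting `ε → 0`:
`uv (-φ) ∈ closure C = C` (e.g. `‖uv α - uv (-φ)‖ ≤ |α + φ| ≤ ε`, or a sequence and `IsClosed.mem_of_tendsto`).
`uv φ ∈ C` by the same argument with `η = ε` (or by applying the first part to `cj C`). -/
theorem gap_end {C : Set ℂ} (hcomp : IsCompact C) {φ : ℝ} (h0 : 0 < φ) (h1 : φ < Real.pi / 2)
    (hmax : ∀ η : ℝ, ∃ a ∈ C, ‖a‖ = 1 ∧ Real.cos φ ≤ dt η a)
    (hgap : ∀ a ∈ C, ‖a‖ = 1 → a.re ≤ Real.cos φ) : uv φ ∈ C ∧ uv (-φ) ∈ C := by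
  refine ⟨?_, i1_bot hcomp h0 h1 hmax hgap⟩
  have h2 : uv (-φ) ∈ cj C := by
    refine i1_bot (cj_compact hcomp) h0 h1 ?_ ?_
    · intro η
      obtain ⟨a, haC, ha1, ha⟩ := hmax (-η)
      refine ⟨(starRingEnd ℂ) a, ?_, ?_, ?_⟩
      · rw [mem_cj, Complex.conj_conj]
        exact haC
      · rw [Complex.norm_conj, ha1]
      · rw [dt_conj]
        exact ha
    · intro a ha ha1
      have h3 := hgap _ (mem_cj.1 ha) (by rw [Complex.norm_conj, ha1])
      rwa [Complex.conj_re] at h3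
  rw [uv_mem_cj, neg_neg] at h2
  exact h2

/-- ROW I1, part 2.  Let `A = {a ∈ C | ‖a‖ = 1}`, compact, nonempty (`C` nonempty, hull).
For `η : ℝ` let `s η = sSup (dt η '' A)` (continuous: `IsCompact.continuous_sSup`, or use the compact set
`[0, 2π]` and lower semicontinuity), attained at some `a ∈ A`; let `ϑ` minimise `s` on `[0, 2π]`, hence on `ℝ` by
periodicity (`dt_add_int`), `c = s ϑ`.
`0 < c`: `C ⊆ convexHull A ⊆ {x | dt ϑ x ≤ c}`, and by symmetry `|dt ϑ x| ≤ c` on `C`; if `c ≤ 0` then `dt ϑ x = 0` on `C`,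
which has interior points (`lt_of_mem_int`), contradiction.  `c < 1`: `c ≤ 1` (`dt_le_norm`); if `c = 1` then for every `η` some
`a ∈ A` has `dt η a = 1`, i.e. `a = uv η` (`a = uv α`, `cos (α - η) = 1`), so `C` contains the unit circle, hence the closed
unit disc (`convexHull` of the sphere, or: `r uv η` is between `uv η` and `-uv η`), and `‖x‖ ≤ 1` on `C` by hull; so
`C = closedBall 0 1`, contradiction.  Let `φ = arccos c`.  For `D = rt (-ϑ) C` (`x ∈ D ↔ uv ϑ * x ∈ C`):
hmax for `C` holds (`c ≤ s η`), and for `D` (`dt η a`, `a ∈ D`, is `dt (η + ϑ) (uv ϑ * a)`); gap for `D`: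
`a.re = dt 0 a = dt ϑ (uv ϑ * a) ≤ c`.  `gap_end` gives top and bot; the rest of `Insc D φ` from `rt_convex`,
`rt_compact`, `rt_int`, `rt_sym`, `rt_hull`. -/
theorem exists_gap {C : Set ℂ} (hconv : Convex ℝ C) (hcomp : IsCompact C)
    (hint : (interior C).Nonempty) (hsym : ∀ x ∈ C, -x ∈ C)
    (hull : C ⊆ convexHull ℝ {a | a ∈ C ∧ ‖a‖ = 1}) (hne : C ≠ Metric.closedBall 0 1) :
    ∃ ϑ φ : ℝ, Insc (rt ϑ C) φ ∧ ∀ η : ℝ, ∃ a ∈ rt ϑ C, ‖a‖ = 1 ∧ Real.cos φ ≤ dt η a := by
  set A : Set ℂ := {a | a ∈ C ∧ ‖a‖ = 1} with hA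
  have hAeq : A = C ∩ Metric.sphere 0 1 := by
    ext a
    rw [hA, mem_inter_iff, mem_sphere_zero_iff_norm]
    rfl
  have hAc : IsCompact A := by
    rw [hAeq]
    exact hcomp.inter_right Metric.isClosed_sphere
  obtain ⟨z₀, hz₀⟩ := hint
  have hAn : A.Nonempty := by
    have h1 : (convexHull ℝ A).Nonempty := ⟨z₀, hull (interior_subset hz₀)⟩
    exact convexHull_nonempty_iff.1 h1
  set s : ℝ → ℝ := fun η => sSup ((fun a => dt η a) '' A) with hs
  have hsc : Continuous s := by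
    have h1 : Continuous (Function.uncurry fun (η : ℝ) (a : ℂ) => dt η a) := continuous_dt
    exact hAc.continuous_sSup h1
  have hca : ∀ η : ℝ, Continuous fun a : ℂ => dt η a := fun η => by
    unfold dt
    fun_prop
  have hbdd : ∀ η : ℝ, BddAbove ((fun a => dt η a) '' A) := fun η =>
    (hAc.image (hca η)).bddAbove
  have hle : ∀ η : ℝ, ∀ a ∈ A, dt η a ≤ s η := fun η a ha =>
    le_csSup (hbdd η) ⟨a, ha, rfl⟩
  have hatt : ∀ η : ℝ, ∃ a ∈ A, s η = dt η a := fun η =>
    hAc.exists_sSup_image_eq hAn (hca η).continuousOn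
  have hper : Function.Periodic s (2 * Real.pi) := by
    intro η
    simp only [hs, dt_add_two_pi]
  obtain ⟨ϑ, -, hϑ⟩ := isCompact_Icc.exists_isMinOn (nonempty_Icc.2 Real.two_pi_pos.le)
    (hsc.continuousOn (s := Icc 0 (2 * Real.pi)))
  have hmin : ∀ η : ℝ, s ϑ ≤ s η := by
    intro η
    obtain ⟨y, hy, hy2⟩ := hper.exists_mem_Ico₀ Real.two_pi_pos η
    rw [hy2]
    exact hϑ (Ico_subset_Icc_self hy)
  set c : ℝ := s ϑ with hc
  have hconvA : ∀ x ∈ C, dt ϑ x ≤ c := by
    have h1 : Convex ℝ {x : ℂ | dt ϑ x ≤ c} := by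
      intro x hx y hy a b ha hb hab
      simp only [mem_ofPred_eq] at hx hy ⊢
      rw [dt_add, dt_smul, dt_smul]
      have e1 : c = a * c + b * c := by rw [← add_mul, hab, one_mul]
      nlinarith [mul_le_mul_of_nonneg_left hx ha, mul_le_mul_of_nonneg_left hy hb]
    have h2 : convexHull ℝ A ⊆ {x : ℂ | dt ϑ x ≤ c} := convexHull_min (fun a ha => hle ϑ a ha) h1
    intro x hx
    exact h2 (hull hx)
  have hc0 : 0 < c := by
    by_contra h
    push Not at h
    obtain ⟨y, hy, hlt⟩ := lt_of_mem_int hz₀ ϑ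
    have h1 := hconvA y hy
    have h2 := hconvA _ (hsym _ (interior_subset hz₀))
    rw [dt_neg] at h2
    linarith
  have hc1 : c < 1 := by
    by_contra h
    push Not at h
    have huv : ∀ η : ℝ, uv η ∈ C := by
      intro η
      obtain ⟨a, ha, hsa⟩ := hatt η
      have h1 : 1 ≤ dt η a := by
        rw [← hsa]
        exact h.trans (hmin η)
      have h2 : a.re ^ 2 + a.im ^ 2 = 1 := by
        have := Complex.sq_norm a
        rw [ha.2, Complex.normSq_apply] at this
        nlinarith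
      have h3 := Real.sin_sq_add_cos_sq η
      unfold dt at h1
      have h4 : (a.re - Real.cos η) ^ 2 + (a.im - Real.sin η) ^ 2 ≤ 0 := by nlinarith
      have h5 : a.re - Real.cos η = 0 := by
        apply pow_eq_zero_iff (n := 2) (by norm_num) |>.1
        nlinarith [sq_nonneg (a.re - Real.cos η), sq_nonneg (a.im - Real.sin η)]
      have h6 : a.im - Real.sin η = 0 := by
        apply pow_eq_zero_iff (n := 2) (by norm_num) |>.1
        nlinarith [sq_nonneg (a.re - Real.cos η), sq_nonneg (a.im - Real.sin η)]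
      have h7 : uv η = a := by
        apply Complex.ext
        · rw [uv_re]; linarith
        · rw [uv_im]; linarith
      rw [h7]
      exact ha.1
    apply hne
    apply Subset.antisymm
    · have h1 : convexHull ℝ A ⊆ Metric.closedBall (0 : ℂ) 1 := by
        refine convexHull_min ?_ (convex_closedBall 0 1)
        rintro a ⟨-, ha⟩
        rw [mem_closedBall_zero_iff, ha]
      exact hull.trans h1
    · intro x hx
      rw [mem_closedBall_zero_iff] at hx
      obtain ⟨α, -, -, hxa⟩ := exists_polar x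
      have h1 := hconv (huv α) (hsym _ (huv α)) (a := (1 + ‖x‖) / 2) (b := (1 - ‖x‖) / 2)
        (by linarith [norm_nonneg x]) (by linarith) (by ring)
      have h2 : ((1 + ‖x‖) / 2) • uv α + ((1 - ‖x‖) / 2) • -uv α = x := by
        conv_rhs => rw [hxa]
        apply Complex.ext
        · simp only [Complex.add_re, Complex.smul_re, Complex.neg_re, smul_eq_mul, Complex.re_ofReal_mul]
          ring
        · simp only [Complex.add_im, Complex.smul_im, Complex.neg_im, smul_eq_mul, Complex.im_ofReal_mul]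
          ring
      rw [h2] at h1
      exact h1
  set φ : ℝ := Real.arccos c with hφ
  have hcosφ : Real.cos φ = c := Real.cos_arccos (by linarith) hc1.le
  have hφ0 : 0 < φ := Real.arccos_pos.2 hc1
  have hφ1 : φ < Real.pi / 2 := Real.arccos_lt_pi_div_two.2 hc0
  have hmaxD : ∀ η : ℝ, ∃ a ∈ rt (-ϑ) C, ‖a‖ = 1 ∧ Real.cos φ ≤ dt η a := by
    intro η
    obtain ⟨a, ha, hsa⟩ := hatt (η + ϑ)
    refine ⟨uv (-ϑ) * a, ?_, ?_, ?_⟩
    · rw [mem_rt, neg_neg, ← mul_assoc, uv_mul_neg, one_mul]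
      exact ha.1
    · rw [norm_uv_mul, ha.2]
    · rw [dt_mul_uv, sub_neg_eq_add, ← hsa, hcosφ]
      exact hmin _
  have hgapD : ∀ a ∈ rt (-ϑ) C, ‖a‖ = 1 → a.re ≤ Real.cos φ := by
    intro a ha ha1
    rw [mem_rt, neg_neg] at ha
    have h1 := hle ϑ (uv ϑ * a) ⟨ha, by rw [norm_uv_mul, ha1]⟩
    rw [dt_mul_uv, sub_self, dt_zero_left] at h1
    rw [hcosφ]
    exact h1
  have hend := gap_end (rt_compact hcomp (-ϑ)) hφ0 hφ1 hmaxD hgapD
  refine ⟨-ϑ, φ, ?_, hmaxD⟩
  exact
    { conv := rt_convex hconv _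
      comp := rt_compact hcomp _
      int := rt_int ⟨z₀, hz₀⟩ _
      sym := rt_sym hsym _
      hull := rt_hull hull _
      pos := hφ0
      lt := hφ1
      top := hend.1
      bot := hend.2
      gap := hgapD }

end Newton54P
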