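import Pool.Agent.Lib.MP_54d165_co.PS.I1
import Pool.Agent.Lib.MP_54d165_co.PS.B1

/-! Row J1 (about 150 lines): all gaps equal implies regular polygon. -/

set_option autoImplicit false

namespace Newton54P

open Complex Set Newton54S

/-- the rotated bodies are again in the situation `Insc` -/
private theorem J1_insc {C : Set ℂ} {φ : ℝ} (h : Insc C φ)
    (hmax : ∀ η : ℝ, ∃ a ∈ C, ‖a‖ = 1 ∧ Real.cos φ ≤ dt η a)
    (hnext : ∀ ϑ : ℝ, Insc (rt ϑ C) φ → ∀ δ : ℝ, 0 < δ → δ < φ → uv (φ + 2 * δ) ∉ rt ϑ C) (n : ℕ) :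
    Insc (rt (-(2 * n * φ)) C) φ := by
  induction n with
  | zero =>
    have h0 : -(2 * ((0 : ℕ) : ℝ) * φ) = 0 := by simp
    rw [h0, rt_zero]
    exact h
  | succ n ih =>
    set θ : ℝ := -(2 * ((n + 1 : ℕ) : ℝ) * φ) with hθ
    have hcast : ((n + 1 : ℕ) : ℝ) = (n : ℝ) + 1 := by push_cast; ring
    have hgap : ∀ a ∈ rt θ C, ‖a‖ = 1 → a.re ≤ Real.cos φ := by
      intro a ha h1
      by_contra hc
      push Not at hc
      obtain ⟨α, hα1, hα2, rfl⟩ := exists_uv h1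
      rw [uv_re] at hc
      have habs : |α| < φ := by
        by_contra hc2
        push Not at hc2
        have h3 := Real.cos_le_cos_of_nonneg_of_le_pi h.pos.le (abs_le.2 ⟨hα1.le, hα2⟩) hc2
        rw [Real.cos_abs] at h3
        linarith
      rw [abs_lt] at habs
      refine hnext _ ih ((α + φ) / 2) (by linarith) (by linarith) ?_
      rw [uv_mem_rt] at ha ⊢
      have e : φ + 2 * ((α + φ) / 2) - -(2 * (n : ℝ) * φ) = α - θ := by
        rw [hθ, hcast]; ring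
      rw [e]
      exact ha
    have hmax' : ∀ η : ℝ, ∃ a ∈ rt θ C, ‖a‖ = 1 ∧ Real.cos φ ≤ dt η a := by
      intro η
      obtain ⟨b, hb, hb1, hb2⟩ := hmax (η - θ)
      refine ⟨uv θ * b, ?_, ?_, ?_⟩
      · rw [mem_rt, ← mul_assoc, uv_neg_mul, one_mul]
        exact hb
      · rw [norm_uv_mul, hb1]
      · rw [dt_mul_uv]
        exact hb2
    obtain ⟨htop, hbot⟩ := gap_end (rt_compact h.comp θ) h.pos h.lt hmax' hgap
    exact ⟨rt_convex h.conv θ, rt_compact h.comp θ, rt_int h.int θ, rt_sym h.sym θ, rt_hull h.hull θ,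
      h.pos, h.lt, htop, hbot, hgap⟩

/-- ROW J1.  Write `D n = rt (-(2 n φ)) C` (`n : ℕ`), so `uv α ∈ D n ↔ uv (α + 2 n φ) ∈ C` (`uv_mem_rt`).
(1) `Insc (D n) φ` for all `n`, by induction (`D 0 = C`, `rt_zero`).  Step: hnext for `D n` says
`uv (φ + 2δ) ∉ D n` for `0 < δ < φ`.  Gap of `D (n+1)`: a unit vector `a = uv α ∈ D (n+1)`, `-π < α ≤ π`, with
`cos φ < a.re = cos α` has `|α| < φ`, and `uv (α + 2φ) ∈ D n`, `α + 2φ = φ + 2δ` with `δ = (α + φ)/2 ∈ (0, φ)`, a contradiction.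
hmax for `D (n+1)` follows from hmax (`dt_mul_uv`, `norm_uv_mul`).  `gap_end` gives top and bot, the rest `rt_convex` etc.
(2) So `uv ((2n+1) φ) ∈ C`, and no `uv α ∈ C` has `(2n-1) φ < α < (2n+1) φ` (by gap for `D n`: `|α - 2nφ| < φ`).
(3) `uv (φ + π) = -uv φ ∈ C`.  Let `n = ⌈π/(2φ)⌉₊`, so `(2n - 1) φ < φ + π ≤ (2n+1) φ`; by (2) `φ + π = (2n+1) φ`, so
`φ = π/(2n)`; `n ≥ 2` because `φ ≤ π/4`.  Let `k = n`, so `2 φ = π/k`.
(4) `C = rt φ (poly k)`: `x ∈ rt φ (poly k) ↔ uv (-φ) * x ∈ poly k`.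
`⊆`: `C ⊆ convexHull A` (hull), and each unit vector `a = uv α` of `C`; choose the representative
`α ∈ [-φ, 2π - φ)`, let `i = ⌊(α + φ)/(2φ)⌋ ∈ {0, ..., 2k - 1}`, so `(2i - 1) φ ≤ α < (2i+1) φ` and by (2)
`α = (2i - 1) φ`; so `uv (-φ) * a = uv (2 (i - 1) φ) = uv ((i-1) π/k)` is a vertex (for `i = 0` take the vertex `2k - 1`).
`⊇`: the vertices `uv (j π/k)` satisfy `uv φ * uv (j π/k) = uv ((2j+1) φ) ∈ C`. -/
theorem regular {C : Set ℂ} {φ : ℝ} (h : Insc C φ)
    (hmax : ∀ η : ℝ, ∃ a ∈ C, ‖a‖ = 1 ∧ Real.cos φ ≤ dt η a) (hφ : φ ≤ Real.pi / 4)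
    (hnext : ∀ ϑ : ℝ, Insc (rt ϑ C) φ → ∀ δ : ℝ, 0 < δ → δ < φ → uv (φ + 2 * δ) ∉ rt ϑ C) :
    ∃ k : ℕ, 2 ≤ k ∧ C = rt φ (poly k) := by
  have hI := J1_insc h hmax hnext
  have hφ0 := h.pos
  have hpi := Real.pi_pos
  -- (2)
  have hin : ∀ n : ℕ, uv ((2 * n + 1) * φ) ∈ C := by
    intro n
    have h1 := (hI n).top
    rw [uv_mem_rt] at h1
    have e : φ - -(2 * (n : ℝ) * φ) = (2 * n + 1) * φ := by ring
    rwa [e] at h1
  have hout : ∀ (n : ℕ) (α : ℝ), uv α ∈ C → (2 * n - 1) * φ < α → ¬ α < (2 * n + 1) * φ := by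
    intro n α hα h1 h2
    have h3 : uv (α - 2 * n * φ) ∈ rt (-(2 * n * φ)) C := by
      rw [uv_mem_rt]
      have e : α - 2 * (n : ℝ) * φ - -(2 * (n : ℝ) * φ) = α := by ring
      rw [e]
      exact hα
    have h4 := (hI n).gap _ h3 (norm_uv _)
    rw [uv_re] at h4
    have h5 : |α - 2 * n * φ| < φ := by
      rw [abs_lt]
      constructor <;> linarith
    have h6 := Real.cos_lt_cos_of_nonneg_of_le_pi (abs_nonneg (α - 2 * n * φ))
      (by linarith [h.lt]) h5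
    rw [Real.cos_abs] at h6
    linarith
  -- (3)
  set n : ℕ := ⌈Real.pi / (2 * φ)⌉₊ with hn
  have h2φ : 0 < 2 * φ := by linarith
  have hn1 : Real.pi ≤ 2 * n * φ := by
    have h1 := Nat.le_ceil (Real.pi / (2 * φ))
    rw [div_le_iff₀ h2φ] at h1
    linarith
  have hn2 : (2 * (n : ℝ) - 2) * φ < Real.pi := by
    have h1 := Nat.ceil_lt_add_one (a := Real.pi / (2 * φ)) (by positivity)
    have h2 : (n : ℝ) - 1 < Real.pi / (2 * φ) := by linarith
    rw [lt_div_iff₀ h2φ] at h2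
    linarith
  have hpiφ : Real.pi = 2 * n * φ := by
    by_contra hne
    have hlt : Real.pi < 2 * n * φ := lt_of_le_of_ne hn1 hne
    have h1 : uv (φ + Real.pi) ∈ C := by
      rw [uv_add_pi]
      exact h.sym _ h.top
    exact hout n _ h1 (by linarith) (by linarith)
  have hn2' : 2 ≤ n := by
    by_contra hc
    push Not at hc
    have h1 : (n : ℝ) ≤ 1 := by exact_mod_cast (by omega : n ≤ 1)
    nlinarith
  have hn0 : (0 : ℝ) < n := by
    have : (2 : ℝ) ≤ n := by exact_mod_cast hn2'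
    linarith
  have hk : Real.pi / n = 2 * φ := by
    rw [div_eq_iff hn0.ne']
    linarith
  refine ⟨n, hn2', ?_⟩
  apply Set.Subset.antisymm
  · -- `⊆`
    have hA : {a | a ∈ C ∧ ‖a‖ = 1} ⊆ rt φ (poly n) := by
      rintro a ⟨ha, ha1⟩
      obtain ⟨α₀, hα1, hα2, rfl⟩ := exists_uv ha1
      obtain ⟨α, hα3, hα4, hα5⟩ : ∃ α : ℝ, -φ ≤ α ∧ α < 2 * Real.pi - φ ∧ uv α = uv α₀ := by
        by_cases hc : -φ ≤ α₀
        · exact ⟨α₀, hc, by linarith [h.lt], rfl⟩
        · push Not at hc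
          exact ⟨α₀ + 2 * Real.pi, by linarith, by linarith, uv_add_two_pi α₀⟩
      rw [← hα5] at ha ⊢
      set i : ℕ := ⌊(α + φ) / (2 * φ)⌋₊ with hi
      have hnn : 0 ≤ (α + φ) / (2 * φ) := div_nonneg (by linarith) h2φ.le
      have hi1 : (2 * (i : ℝ) - 1) * φ ≤ α := by
        have h1 := Nat.floor_le hnn
        rw [le_div_iff₀ h2φ] at h1
        linarith
      have hi2 : α < (2 * (i : ℝ) + 1) * φ := by
        have h1 := Nat.lt_floor_add_one ((α + φ) / (2 * φ))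
        rw [div_lt_iff₀ h2φ] at h1
        linarith
      have hαi : α = (2 * (i : ℝ) - 1) * φ := by
        by_contra hne
        exact hout i α ha (lt_of_le_of_ne hi1 (Ne.symm hne)) hi2
      have hi3 : i < 2 * n := by
        have h1 : (2 * (i : ℝ)) * φ < (2 * (2 * n : ℝ)) * φ := by
          rw [hαi] at hα4
          rw [hpiφ] at hα4
          linarith
        have h2 := lt_of_mul_lt_mul_right h1 hφ0.le
        have h3 : (i : ℝ) < ((2 * n : ℕ) : ℝ) := by push_cast; linarith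
        exact_mod_cast h3
      rw [mem_rt, ← uv_add]
      rcases Nat.eq_zero_or_pos i with h0 | h0
      · have e : uv (-φ + α) = uv (((2 * n - 1 : ℕ) : ℝ) * (Real.pi / n)) := by
          rw [← uv_add_two_pi (-φ + α)]
          congr 1
          have hc : ((2 * n - 1 : ℕ) : ℝ) = 2 * n - 1 := by
            rw [Nat.cast_sub (by omega)]; push_cast; ring
          rw [hc, hk, hαi, h0, hpiφ]
          push_cast
          ring
        rw [e]
        exact subset_convexHull ℝ _ ⟨⟨2 * n - 1, by omega⟩, rfl⟩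
      · have e : uv (-φ + α) = uv (((i - 1 : ℕ) : ℝ) * (Real.pi / n)) := by
          congr 1
          have hc : ((i - 1 : ℕ) : ℝ) = i - 1 := by
            rw [Nat.cast_sub (by omega)]; push_cast; ring
          rw [hc, hk, hαi]
          ring
        rw [e]
        exact subset_convexHull ℝ _ ⟨⟨i - 1, by omega⟩, rfl⟩
    intro x hx
    exact convexHull_min hA (rt_convex (convex_convexHull ℝ _) φ) (h.hull hx)
  · -- `⊇`
    have hV : (range fun j : Fin (2 * n) => uv ((j : ℕ) * (Real.pi / n))) ⊆ rt (-φ) C := by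
      rintro _ ⟨j, rfl⟩
      simp only
      rw [uv_mem_rt, hk]
      have e : ((j : ℕ) : ℝ) * (2 * φ) - -φ = (2 * ((j : ℕ) : ℝ) + 1) * φ := by ring
      rw [e]
      exact hin j
    intro x hx
    rw [mem_rt] at hx
    have h1 := convexHull_min hV (rt_convex h.conv (-φ)) hx
    rw [mem_rt, neg_neg, ← mul_assoc, uv_mul_neg, one_mul] at h1
    exact h1

end Newton54P
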