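import Pool.Agent.Lib.MP_54d165_co.PS.LDefs

/-! Row L1 (about 130 lines): the local motion moves the unit vectors of the upper half plane inside. -/

set_option autoImplicit false

namespace Newton54P

open Complex Set Newton54S

theorem L1_mot_re (φ e e₂ T ψ β : ℝ) : (mot φ e e₂ T ψ (uv β)).re = Real.cos (β - ψ) -
    (Real.cos φ + e₂) * (1 - Real.cos ψ) -
    (Real.sin φ - (Real.cos φ + e₂ + (1 - e) * Real.cos φ) * T) * Real.sin ψ := by
  simp only [mot, ctr, Complex.add_re, Complex.mul_re, Complex.sub_re, Complex.sub_im,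
    uv_re, uv_im, Real.cos_neg, Real.sin_neg, Real.cos_sub]
  ring

theorem L1_mot_im (φ e e₂ T ψ β : ℝ) : (mot φ e e₂ T ψ (uv β)).im = Real.sin (β - ψ) +
    (Real.sin φ - (Real.cos φ + e₂ + (1 - e) * Real.cos φ) * T) * (1 - Real.cos ψ) -
    (Real.cos φ + e₂) * Real.sin ψ := by
  simp only [mot, ctr, Complex.add_im, Complex.mul_im, Complex.sub_re, Complex.sub_im,
    uv_re, uv_im, Real.cos_neg, Real.sin_neg, Real.sin_sub]
  ring

theorem L1_zero (φ e e₂ T ψ β η : ℝ) : dt η (uv β - mot φ e e₂ T ψ (uv β)) =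
    2 * Real.sin (ψ / 2) * ((Real.cos φ + e₂) * Real.sin (η + ψ / 2) +
      (Real.sin φ - (Real.cos φ + e₂ + (1 - e) * Real.cos φ) * T) * Real.cos (η + ψ / 2) -
      Real.sin (β - (η + ψ / 2))) := by
  have h1 : uv β - mot φ e e₂ T ψ (uv β) = (uv β - ctr φ e e₂ T) - uv (-ψ) * (uv β - ctr φ e e₂ T) := by
    rw [mot]; ring
  rw [h1, dt_sub, dt_mul_uv, dt_sub, dt_sub, dt_uv, dt_uv]
  have e1 : Real.cos (β - η) - Real.cos (β - (η - -ψ)) =
      -(2 * Real.sin (β - (η + ψ / 2)) * Real.sin (ψ / 2)) := by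
    have a1 : β - η = (β - (η + ψ / 2)) + ψ / 2 := by ring
    have a2 : β - (η - -ψ) = (β - (η + ψ / 2)) - ψ / 2 := by ring
    rw [a1, a2, Real.cos_add (β - (η + ψ / 2)), Real.cos_sub (β - (η + ψ / 2))]; ring
  have e2 : Real.cos η - Real.cos (η - -ψ) = 2 * Real.sin (η + ψ / 2) * Real.sin (ψ / 2) := by
    have a1 : η = (η + ψ / 2) - ψ / 2 := by ring
    have a2 : η - -ψ = (η + ψ / 2) + ψ / 2 := by ring
    rw [a2]
    conv_lhs => rw [a1]
    rw [Real.cos_sub, show (η + ψ / 2) - ψ / 2 + ψ / 2 = η + ψ / 2 by ring, Real.cos_add (η + ψ / 2)]; ring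
  have e3 : Real.sin (η - -ψ) - Real.sin η = 2 * Real.cos (η + ψ / 2) * Real.sin (ψ / 2) := by
    have a1 : η = (η + ψ / 2) - ψ / 2 := by ring
    have a2 : η - -ψ = (η + ψ / 2) + ψ / 2 := by ring
    rw [a2]
    conv_lhs => rw [a1]
    rw [Real.sin_sub, show (η + ψ / 2) - ψ / 2 + ψ / 2 = η + ψ / 2 by ring, Real.sin_add (η + ψ / 2)]; ring
  have e4 : dt η (ctr φ e e₂ T) = -(Real.cos φ + e₂) * Real.cos η +
      (Real.sin φ - (Real.cos φ + e₂ + (1 - e) * Real.cos φ) * T) * Real.sin η := by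
    simp only [dt, ctr]
  have e5 : dt (η - -ψ) (ctr φ e e₂ T) = -(Real.cos φ + e₂) * Real.cos (η - -ψ) +
      (Real.sin φ - (Real.cos φ + e₂ + (1 - e) * Real.cos φ) * T) * Real.sin (η - -ψ) := by
    simp only [dt, ctr]
  rw [e4, e5]
  linear_combination e1 + (Real.cos φ + e₂) * e2 +
    (Real.sin φ - (Real.cos φ + e₂ + (1 - e) * Real.cos φ) * T) * e3

theorem L1_reduce (η : ℝ) : ∃ (η₀ : ℝ) (n : ℤ), -(Real.pi / 2) ≤ η₀ ∧ η₀ ≤ 3 * Real.pi / 2 ∧
    η = η₀ + n * (2 * Real.pi) := by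
  have hp := Real.pi_pos
  refine ⟨η - ⌊(η + Real.pi / 2) / (2 * Real.pi)⌋ * (2 * Real.pi),
    ⌊(η + Real.pi / 2) / (2 * Real.pi)⌋, ?_, ?_, by ring⟩
  · have h1 := Int.floor_le ((η + Real.pi / 2) / (2 * Real.pi))
    rw [le_div_iff₀ (by positivity)] at h1
    linarith
  · have h1 := Int.lt_floor_add_one ((η + Real.pi / 2) / (2 * Real.pi))
    rw [div_lt_iff₀ (by positivity)] at h1
    linarith

/-- ROW L1.  Notation `K = cos φ`, `S = sin φ`, `κ = K + e₂`, `ζ = (κ + (1 - e) K) T > 0`, `H = S - ζ`,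
`w = mot φ e e₂ T ψ (uv β)`, so `ctr = ⟨-κ, H⟩`.
(0) For every `η`: `dt η (uv β - w) = 2 sin (ψ/2) (κ sin τ + H cos τ - sin (β - τ))`, `τ = η + ψ/2`
(expand: `dt η (uv (-ψ) * z) = dt (η + ψ) z` by `dt_mul_uv`; or prove the identity with
`ψ = 2 (ψ/2)`, `τ = η + ψ/2` by `Real.sin_add`, ... and `ring`/`linear_combination`).
(1) `w.re < K`: `w.re = cos (β - ψ) - κ (1 - cos ψ) - H sin ψ ≤ cos (φ - ψ) - κ (1 - cos ψ) - H sin ψ
= K - e K (1 - cos ψ)` (by hT: `ζ sin ψ = (κ + (1 - e) K) (1 - cos ψ)`) `< K`; `cos` is antitone on `[0,π]`,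
`0 < φ - ψ ≤ β - ψ`.
(2) `-K < w.re`: `cos (β - ψ) ≥ cos (π - φ - ψ) = -K cos ψ + S sin ψ`, so
`w.re ≥ -K + (2 - e) K (1 - cos ψ) > -K`.
(3) `-S < w.im`: `w.im = sin (β - ψ) + H (1 - cos ψ) - κ sin ψ ≥ -κ sin ψ > -S` (hψS; `H ≥ 0` by hζ).
(4) `dt ((β + φ)/2) (uv β - w) > 0`: with `τ = (β + φ + ψ)/2`:
`S cos τ + K sin τ = sin (φ + τ)`, and `sin (φ + τ) - sin (β - τ) = 2 cos ((β + φ)/2) sin (φ + ψ/2)`;
so the bracket in (0) is `2 cos ((β+φ)/2) sin (φ + ψ/2) + e₂ sin τ - ζ cos τ`.  Here `(β+φ)/2 ∈ [φ, π/2]`,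
`cos τ ≤ cos ((β+φ)/2)`, `0 ≤ cos ((β+φ)/2)`, `sin (φ + ψ/2) ≥ S ≥ ζ` (hψφ2, hζ), and `sin τ > 0`.
(5) `dt ((β + π - φ)/2) (uv β - w) > 0`: `τ = (β + π - φ + ψ)/2`; with `u = (π - φ - β)/2 ≥ 0`:
`sin (β - τ) = -sin (u + ψ/2)`, `sin (φ + τ) = sin (u - ψ/2)`, the bracket is
`2 sin u cos (ψ/2) + e₂ sin τ - ζ cos τ > 0` as `cos τ ≤ 0`, `sin τ > 0` (`π/2 ≤ τ < π`, hψφ).
(6) `w ∈ interior C` by `h.mem_int`: given `η`, reduce it modulo `2π` to `[-π/2, 3π/2)` (`dt_add_int`; e.g.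
`toIcoMod`, `toIcoDiv` or `Int.floor`), then use `dt_pos_of_between` on
`[-π/2, 0]` with `uv (-φ)` (`dt (-π/2) (uv (-φ) - w) = S + w.im > 0` by (3), `dt 0 = K - w.re > 0` by (1)),
`[0, (β+φ)/2]` with `uv φ` (`dt 0 (uv φ - w) = K - w.re > 0`; `dt ((β+φ)/2) (uv φ) = cos ((β-φ)/2) =
dt ((β+φ)/2) (uv β)`, (4)), `[(β+φ)/2, (β+π-φ)/2]` with `uv β` ((4), (5)),
`[(β+π-φ)/2, π]` with `uv (π - φ) = -uv (-φ)` ((5), (2)), `[π, 3π/2]` with `-uv φ`
(`dt π (-uv φ - w) = K + w.re > 0`, `dt (3π/2) (-uv φ - w) = S + w.im > 0`). -/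
theorem Insc.loc_arc {C : Set ℂ} {φ : ℝ} (h : Insc C φ) {e e₂ T ψ : ℝ} (he : 0 < e) (he1 : e < 1)
    (he₂ : 0 < e₂) (hT0 : 0 < T) (hψ : 0 < ψ) (hψφ : ψ < φ) (hψφ2 : φ + ψ < Real.pi / 2)
    (hT : T * Real.sin ψ = 1 - Real.cos ψ)
    (hζ : (Real.cos φ + e₂ + (1 - e) * Real.cos φ) * T < Real.sin φ)
    (hψS : (Real.cos φ + e₂) * Real.sin ψ < Real.sin φ) {β : ℝ} (hβ1 : φ ≤ β)
    (hβ2 : β ≤ Real.pi - φ) (hβ : uv β ∈ C) : mot φ e e₂ T ψ (uv β) ∈ interior C := by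
  have hp := Real.pi_pos
  have hK := h.cos_pos
  have hS := h.sin_pos
  have hlt := h.lt
  have hpos := h.pos
  set K := Real.cos φ with hKd
  set S := Real.sin φ with hSd
  set w := mot φ e e₂ T ψ (uv β) with hw
  have hwre : w.re = Real.cos (β - ψ) - (K + e₂) * (1 - Real.cos ψ) -
    (S - (K + e₂ + (1 - e) * K) * T) * Real.sin ψ := L1_mot_re φ e e₂ T ψ β
  have hwim : w.im = Real.sin (β - ψ) + (S - (K + e₂ + (1 - e) * K) * T) * (1 - Real.cos ψ) -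
    (K + e₂) * Real.sin ψ := L1_mot_im φ e e₂ T ψ β
  have hzero : ∀ η, dt η (uv β - w) = 2 * Real.sin (ψ / 2) * ((K + e₂) * Real.sin (η + ψ / 2) +
      (S - (K + e₂ + (1 - e) * K) * T) * Real.cos (η + ψ / 2) - Real.sin (β - (η + ψ / 2))) :=
    fun η => L1_zero φ e e₂ T ψ β η
  clear_value w
  have hψ2 : ψ < Real.pi / 2 := by linarith
  have hsψ : 0 < Real.sin ψ := Real.sin_pos_of_pos_of_lt_pi hψ (by linarith)
  have hcψ : Real.cos ψ < 1 := by
    have := Real.cos_lt_cos_of_nonneg_of_le_pi (le_refl (0 : ℝ)) (by linarith : ψ ≤ Real.pi) hψ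
    rwa [Real.cos_zero] at this
  have hsψ2 : 0 < Real.sin (ψ / 2) := Real.sin_pos_of_pos_of_lt_pi (by linarith) (by linarith)
  have hcψ2 : 0 < Real.cos (ψ / 2) := Real.cos_pos_of_mem_Ioo ⟨by linarith, by linarith⟩
  obtain ⟨ζ, hζd⟩ : ∃ ζ, ζ = (K + e₂ + (1 - e) * K) * T := ⟨_, rfl⟩
  have hζψ : ζ * Real.sin ψ = (K + e₂ + (1 - e) * K) * (1 - Real.cos ψ) := by
    rw [hζd, mul_assoc, hT]
  have he1' : 0 < 1 - e := by linarith
  have hζ0 : 0 < ζ := by rw [hζd]; positivity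
  rw [← hζd] at hζ hwre hwim
  simp only [← hζd] at hzero
  -- (1)
  have h1 : w.re < K := by
    have c1 : Real.cos (β - ψ) ≤ Real.cos (φ - ψ) :=
      Real.cos_le_cos_of_nonneg_of_le_pi (by linarith) (by linarith) (by linarith)
    have c2 : Real.cos (φ - ψ) = K * Real.cos ψ + S * Real.sin ψ := Real.cos_sub φ ψ
    have c3 : 0 < e * K * (1 - Real.cos ψ) := by
      have : 0 < 1 - Real.cos ψ := by linarith
      positivity
    rw [hwre]
    nlinarith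
  -- (2)
  have h2 : -K < w.re := by
    have c1 : Real.cos (Real.pi - (φ + ψ)) ≤ Real.cos (β - ψ) :=
      Real.cos_le_cos_of_nonneg_of_le_pi (by linarith) (by linarith) (by linarith)
    have c2 : Real.cos (Real.pi - (φ + ψ)) = -K * Real.cos ψ + S * Real.sin ψ := by
      rw [Real.cos_pi_sub, Real.cos_add]; ring
    have c3 : 0 < (2 - e) * K * (1 - Real.cos ψ) := by
      have : 0 < 1 - Real.cos ψ := by linarith
      have : 0 < 2 - e := by linarith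
      positivity
    rw [hwre]
    nlinarith
  -- (3)
  have h3 : -S < w.im := by
    have c1 : 0 ≤ Real.sin (β - ψ) := Real.sin_nonneg_of_nonneg_of_le_pi (by linarith) (by linarith)
    have c2 : 0 ≤ (S - ζ) * (1 - Real.cos ψ) := mul_nonneg (by linarith) (by linarith)
    rw [hwim]
    linarith
  -- (4)
  have h4 : 0 < dt ((β + φ) / 2) (uv β - w) := by
    rw [hzero]
    refine mul_pos (by positivity) ?_
    have c1 : Real.sin (φ + ((β + φ) / 2 + ψ / 2)) - Real.sin (β - ((β + φ) / 2 + ψ / 2)) =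
        2 * Real.cos ((β + φ) / 2) * Real.sin (φ + ψ / 2) := by
      have a1 : φ + ((β + φ) / 2 + ψ / 2) = (β + φ) / 2 + (φ + ψ / 2) := by ring
      have a2 : β - ((β + φ) / 2 + ψ / 2) = (β + φ) / 2 - (φ + ψ / 2) := by ring
      rw [a1, a2, Real.sin_add, Real.sin_sub]; ring
    have c2 : Real.sin (φ + ((β + φ) / 2 + ψ / 2)) =
        S * Real.cos ((β + φ) / 2 + ψ / 2) + K * Real.sin ((β + φ) / 2 + ψ / 2) := Real.sin_add _ _
    have c3 : 0 < Real.sin ((β + φ) / 2 + ψ / 2) :=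
      Real.sin_pos_of_pos_of_lt_pi (by linarith) (by linarith)
    have c4 : Real.cos ((β + φ) / 2 + ψ / 2) ≤ Real.cos ((β + φ) / 2) :=
      Real.cos_le_cos_of_nonneg_of_le_pi (by linarith) (by linarith) (by linarith)
    have c5 : 0 ≤ Real.cos ((β + φ) / 2) := Real.cos_nonneg_of_mem_Icc ⟨by linarith, by linarith⟩
    have c6 : S ≤ Real.sin (φ + ψ / 2) :=
      Real.sin_le_sin_of_le_of_le_pi_div_two (by linarith) (by linarith) (by linarith)
    have c7 : ζ * Real.cos ((β + φ) / 2 + ψ / 2) ≤ S * Real.cos ((β + φ) / 2) := by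
      calc ζ * Real.cos ((β + φ) / 2 + ψ / 2) ≤ ζ * Real.cos ((β + φ) / 2) :=
            mul_le_mul_of_nonneg_left c4 hζ0.le
        _ ≤ S * Real.cos ((β + φ) / 2) := mul_le_mul_of_nonneg_right hζ.le c5
    have c8 : S * Real.cos ((β + φ) / 2) ≤ Real.cos ((β + φ) / 2) * Real.sin (φ + ψ / 2) := by
      rw [mul_comm]
      exact mul_le_mul_of_nonneg_left c6 c5
    have c9 : 0 ≤ S * Real.cos ((β + φ) / 2) := mul_nonneg hS.le c5
    have c10 : 0 < e₂ * Real.sin ((β + φ) / 2 + ψ / 2) := mul_pos he₂ c3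
    linarith
  -- (5)
  have h5 : 0 < dt ((β + Real.pi - φ) / 2) (uv β - w) := by
    rw [hzero]
    refine mul_pos (by positivity) ?_
    have c1 : Real.sin (φ + ((β + Real.pi - φ) / 2 + ψ / 2)) -
        Real.sin (β - ((β + Real.pi - φ) / 2 + ψ / 2)) =
        2 * Real.sin ((Real.pi - φ - β) / 2) * Real.cos (ψ / 2) := by
      have a1 : φ + ((β + Real.pi - φ) / 2 + ψ / 2) = Real.pi - ((Real.pi - φ - β) / 2 - ψ / 2) := by ring
      have a2 : β - ((β + Real.pi - φ) / 2 + ψ / 2) = -((Real.pi - φ - β) / 2 + ψ / 2) := by ring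
      rw [a1, a2, Real.sin_pi_sub, Real.sin_neg, Real.sin_sub, Real.sin_add]; ring
    have c2 : Real.sin (φ + ((β + Real.pi - φ) / 2 + ψ / 2)) =
        S * Real.cos ((β + Real.pi - φ) / 2 + ψ / 2) + K * Real.sin ((β + Real.pi - φ) / 2 + ψ / 2) :=
      Real.sin_add _ _
    have c3 : 0 < Real.sin ((β + Real.pi - φ) / 2 + ψ / 2) :=
      Real.sin_pos_of_pos_of_lt_pi (by linarith) (by linarith)
    have c4 : Real.cos ((β + Real.pi - φ) / 2 + ψ / 2) ≤ 0 :=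
      Real.cos_nonpos_of_pi_div_two_le_of_le (by linarith) (by linarith)
    have c5 : 0 ≤ Real.sin ((Real.pi - φ - β) / 2) :=
      Real.sin_nonneg_of_nonneg_of_le_pi (by linarith) (by linarith)
    have c6 : 0 ≤ Real.sin ((Real.pi - φ - β) / 2) * Real.cos (ψ / 2) := mul_nonneg c5 hcψ2.le
    have c7 : 0 ≤ ζ * (-Real.cos ((β + Real.pi - φ) / 2 + ψ / 2)) := mul_nonneg hζ0.le (by linarith)
    have c10 : 0 < e₂ * Real.sin ((β + Real.pi - φ) / 2 + ψ / 2) := mul_pos he₂ c3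
    linarith
  -- (6)
  refine h.mem_int fun η => ?_
  obtain ⟨η₀, n, hn1, hn2, rfl⟩ := L1_reduce η
  simp only [dt_add_int]
  have key : ∀ y ∈ C, 0 < dt η₀ (y - w) → ∃ y ∈ C, dt η₀ w < dt η₀ y := by
    intro y hy h0
    rw [dt_sub] at h0
    exact ⟨y, hy, by linarith⟩
  have d1 : ∀ x : ℂ, dt (-(Real.pi / 2)) x = -x.im := by
    intro x; simp [dt]
  have d2 : ∀ x : ℂ, dt (3 * Real.pi / 2) x = -x.im := by
    intro x
    rw [show 3 * Real.pi / 2 = Real.pi / 2 + Real.pi by ring, dt_add_pi, dt_pi_div_two]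
  rcases le_total η₀ 0 with ha | ha
  · refine key (uv (-φ)) h.bot (dt_pos_of_between ?_ ?_ hn1 ha (by linarith))
    · rw [d1, Complex.sub_im, uv_im, Real.sin_neg]
      linarith
    · rw [dt_zero_left, Complex.sub_re, uv_re, Real.cos_neg]
      linarith
  rcases le_total η₀ ((β + φ) / 2) with hb | hb
  · refine key (uv φ) h.top (dt_pos_of_between ?_ ?_ ha hb (by linarith))
    · rw [dt_zero_left, Complex.sub_re, uv_re]
      linarith
    · have c1 : dt ((β + φ) / 2) (uv φ) = dt ((β + φ) / 2) (uv β) := by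
        rw [dt_uv, dt_uv, ← Real.cos_neg (φ - (β + φ) / 2)]
        congr 1; ring
      rw [dt_sub, c1, ← dt_sub]
      exact h4
  rcases le_total η₀ ((β + Real.pi - φ) / 2) with hc | hc
  · exact key (uv β) hβ (dt_pos_of_between h4 h5 hb hc (by linarith))
  rcases le_total η₀ Real.pi with hd | hd
  · refine key (-uv (-φ)) (h.sym _ h.bot) (dt_pos_of_between ?_ ?_ hc hd (by linarith))
    · have c1 : dt ((β + Real.pi - φ) / 2) (-uv (-φ)) = dt ((β + Real.pi - φ) / 2) (uv β) := by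
        rw [← uv_pi_sub, dt_uv, dt_uv, ← Real.cos_neg (Real.pi - φ - (β + Real.pi - φ) / 2)]
        congr 1; ring
      rw [dt_sub, c1, ← dt_sub]
      exact h5
    · rw [dt_pi, Complex.sub_re, Complex.neg_re, uv_re, Real.cos_neg]
      linarith
  · refine key (-uv φ) (h.sym _ h.top) (dt_pos_of_between ?_ ?_ hd hn2 (by linarith))
    · rw [dt_pi, Complex.sub_re, Complex.neg_re, uv_re]
      linarith
    · rw [d2, Complex.sub_im, Complex.neg_im, uv_im]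
      linarith

end Newton54P
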