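import Pool.Agent.Lib.MP_54d165_co.PS.LDefs

/-! Row L2: the two cut points. -/

set_option autoImplicit false

namespace Newton54P

open Complex Set Newton54S Filter
open scoped Topology

/-- ROW L2, part 1. -/
theorem Insc.loc_neg {C : Set ℂ} {φ : ℝ} (h : Insc C φ) {e e₂ T ψ : ℝ} (he : 0 < e) (he1 : e < 1)
    (he₂ : 0 < e₂) (hT0 : 0 < T) (hψ : 0 < ψ) (hψ2 : ψ < Real.pi / 2)
    (hT : T * Real.sin ψ = 1 - Real.cos ψ)
    (hζ : (Real.cos φ + e₂ + (1 - e) * Real.cos φ) * T < Real.sin φ)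
    (hψS : (Real.cos φ + e₂) * Real.sin ψ < Real.sin φ) :
    mot φ e e₂ T ψ (-⟨Real.cos φ, yy φ e T⟩) ∈ interior C := by
  have hK := h.cos_pos
  have hc : 0 < Real.cos ψ := Real.cos_pos_of_mem_Ioo ⟨by linarith [Real.pi_pos], hψ2⟩
  have hs : 0 < Real.sin ψ := Real.sin_pos_of_pos_of_lt_pi hψ (by linarith [Real.pi_pos])
  have hc1 : Real.cos ψ < 1 := by
    nlinarith [Real.sin_sq_add_cos_sq ψ]
  have hre : (mot φ e e₂ T ψ (-⟨Real.cos φ, yy φ e T⟩)).re =
      -Real.cos φ + e * Real.cos φ * (1 - Real.cos ψ) := by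
    simp only [mot, ctr, yy, Complex.add_re, Complex.mul_re, Complex.sub_re, Complex.sub_im,
      Complex.neg_re, Complex.neg_im, uv_re, uv_im, Real.cos_neg, Real.sin_neg]
    linear_combination (e₂ + e * Real.cos φ) * hT
  have him : (mot φ e e₂ T ψ (-⟨Real.cos φ, yy φ e T⟩)).im =
      Real.sin φ - (Real.cos φ + e₂ + (1 - e) * Real.cos φ) * T +
        (e₂ + e * Real.cos φ) * T * Real.cos ψ - e₂ * Real.sin ψ := by
    simp only [mot, ctr, yy, Complex.add_im, Complex.mul_im, Complex.sub_re, Complex.sub_im,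
      Complex.neg_re, Complex.neg_im, uv_re, uv_im, Real.cos_neg, Real.sin_neg]
    ring
  have h1 : 0 < e * Real.cos φ := mul_pos he hK
  have h2 : 0 < e * Real.cos φ * (1 - Real.cos ψ) := mul_pos h1 (by linarith)
  have h3 : e * Real.cos φ < Real.cos φ := by nlinarith
  have h4 : e * Real.cos φ * (1 - Real.cos ψ) < Real.cos φ := by nlinarith
  have h5 : 0 < (e₂ + e * Real.cos φ) * T := mul_pos (by linarith) hT0
  have h6 : (e₂ + e * Real.cos φ) * T * Real.cos ψ < (e₂ + e * Real.cos φ) * T := by nlinarith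
  have h7 : 0 < (e₂ + e * Real.cos φ) * T * Real.cos ψ := mul_pos h5 hc
  have h8 : 0 < e₂ * Real.sin ψ := mul_pos he₂ hs
  have h9 : 0 < Real.cos φ * Real.sin ψ := mul_pos hK hs
  have h10 : (e₂ + e * Real.cos φ) * T < (Real.cos φ + e₂ + (1 - e) * Real.cos φ) * T := by
    refine mul_lt_mul_of_pos_right ?_ hT0
    nlinarith
  refine h.rect ?_ ?_
  · rw [hre, abs_lt]
    constructor <;> linarith
  · rw [him, abs_lt]
    constructor
    · linarith
    · linarith

/-- ROW L2, part 2: a point of a convex set with interior moves inside along directions converging to an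
admissible one. -/
theorem eventually_inward {C : Set ℂ} (hconv : Convex ℝ C) {q D₀ : ℂ} (hq : q ∈ C) {τ : ℝ}
    (hτ : 0 < τ) (hD : q + (τ : ℂ) * D₀ ∈ interior C) {s : ℝ → ℝ} {D : ℝ → ℂ}
    (hs0 : ∀ᶠ ψ in 𝓝[>] (0 : ℝ), 0 < s ψ) (hs : Tendsto s (𝓝[>] (0 : ℝ)) (𝓝 0))
    (hD0 : Tendsto D (𝓝[>] (0 : ℝ)) (𝓝 D₀)) :
    ∀ᶠ ψ in 𝓝[>] (0 : ℝ), q + (s ψ : ℂ) * D ψ ∈ interior C := by
  have h1 : Tendsto (fun ψ => q + (τ : ℂ) * D ψ) (𝓝[>] (0 : ℝ)) (𝓝 (q + (τ : ℂ) * D₀)) :=
    (hD0.const_mul _).const_add _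
  have h2 := h1.eventually (isOpen_interior.mem_nhds hD)
  have h3 : ∀ᶠ ψ in 𝓝[>] (0 : ℝ), s ψ < τ := hs.eventually (gt_mem_nhds hτ)
  filter_upwards [hs0, h2, h3] with ψ ha hb hc
  have h4 := hconv.combo_self_interior_mem_interior hq hb (a := 1 - s ψ / τ) (b := s ψ / τ)
    (by rw [sub_nonneg, div_le_one hτ]; exact hc.le) (div_pos ha hτ) (by ring)
  have h5 : (1 - s ψ / τ) • q + (s ψ / τ) • (q + (τ : ℂ) * D ψ) = q + (s ψ : ℂ) * D ψ := by
    have hτ' : (τ : ℂ) ≠ 0 := by exact_mod_cast hτ.ne'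
    rw [Complex.real_smul, Complex.real_smul]
    push_cast
    field_simp
    ring
  rw [h5] at h4
  exact h4

/-- ROW L2, part 3. -/
theorem Insc.corner {C : Set ℂ} {φ : ℝ} (h : Insc C φ) {δ K' : ℝ} (hδ : 0 < δ)
    (hδ' : φ + δ < Real.pi / 2) (hq : uv (-(φ + 2 * δ)) ∈ C) (hK : 0 < K')
    (hsm : K' * Real.sin (φ + δ) < 2 * Real.sin φ * Real.cos (φ + δ)) :
    ∃ τ : ℝ, 0 < τ ∧ uv (-φ) + (τ : ℂ) * ⟨-2 * Real.sin φ, -K'⟩ ∈ interior C := by
  have hφ := h.pos
  have hpi := Real.pi_pos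
  have hS := h.sin_pos
  have hsd : 0 < Real.sin δ := Real.sin_pos_of_pos_of_lt_pi hδ (by linarith)
  have hA : 0 < Real.sin (φ + δ) := Real.sin_pos_of_pos_of_lt_pi (by linarith) (by linarith)
  have hB : 0 < Real.cos (φ + δ) := Real.cos_pos_of_mem_Ioo ⟨by linarith, hδ'⟩
  obtain ⟨τ, hτ, hmem⟩ := inward h.conv h.int h.bot (-(⟨-2 * Real.sin φ, -K'⟩ : ℂ)) (by
    rintro n ⟨hn1, hn2⟩
    obtain ⟨α, -, -, rfl⟩ := exists_uv hn1
    rw [← dt_eq_inner, dt_neg]
    have h1 := hn2 _ h.top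
    have h2 := hn2 _ hq
    rw [← dt_eq_inner, ← dt_eq_inner] at h1 h2
    simp only [dt, uv_re, uv_im, Real.cos_neg, Real.sin_neg] at h1 h2 ⊢
    have e1 : Real.sin (φ + 2 * δ) = Real.sin (φ + δ) * Real.cos δ + Real.cos (φ + δ) * Real.sin δ := by
      rw [← Real.sin_add]; congr 1; ring
    have e2 : Real.cos (φ + 2 * δ) = Real.cos (φ + δ) * Real.cos δ - Real.sin (φ + δ) * Real.sin δ := by
      rw [← Real.cos_add]; congr 1; ring
    have e3 : Real.sin φ = Real.sin (φ + δ) * Real.cos δ - Real.cos (φ + δ) * Real.sin δ := by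
      rw [← Real.sin_sub]; congr 1; ring
    have e4 : Real.cos φ = Real.cos (φ + δ) * Real.cos δ + Real.sin (φ + δ) * Real.sin δ := by
      rw [← Real.cos_sub]; congr 1; ring
    have h3 : Real.sin α ≤ 0 := by nlinarith
    have h4 : 0 ≤ Real.sin δ * (Real.cos α * Real.sin (φ + δ) + Real.sin α * Real.cos (φ + δ)) := by
      rw [e1, e2, e3, e4] at h2
      nlinarith
    have h5 : 0 ≤ Real.cos α * Real.sin (φ + δ) + Real.sin α * Real.cos (φ + δ) :=
      (mul_nonneg_iff_of_pos_left hsd).1 h4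
    have h6 : 0 < Real.cos α := by
      rcases lt_or_ge 0 (Real.cos α) with hc | hc
      · exact hc
      · exfalso
        have h7 : Real.cos α * Real.sin (φ + δ) ≤ 0 := mul_nonpos_of_nonpos_of_nonneg hc hA.le
        have h8 : Real.sin α * Real.cos (φ + δ) ≤ 0 := mul_nonpos_of_nonpos_of_nonneg h3 hB.le
        have h9 : Real.cos α * Real.sin (φ + δ) = 0 := by linarith
        have h10 : Real.sin α * Real.cos (φ + δ) = 0 := by linarith
        have h11 : Real.cos α = 0 := by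
          rcases mul_eq_zero.1 h9 with h | h
          · exact h
          · exact absurd h hA.ne'
        have h12 : Real.sin α = 0 := by
          rcases mul_eq_zero.1 h10 with h | h
          · exact h
          · exact absurd h hB.ne'
        have := Real.sin_sq_add_cos_sq α
        rw [h11, h12] at this
        norm_num at this
    have h7 : -Real.sin α * K' * Real.cos (φ + δ) < 2 * Real.sin φ * Real.cos α * Real.cos (φ + δ) := by
      have h8 : K' * (-Real.sin α * Real.cos (φ + δ)) ≤ K' * (Real.cos α * Real.sin (φ + δ)) :=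
        mul_le_mul_of_nonneg_left (by linarith) hK.le
      have h9 := mul_lt_mul_of_pos_left hsm h6
      nlinarith
    have h8 : -Real.sin α * K' < 2 * Real.sin φ * Real.cos α := lt_of_mul_lt_mul_right h7 hB.le
    linarith)
  refine ⟨τ, hτ, ?_⟩
  have h5 : uv (-φ) - τ • (-(⟨-2 * Real.sin φ, -K'⟩ : ℂ)) =
      uv (-φ) + (τ : ℂ) * ⟨-2 * Real.sin φ, -K'⟩ := by
    rw [Complex.real_smul]
    ring
  rw [h5] at hmem
  exact hmem

end Newton54P
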