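import Pool.Agent.Lib.MP_54d165_co.PS.L1
import Pool.Agent.Lib.MP_54d165_co.PS.L2

/-! Row L3 (about 80 lines): the local theorem. -/

set_option autoImplicit false

namespace Newton54P

open Complex Set Newton54S Filter
open scoped Topology

/-- ROW L3.  Write `K = cos φ`, `S = sin φ`.  Choose `e ∈ (0,1)`, `e₂ > 0` with
`(K + e₂ + e K) sin (φ+δ) < 2 S cos (φ+δ)` (hsm is strict; e.g. with `m = 2 S cos (φ+δ) - K sin (φ+δ) > 0`
take `e₂ = m/4`, `e = min (1/2) (m/4)`; `sin ≤ 1`, `K ≤ 1`).  `Insc.corner` with `K' = K + e₂ + e K` gives `τ`.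
Let `T ψ = tan (ψ/2)`.  `eventually_inward` with `q = uv (-φ)`, `s = sin`, `D ψ = dirD φ e e₂ (T ψ)`,
`D₀ = dirD φ e e₂ 0 = ⟨-2S, -K'⟩` (continuity of `dirD` in `T`, `Real.continuousAt_tan`), together with `mot_corner`
and `tan_half`, gives `mot φ e e₂ (T ψ) ψ y ∈ interior C` eventually for `ψ → 0+`.  Also eventually:
`0 < ψ`, `ψ < φ`, `φ + ψ < π/2`, `ψ < π/2`, `0 < T ψ`, `(K + e₂ + (1-e) K) T ψ < S`, `(K + e₂) sin ψ < S`,
`|yy φ e (T ψ)| < S` (`yy = -S + (2-2e) K T`, `0 < (2 - 2e) K T < 2 S`).  Take one such `ψ` and apply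
`h.cov_two` (`t = yy φ e T`, `α = uv (-ψ)`, `c = ctr - uv (-ψ) * ctr`, `mot_eq`), `h.loc_arc` with
`h.angle`, `h.loc_neg`. -/
theorem Insc.loc {C : Set ℂ} {φ : ℝ} (h : Insc C φ) {δ : ℝ} (hδ : 0 < δ)
    (hδ' : φ + δ < Real.pi / 2)
    (hsm : Real.cos φ * Real.sin (φ + δ) < 2 * Real.sin φ * Real.cos (φ + δ))
    (hq : uv (-(φ + 2 * δ)) ∈ C) : Cov C 2 := by
  have hK := h.cos_pos
  have hS := h.sin_pos
  have hφ := h.pos
  have hK1 := Real.cos_le_one φ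
  have hsd1 := Real.sin_le_one (φ + δ)
  have hsd0 : 0 < Real.sin (φ + δ) :=
    Real.sin_pos_of_pos_of_lt_pi (by linarith) (by linarith [Real.pi_pos])
  obtain ⟨m, hm⟩ : ∃ m : ℝ, m = 2 * Real.sin φ * Real.cos (φ + δ) - Real.cos φ * Real.sin (φ + δ) :=
    ⟨_, rfl⟩
  have hm0 : 0 < m := by rw [hm]; linarith
  obtain ⟨e, he0, he1, hem⟩ : ∃ e : ℝ, 0 < e ∧ e < 1 ∧ e ≤ m / 4 :=
    ⟨min (1 / 2) (m / 4), by positivity, lt_of_le_of_lt (min_le_left _ _) (by norm_num),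
      min_le_right _ _⟩
  obtain ⟨e₂, he₂⟩ : ∃ e₂ : ℝ, e₂ = m / 4 := ⟨_, rfl⟩
  have he₂0 : 0 < e₂ := by rw [he₂]; positivity
  have hcond : (Real.cos φ + e₂ + e * Real.cos φ) * Real.sin (φ + δ) <
      2 * Real.sin φ * Real.cos (φ + δ) := by
    have h1 : e * Real.cos φ ≤ m / 4 :=
      (mul_le_of_le_one_right he0.le hK1).trans hem
    have h2 : (e₂ + e * Real.cos φ) * Real.sin (φ + δ) ≤ m / 2 := by
      have h3 : 0 ≤ e₂ + e * Real.cos φ := by positivity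
      have h4 : (e₂ + e * Real.cos φ) * Real.sin (φ + δ) ≤ e₂ + e * Real.cos φ :=
        mul_le_of_le_one_right h3 hsd1
      linarith
    nlinarith
  have hK'pos : 0 < Real.cos φ + e₂ + e * Real.cos φ := by positivity
  obtain ⟨τ, hτ, hτD⟩ := h.corner hδ hδ' hq hK'pos hcond
  -- limits
  have hid : Tendsto (fun ψ : ℝ => ψ) (𝓝[>] (0 : ℝ)) (𝓝 0) := nhdsWithin_le_nhds
  have hsin : Tendsto Real.sin (𝓝[>] (0 : ℝ)) (𝓝 0) := by
    have h1 := (Real.continuous_sin.tendsto (0 : ℝ))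
    rw [Real.sin_zero] at h1
    exact h1.mono_left nhdsWithin_le_nhds
  have htan : Tendsto (fun ψ : ℝ => Real.tan (ψ / 2)) (𝓝[>] (0 : ℝ)) (𝓝 0) := by
    have h1 : Tendsto Real.tan (𝓝 (0 : ℝ)) (𝓝 (Real.tan 0)) :=
      (Real.continuousAt_tan.2 (by rw [Real.cos_zero]; exact one_ne_zero))
    rw [Real.tan_zero] at h1
    have h2 : Tendsto (fun ψ : ℝ => ψ / 2) (𝓝[>] (0 : ℝ)) (𝓝 0) := by
      have h3 := hid.div_const (2 : ℝ)
      rwa [zero_div] at h3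
    exact h1.comp h2
  have hcd : Continuous (fun T : ℝ => dirD φ e e₂ T) := by
    have h1 : (fun T : ℝ => dirD φ e e₂ T) = fun T : ℝ =>
        ((-2 * Real.sin φ + (2 - 3 * e) * Real.cos φ * T : ℝ) : ℂ) +
        (((2 * Real.sin φ - (Real.cos φ + e₂ + (1 - e) * Real.cos φ) * T) * T -
      (Real.cos φ + e₂ + e * Real.cos φ) - (1 - e) * Real.cos φ * T ^ 2 : ℝ) : ℂ) * Complex.I := by
      funext T
      exact Complex.mk_eq_add_mul_I _ _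
    rw [h1]
    fun_prop
  have hD0 : dirD φ e e₂ 0 = ⟨-2 * Real.sin φ, -(Real.cos φ + e₂ + e * Real.cos φ)⟩ := by
    apply Complex.ext
    · simp only [dirD]; ring
    · simp only [dirD]; ring
  have hDt : Tendsto (fun ψ : ℝ => dirD φ e e₂ (Real.tan (ψ / 2))) (𝓝[>] (0 : ℝ))
      (𝓝 (dirD φ e e₂ 0)) := (hcd.tendsto 0).comp htan
  have ev1 : ∀ᶠ ψ in 𝓝[>] (0 : ℝ), 0 < ψ := self_mem_nhdsWithin
  have ev2 : ∀ᶠ ψ in 𝓝[>] (0 : ℝ), ψ < φ := hid.eventually_lt_const hφ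
  have ev3 : ∀ᶠ ψ in 𝓝[>] (0 : ℝ), ψ < Real.pi / 2 - φ :=
    hid.eventually_lt_const (by linarith)
  have ev5 : ∀ᶠ ψ in 𝓝[>] (0 : ℝ),
      (Real.cos φ + e₂ + (1 - e) * Real.cos φ) * Real.tan (ψ / 2) < Real.sin φ := by
    have h1 := htan.const_mul (Real.cos φ + e₂ + (1 - e) * Real.cos φ)
    rw [mul_zero] at h1
    exact h1.eventually_lt_const hS
  have ev6 : ∀ᶠ ψ in 𝓝[>] (0 : ℝ), (Real.cos φ + e₂) * Real.sin ψ < Real.sin φ := by
    have h1 := hsin.const_mul (Real.cos φ + e₂)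
    rw [mul_zero] at h1
    exact h1.eventually_lt_const hS
  have ev7 : ∀ᶠ ψ in 𝓝[>] (0 : ℝ),
      (2 - 2 * e) * Real.cos φ * Real.tan (ψ / 2) < 2 * Real.sin φ := by
    have h1 := htan.const_mul ((2 - 2 * e) * Real.cos φ)
    rw [mul_zero] at h1
    exact h1.eventually_lt_const (by linarith)
  have ev8 : ∀ᶠ ψ in 𝓝[>] (0 : ℝ), 0 < Real.sin ψ := by
    filter_upwards [ev1, ev2] with ψ h1 h2
    exact Real.sin_pos_of_pos_of_lt_pi h1 (by linarith [h.lt, Real.pi_pos])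
  have ev9 : ∀ᶠ ψ in 𝓝[>] (0 : ℝ),
      uv (-φ) + (Real.sin ψ : ℂ) * dirD φ e e₂ (Real.tan (ψ / 2)) ∈ interior C := by
    refine eventually_inward h.conv h.bot hτ (D₀ := dirD φ e e₂ 0) ?_ ev8 hsin hDt
    rw [hD0]
    exact hτD
  obtain ⟨ψ, h1, h2, h3, h5, h6, h7, h9⟩ :=
    (ev1.and (ev2.and (ev3.and (ev5.and (ev6.and (ev7.and ev9)))))).exists
  have hψ2 : ψ < Real.pi / 2 := by linarith
  have hTpos : 0 < Real.tan (ψ / 2) :=
    Real.tan_pos_of_pos_of_lt_pi_div_two (by linarith) (by linarith)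
  have hcos : Real.cos (ψ / 2) ≠ 0 :=
    (Real.cos_pos_of_mem_Ioo ⟨by linarith, by linarith⟩).ne'
  obtain ⟨hT, hT'⟩ := tan_half hcos
  have hyy : |yy φ e (Real.tan (ψ / 2))| < Real.sin φ := by
    have h10 : 0 < (2 - 2 * e) * Real.cos φ * Real.tan (ψ / 2) := by
      have : 0 < 2 - 2 * e := by linarith
      positivity
    rw [abs_lt, yy]
    constructor <;> linarith
  have hc := mot_corner (φ := φ) (e := e) (e₂ := e₂) hT hT'
  rw [← hc] at h9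
  refine h.cov_two (t := yy φ e (Real.tan (ψ / 2))) hyy (α := uv (-ψ))
    (c := ctr φ e e₂ (Real.tan (ψ / 2)) - uv (-ψ) * ctr φ e e₂ (Real.tan (ψ / 2)))
    (norm_uv _) ?_ ?_ ?_
  · rw [← mot_eq]
    exact h9
  · rw [← mot_eq]
    exact h.loc_neg he0 he1 he₂0 hTpos h1 hψ2 hT h5 h6
  · intro a ha ha1 ha2
    obtain ⟨β, hβ1, hβ2, rfl⟩ := h.angle ha ha1 ha2
    rw [← mot_eq]
    exact h.loc_arc he0 he1 he₂0 hTpos h1 h2 (by linarith) hT h5 h6 hβ1 hβ2 ha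

end Newton54P
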