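import Pool.Agent.Lib.MP_54d165_co.PS.A1

/-! Definitions for the local motion. -/

set_option autoImplicit false

namespace Newton54P

open Complex Set Newton54S

/-- centre of the rotation -/
noncomputable def ctr (φ e e₂ T : ℝ) : ℂ :=
  ⟨-(Real.cos φ + e₂), Real.sin φ - (Real.cos φ + e₂ + (1 - e) * Real.cos φ) * T⟩

/-- imaginary part of the cut point `y` -/
noncomputable def yy (φ e T : ℝ) : ℝ := -Real.sin φ + (2 - 2 * e) * Real.cos φ * T

/-- rotation by the angle `-ψ` about the centre -/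
noncomputable def mot (φ e e₂ T ψ : ℝ) (x : ℂ) : ℂ :=
  ctr φ e e₂ T + uv (-ψ) * (x - ctr φ e e₂ T)

/-- the direction in which the corner moves -/
noncomputable def dirD (φ e e₂ T : ℝ) : ℂ :=
  ⟨-2 * Real.sin φ + (2 - 3 * e) * Real.cos φ * T,
    (2 * Real.sin φ - (Real.cos φ + e₂ + (1 - e) * Real.cos φ) * T) * T -
      (Real.cos φ + e₂ + e * Real.cos φ) - (1 - e) * Real.cos φ * T ^ 2⟩

theorem mot_eq (φ e e₂ T ψ : ℝ) (x : ℂ) : mot φ e e₂ T ψ x =
    uv (-ψ) * x + (ctr φ e e₂ T - uv (-ψ) * ctr φ e e₂ T) := by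
  unfold mot; ring

/-- the half angle relation -/
theorem tan_half {ψ : ℝ} (h : Real.cos (ψ / 2) ≠ 0) :
    Real.tan (ψ / 2) * Real.sin ψ = 1 - Real.cos ψ ∧
      Real.tan (ψ / 2) * (1 + Real.cos ψ) = Real.sin ψ := by
  have h1 : Real.sin ψ = 2 * Real.sin (ψ / 2) * Real.cos (ψ / 2) := by
    rw [← Real.sin_two_mul]; congr 1; ring
  have h2 : Real.cos ψ = 2 * Real.cos (ψ / 2) ^ 2 - 1 := by
    rw [← Real.cos_two_mul]; congr 1; ring
  have h3 := Real.sin_sq_add_cos_sq (ψ / 2)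
  rw [Real.tan_eq_sin_div_cos, h1, h2]
  constructor
  · field_simp
    nlinarith
  · field_simp
    ring

/-- exact displacement of the corner: `mot y = uv (-φ) + sin ψ • dirD` -/
theorem mot_corner {φ e e₂ T ψ : ℝ} (hT : T * Real.sin ψ = 1 - Real.cos ψ)
    (hT' : T * (1 + Real.cos ψ) = Real.sin ψ) :
    mot φ e e₂ T ψ ⟨Real.cos φ, yy φ e T⟩ = uv (-φ) + (Real.sin ψ : ℂ) * dirD φ e e₂ T := by
  have hc : Real.cos ψ = 1 - T * Real.sin ψ := by linarith
  have hs : Real.sin ψ * (1 + T ^ 2) = 2 * T := by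
    have : T * (1 + (1 - T * Real.sin ψ)) = Real.sin ψ := by rw [← hc]; exact hT'
    linarith
  apply Complex.ext
  · simp only [mot, ctr, yy, dirD, Complex.add_re, Complex.mul_re, Complex.sub_re, Complex.sub_im,
      uv_re, uv_im, Real.cos_neg, Real.sin_neg, Complex.ofReal_re, Complex.ofReal_im]
    rw [hc]
    ring
  · simp only [mot, ctr, yy, dirD, Complex.add_im, Complex.mul_im, Complex.sub_re, Complex.sub_im,
      uv_re, uv_im, Real.cos_neg, Real.sin_neg, Complex.ofReal_re, Complex.ofReal_im]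
    rw [hc]
    linear_combination (-(1 - e) * Real.cos φ) * hs

end Newton54P
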