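import Pool.Agent.Lib.MP_54d165_co.PS.N2
import Pool.Agent.Lib.MP_54d165_co.PS.E1

/-! Row N3: extreme points of different norms. -/

set_option autoImplicit false

namespace Newton54P

open Complex Set Newton54S

theorem n3_zero {C : Set ℂ} (hconv : Convex ℝ C) (hint : (interior C).Nonempty)
    (hsym : ∀ x ∈ C, -x ∈ C) : (0 : ℂ) ∈ interior C := by
  refine mem_int hconv hint fun η => ?_
  obtain ⟨z, hz⟩ := hint
  obtain ⟨y, hy, h1⟩ := lt_of_mem_int hz η
  obtain ⟨y', hy', h2⟩ := lt_of_mem_int hz (η + Real.pi)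
  rw [dt_add_pi, dt_add_pi] at h2
  rw [dt_zero_right]
  by_contra hc
  push Not at hc
  have h3 := hc y hy
  have h4 := hc (-y') (hsym _ hy')
  rw [dt_neg] at h4
  linarith

theorem n3_slope {C : Set ℂ} (hconv : Convex ℝ C) (hcomp : IsCompact C)
    (hint : (interior C).Nonempty) (hsym : ∀ x ∈ C, -x ∈ C) {u : ℝ} (hu0 : 0 < u)
    (hu : (u : ℂ) ∈ extremePoints ℝ C) (hub : ∀ r : ℝ, (r : ℂ) ∈ C → r ≤ u) {ρ β : ℝ}
    (hβ : 0 < β) (hβπ : β < Real.pi) (hv : (ρ : ℂ) * uv β ∈ C) (hlt : u < ρ) : Cov C 2 := by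
  have h0 := n3_zero hconv hint hsym
  obtain ⟨ρ₁, ϑ₁, η, hρ, hϑ, hϑβ, hx, hmax, hη1, hη2, hη⟩ :=
    exists_slope hconv hcomp h0 hu0 hu.1 hub hβ hβπ hv hlt
  obtain ⟨m, H, y₁, y₂, a1, a2, a3, a4, a5, a6⟩ :=
    exists_edge hcomp hconv h0 hu0 hu hub hρ hϑ (hϑβ.trans_lt hβπ) hx hmax hη1 hη2 hη
  exact cov_rt (cov_edge (rt_convex hconv (-m)) (rt_compact hcomp (-m)) (rt_int hint (-m))
    (rt_sym hsym (-m)) a1 a2 a3 a4 a5 a6)

theorem n3_real {C : Set ℂ} (hconv : Convex ℝ C) (hcomp : IsCompact C)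
    (hint : (interior C).Nonempty) (hsym : ∀ x ∈ C, -x ∈ C) {u : ℝ} (hu0 : 0 < u)
    (hu : (u : ℂ) ∈ extremePoints ℝ C) {v : ℂ} (hv : v ∈ C) (hlt : u < ‖v‖) : Cov C 2 := by
  have h0 := interior_subset (n3_zero hconv hint hsym)
  have hub : ∀ r : ℝ, (r : ℂ) ∈ C → r ≤ u := by
    intro r hr
    by_contra hc
    push Not at hc
    have hr0 : 0 < r := hu0.trans hc
    have h1 : (u : ℂ) ∈ openSegment ℝ (0 : ℂ) (r : ℂ) := by
      refine ⟨1 - u / r, u / r, ?_, by positivity, by ring, ?_⟩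
      · rw [sub_pos, div_lt_one hr0]
        exact hc
      · rw [smul_zero, zero_add, Complex.real_smul, ← Complex.ofReal_mul, div_mul_cancel₀ _ hr0.ne']
    have h2 := (mem_extremePoints.1 hu).2 _ h0 _ hr h1
    have h3 := h2.1
    rw [eq_comm, Complex.ofReal_eq_zero] at h3
    exact hu0.ne' h3
  obtain ⟨β, hβ1, hβ2, hβ⟩ := exists_polar v
  rcases lt_trichotomy β 0 with hb | hb | hb
  · refine n3_slope hconv hcomp hint hsym hu0 hu hub (β := β + Real.pi) (ρ := ‖v‖) (by linarith)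
      (by linarith) ?_ hlt
    rw [uv_add_pi, mul_neg, ← hβ]
    exact hsym _ hv
  · exfalso
    rw [hb, uv_zero, mul_one] at hβ
    rw [hβ] at hv
    exact absurd (hub _ hv) (not_le.2 hlt)
  · rcases lt_or_eq_of_le hβ2 with hb' | hb'
    · refine n3_slope hconv hcomp hint hsym hu0 hu hub hb hb' ?_ hlt
      rw [← hβ]
      exact hv
    · exfalso
      have h1 : v = -(‖v‖ : ℂ) := by
        have h2 : uv Real.pi = -1 := by
          have := uv_add_pi 0
          rwa [zero_add, uv_zero] at this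
        rw [hb', h2, mul_neg, mul_one] at hβ
        exact hβ
      have h3 := hsym _ hv
      have h4 : -v = (‖v‖ : ℂ) := by
        conv_lhs => rw [h1]
        rw [neg_neg]
      rw [h4] at h3
      exact absurd (hub _ h3) (not_le.2 hlt)

/-- ROW N3. -/
theorem cov_extreme {C : Set ℂ} (hconv : Convex ℝ C) (hcomp : IsCompact C)
    (hint : (interior C).Nonempty) (hsym : ∀ x ∈ C, -x ∈ C) {u v : ℂ}
    (hu : u ∈ extremePoints ℝ C) (hv : v ∈ C) (hlt : ‖u‖ < ‖v‖) : Cov C 2 := by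
  have hv0 : v ≠ 0 := by
    rw [← norm_pos_iff]
    exact (norm_nonneg _).trans_lt hlt
  have hu0 : u ≠ 0 := by
    rintro rfl
    have h1 : (0 : ℂ) ∈ openSegment ℝ (-v) v := by
      refine ⟨1 / 2, 1 / 2, by norm_num, by norm_num, by norm_num, ?_⟩
      rw [smul_neg, neg_add_cancel]
    have h2 := (mem_extremePoints.1 hu).2 _ (hsym _ hv) _ hv h1
    exact hv0 h2.2
  obtain ⟨α, -, -, hα⟩ := exists_polar u
  have hD : ∀ x : ℂ, x ∈ rt (-α) C ↔ uv α * x ∈ C := by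
    intro x
    rw [mem_rt, neg_neg]
  have hm : uv α * (‖u‖ : ℂ) = u := by rw [mul_comm, ← hα]
  refine cov_rt (θ := -α) (n3_real (u := ‖u‖) (v := uv (-α) * v) (rt_convex hconv _)
    (rt_compact hcomp _) (rt_int hint _) (rt_sym hsym _) (norm_pos_iff.2 hu0) ?_ ?_ ?_)
  · rw [mem_extremePoints]
    refine ⟨?_, ?_⟩
    · rw [hD, hm]
      exact hu.1
    · intro x₁ h₁ x₂ h₂ hx
      rw [hD] at h₁ h₂
      obtain ⟨a, b, ha, hb, hab, h3⟩ := hx
      have h4 : u ∈ openSegment ℝ (uv α * x₁) (uv α * x₂) := by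
        refine ⟨a, b, ha, hb, hab, ?_⟩
        rw [← mul_smul_comm, ← mul_smul_comm, ← mul_add, h3, hm]
      have h5 := (mem_extremePoints.1 hu).2 _ h₁ _ h₂ h4
      rw [← hm] at h5
      exact ⟨mul_left_cancel₀ (uv_ne_zero α) (by rw [h5.1, hm]),
        mul_left_cancel₀ (uv_ne_zero α) (by rw [h5.2, hm])⟩
  · rw [hD, ← mul_assoc, uv_mul_neg, one_mul]
    exact hv
  · rw [norm_uv_mul]
    exact hlt

end Newton54P
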