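import Pool.Agent.Lib.MP_54d165_co.PS.S1

/-! Row S2 (about 120 lines): the shift. -/

set_option autoImplicit false

namespace Newton54P

open Complex Set Newton54S

theorem s2_tan {φ : ℝ} (hφ0 : 0 < φ) (hφ : φ ≤ Real.pi / 4) :
    Real.tan (φ / 2) * (1 + Real.cos φ) = Real.sin φ := by
  have h1 : 0 < Real.cos (φ / 2) :=
    Real.cos_pos_of_mem_Ioo ⟨by linarith [Real.pi_pos], by linarith [Real.pi_pos]⟩
  have h2 : Real.sin φ = 2 * Real.sin (φ / 2) * Real.cos (φ / 2) := by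
    rw [← Real.sin_two_mul]; congr 1; ring
  have h3 : Real.cos φ = 2 * Real.cos (φ / 2) ^ 2 - 1 := by
    rw [← Real.cos_two_mul]; congr 1; ring
  rw [h2, h3, Real.tan_eq_sin_div_cos]
  field_simp
  ring

theorem s2_core {K S c s t : ℝ} (hK0 : 7 / 10 < K) (hS0 : 0 < S) (hKS : K ^ 2 + S ^ 2 = 1)
    (hs0 : 0 < s) (hcs : s ^ 2 + c ^ 2 = 1) (hc0 : 0 < c) (ht : t * (1 + K) = S)
    (hK : 2 * S * c ≤ K * s) : t * s < K * (1 - c) := by
  by_contra hcon
  push Not at hcon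
  set x : ℝ := (1 - c) / s with hx
  have hxs : x * s = 1 - c := div_mul_cancel₀ _ hs0.ne'
  have hc1 : c < 1 := by nlinarith
  have hx0 : 0 < x := div_pos (by linarith) hs0
  have hxc : x * (1 + c) = s := by
    have h1 : s * (x * (1 + c)) = s * s := by
      calc s * (x * (1 + c)) = (x * s) * (1 + c) := by ring
        _ = (1 - c) * (1 + c) := by rw [hxs]
        _ = s * s := by nlinarith
    exact mul_left_cancel₀ hs0.ne' h1
  have e1 : s * (1 + x ^ 2) = 2 * x := by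
    have : x * (x * s) = x * (1 - c) := by rw [hxs]
    nlinarith
  have e2 : c * (1 + x ^ 2) = 1 - x ^ 2 := by
    have h1 : c = 1 - x * s := by linarith
    have h2 : x * (s * (1 + x ^ 2)) = x * (2 * x) := by rw [e1]
    calc c * (1 + x ^ 2) = (1 + x ^ 2) - x * (s * (1 + x ^ 2)) := by rw [h1]; ring
      _ = 1 - x ^ 2 := by rw [h2]; ring
  have f1 : S * (1 - x ^ 2) ≤ K * x := by
    have h1 : 2 * S * c * (1 + x ^ 2) ≤ K * s * (1 + x ^ 2) :=
      mul_le_mul_of_nonneg_right hK (by positivity)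
    have h2 : 2 * S * c * (1 + x ^ 2) = 2 * (S * (1 - x ^ 2)) := by rw [← e2]; ring
    have h3 : K * s * (1 + x ^ 2) = 2 * (K * x) := by
      calc K * s * (1 + x ^ 2) = K * (s * (1 + x ^ 2)) := by ring
        _ = 2 * (K * x) := by rw [e1]; ring
    linarith
  have f2 : K * x ≤ t := by
    have h1 : K * x * s ≤ t * s := by
      calc K * x * s = K * (x * s) := by ring
        _ = K * (1 - c) := by rw [hxs]
        _ ≤ t * s := hcon
    exact le_of_mul_le_mul_right h1 hs0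
  have hK1 : 0 < 1 + K := by linarith
  set y : ℝ := K * (1 + K) * x with hy
  have hy0 : 0 < y := by positivity
  have hyS : y ≤ S := by
    rw [hy, ← ht]
    nlinarith
  have g1 : S * (K ^ 2 * (1 + K) ^ 2 - y ^ 2) ≤ K ^ 2 * (1 + K) * y := by
    have h1 := mul_le_mul_of_nonneg_left f1 (by positivity : (0 : ℝ) ≤ K ^ 2 * (1 + K) ^ 2)
    have h2 : K ^ 2 * (1 + K) ^ 2 * (S * (1 - x ^ 2)) = S * (K ^ 2 * (1 + K) ^ 2 - y ^ 2) := by
      rw [hy]; ring
    have h3 : K ^ 2 * (1 + K) ^ 2 * (K * x) = K ^ 2 * (1 + K) * y := by rw [hy]; ring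
    rw [h2, h3] at h1
    exact h1
  have g2 : y ^ 2 ≤ S ^ 2 := pow_le_pow_left₀ hy0.le hyS 2
  have g3 : S * (K ^ 2 * (1 + K) ^ 2 - S ^ 2) ≤ S * (K ^ 2 * (1 + K)) := by
    have h1 : S * (K ^ 2 * (1 + K) ^ 2 - S ^ 2) ≤ S * (K ^ 2 * (1 + K) ^ 2 - y ^ 2) :=
      mul_le_mul_of_nonneg_left (by linarith) hS0.le
    have h2 : K ^ 2 * (1 + K) * y ≤ K ^ 2 * (1 + K) * S :=
      mul_le_mul_of_nonneg_left hyS (by positivity)
    linarith
  have g4 : K ^ 2 * (1 + K) ^ 2 - S ^ 2 ≤ K ^ 2 * (1 + K) := le_of_mul_le_mul_left g3 hS0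
  have g5 : (1 + K) * (K ^ 2 * (1 + K) - (1 - K)) ≤ (1 + K) * K ^ 2 := by nlinarith
  have g6 : K ^ 2 * (1 + K) - (1 - K) ≤ K ^ 2 := le_of_mul_le_mul_left g5 hK1
  nlinarith [mul_pos (by linarith : (0 : ℝ) < K - 7 / 10) (by linarith : (0 : ℝ) < K),
    mul_pos (mul_pos (by linarith : (0 : ℝ) < K - 7 / 10) (by linarith : (0 : ℝ) < K))
      (by linarith : (0 : ℝ) < K)]

/-- ROW S2, part 1.  `K = cos φ`, `S = sin φ`, `t₀ = tan (φ/2) = S/(1+K) = (1-K)/S`, `ω = φ + μ ∈ (0, π/2)`.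
(1) `t₀ sin ω < K (1 - cos ω)`.  Suppose not; put `x = (1 - cos ω)/sin ω = tan (ω/2)`, `0 < x < 1`,
`K x ≤ t₀`, so (as `t₀ < K`: `1 - K < S K`, true for `K ≥ 1/√2`, `S ≤ ...`; or use `K³ + K > 1`)
`tan ω = 2x/(1 - x²) ≤ 2 (t₀/K)/(1 - (t₀/K)²) = 2 t₀ K/(K² - t₀²)`, and hK says `tan ω ≥ 2 S/K`; so
`S (K² - t₀²) ≤ t₀ K²`, i.e. (`t₀ = S/(1+K)`, `t₀² = (1-K)/(1+K)`) `K²(1+K) - (1-K) ≤ K²`, i.e. `K³ + K ≤ 1`; but
`K ≥ cos (π/4) = √2/2 > 7/10`, `K³ + K > 1.04`.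
(2) for `0 ≤ ψ ≤ ω` : `K cos ψ + t₀ sin ψ < cos (ψ - μ)`: `dt_pos_of_between` for `z = ⟨cos μ - K, sin μ - t₀⟩`,
`η₁ = 0`, `η₂ = ω`, `η = ψ`: `dt 0 z = cos μ - K > 0` (`μ < φ`), `dt ω z = cos (ω - μ) - K cos ω - t₀ sin ω =
K - K cos ω - t₀ sin ω > 0` by (1).
(3) for `ω ≤ ψ ≤ π/2`: `K cos ψ + t₀ sin ψ < K`, i.e. `t₀ sin ψ < K (1 - cos ψ)`; dividing by
`2 sin (ψ/2) > 0` it reads `t₀ cos (ψ/2) < K sin (ψ/2)`, which follows from the one for `ω` by monotonicity. -/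
theorem shift_ineq {φ μ : ℝ} (hφ0 : 0 < φ) (hφ : φ ≤ Real.pi / 4) (hμ0 : 0 < μ) (hμ : μ < φ)
    (hK : 2 * Real.sin φ * Real.cos (φ + μ) ≤ Real.cos φ * Real.sin (φ + μ)) {ψ : ℝ} (h0 : 0 ≤ ψ)
    (h1 : ψ ≤ Real.pi / 2) :
    Real.cos φ * Real.cos ψ + Real.tan (φ / 2) * Real.sin ψ <
      max (Real.cos (ψ - μ)) (Real.cos φ) := by
  have hpi := Real.pi_pos
  have hK7 : 7 / 10 < Real.cos φ := by
    have h2 : Real.cos (Real.pi / 4) ≤ Real.cos φ :=
      Real.cos_le_cos_of_nonneg_of_le_pi hφ0.le (by linarith) hφ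
    rw [Real.cos_pi_div_four] at h2
    have h3 : (7 / 5 : ℝ) < √2 := by
      rw [Real.lt_sqrt (by norm_num)]
      norm_num
    linarith
  have hS0 : 0 < Real.sin φ := Real.sin_pos_of_pos_of_lt_pi hφ0 (by linarith)
  have hω1 : φ + μ < Real.pi / 2 := by linarith
  have hs0 : 0 < Real.sin (φ + μ) := Real.sin_pos_of_pos_of_lt_pi (by linarith) (by linarith)
  have hc0 : 0 < Real.cos (φ + μ) := Real.cos_pos_of_mem_Ioo ⟨by linarith, hω1⟩
  have hcore := s2_core hK7 hS0 (by rw [add_comm]; exact Real.sin_sq_add_cos_sq φ) hs0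
    (Real.sin_sq_add_cos_sq (φ + μ)) hc0 (s2_tan hφ0 hφ) hK
  have ht0 : 0 < Real.tan (φ / 2) := Real.tan_pos_of_pos_of_lt_pi_div_two (by linarith) (by linarith)
  set t := Real.tan (φ / 2) with ht
  rcases le_or_gt ψ (φ + μ) with hle | hgt
  · apply lt_of_lt_of_le _ (le_max_left _ _)
    set z : ℂ := ⟨Real.cos μ - Real.cos φ, Real.sin μ - t⟩ with hz
    have hdt : ∀ η : ℝ, dt η z = Real.cos (η - μ) - Real.cos φ * Real.cos η - t * Real.sin η := by
      intro η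
      rw [dt, hz, Real.cos_sub]
      ring
    have h2 : 0 < dt 0 z := by
      rw [hdt, zero_sub, Real.cos_neg, Real.cos_zero, Real.sin_zero]
      have := Real.cos_lt_cos_of_nonneg_of_le_pi hμ0.le (by linarith : φ ≤ Real.pi) hμ
      linarith
    have h3 : 0 < dt (φ + μ) z := by
      rw [hdt, add_sub_cancel_right]
      linarith
    have h4 := dt_pos_of_between h2 h3 h0 hle (by linarith)
    rw [hdt] at h4
    linarith
  · apply lt_of_lt_of_le _ (le_max_right _ _)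
    -- half angles
    have hw2 : 0 < Real.sin ((φ + μ) / 2) :=
      Real.sin_pos_of_pos_of_lt_pi (by linarith) (by linarith)
    have hp2 : 0 < Real.sin (ψ / 2) := Real.sin_pos_of_pos_of_lt_pi (by linarith) (by linarith)
    have hsin : ∀ a : ℝ, Real.sin a = 2 * Real.sin (a / 2) * Real.cos (a / 2) := by
      intro a
      rw [← Real.sin_two_mul]; congr 1; ring
    have hcos : ∀ a : ℝ, 1 - Real.cos a = 2 * Real.sin (a / 2) ^ 2 := by
      intro a
      have h5 : Real.cos a = 2 * Real.cos (a / 2) ^ 2 - 1 := by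
        rw [← Real.cos_two_mul]; congr 1; ring
      have h6 := Real.sin_sq_add_cos_sq (a / 2)
      rw [h5]; linarith
    have h5 : t * Real.cos ((φ + μ) / 2) < Real.cos φ * Real.sin ((φ + μ) / 2) := by
      rw [hsin (φ + μ), hcos (φ + μ)] at hcore
      have h6 : (2 * Real.sin ((φ + μ) / 2)) * (t * Real.cos ((φ + μ) / 2)) <
          (2 * Real.sin ((φ + μ) / 2)) * (Real.cos φ * Real.sin ((φ + μ) / 2)) := by
        calc (2 * Real.sin ((φ + μ) / 2)) * (t * Real.cos ((φ + μ) / 2)) =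
            t * (2 * Real.sin ((φ + μ) / 2) * Real.cos ((φ + μ) / 2)) := by ring
          _ < Real.cos φ * (2 * Real.sin ((φ + μ) / 2) ^ 2) := hcore
          _ = _ := by ring
      exact lt_of_mul_lt_mul_left h6 (by linarith)
    have h6 : Real.cos (ψ / 2) ≤ Real.cos ((φ + μ) / 2) :=
      Real.cos_le_cos_of_nonneg_of_le_pi (by linarith) (by linarith) (by linarith)
    have h7 : Real.sin ((φ + μ) / 2) ≤ Real.sin (ψ / 2) :=
      Real.sin_le_sin_of_le_of_le_pi_div_two (by linarith) (by linarith) (by linarith)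
    have h8 : t * Real.cos (ψ / 2) < Real.cos φ * Real.sin (ψ / 2) := by
      calc t * Real.cos (ψ / 2) ≤ t * Real.cos ((φ + μ) / 2) :=
            mul_le_mul_of_nonneg_left h6 ht0.le
        _ < Real.cos φ * Real.sin ((φ + μ) / 2) := h5
        _ ≤ _ := mul_le_mul_of_nonneg_left h7 (by linarith)
    have h9 : t * Real.sin ψ < Real.cos φ * (1 - Real.cos ψ) := by
      rw [hsin ψ, hcos ψ]
      calc t * (2 * Real.sin (ψ / 2) * Real.cos (ψ / 2)) =
          (2 * Real.sin (ψ / 2)) * (t * Real.cos (ψ / 2)) := by ring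
        _ < (2 * Real.sin (ψ / 2)) * (Real.cos φ * Real.sin (ψ / 2)) :=
            mul_lt_mul_of_pos_left h8 (by linarith)
        _ = _ := by ring
    linarith

/-- ROW S2, part 2.  The function `ψ ↦ max (cos (ψ - δ)) (cos φ) - cos φ cos ψ - tan (φ/2) sin ψ` is continuous and
positive on the compact set `[0, π/2]` (`shift_ineq` with `μ = δ`), so it is `≥ m > 0`
(`IsCompact.exists_isMinOn`).  Apply `h.shift_core hmax` with `θ = -(φ + δ)`, `t = tan (φ/2) + m/2`: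
`t sin φ > tan (φ/2) sin φ = 1 - cos φ` and `2 t ≥ 2 tan (φ/2) ≥ sin φ`
(`tan (φ/2) (1 + cos φ) = sin φ`, `cos φ ≤ 1`).  For hD at `ψ`: if `cos φ ≤ cos (ψ - δ)` use
`a = uv (-φ)` for `θ + ψ` (`dt (θ + ψ) (uv (-φ)) = cos (-φ - θ - ψ) = cos (δ - ψ)`) and `a = uv (-(φ + 2δ))` for
`θ - ψ` (`cos (-(φ+2δ) - θ + ψ) = cos (ψ - δ)`); otherwise use hmax. -/
theorem Insc.shift {C : Set ℂ} {φ : ℝ} (h : Insc C φ)
    (hmax : ∀ η : ℝ, ∃ a ∈ C, ‖a‖ = 1 ∧ Real.cos φ ≤ dt η a) (hφ : φ ≤ Real.pi / 4) {δ : ℝ}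
    (hδ0 : 0 < δ) (hδ : δ < φ)
    (hK : 2 * Real.sin φ * Real.cos (φ + δ) ≤ Real.cos φ * Real.sin (φ + δ))
    (hq : uv (-(φ + 2 * δ)) ∈ C) : Cov C 2 := by
  have hφ0 := h.pos
  have hpi := Real.pi_pos
  have htan := s2_tan hφ0 hφ
  have hS0 := h.sin_pos
  have hC0 := h.cos_pos
  set F : ℝ → ℝ := fun ψ => max (Real.cos (ψ - δ)) (Real.cos φ) -
    (Real.cos φ * Real.cos ψ + Real.tan (φ / 2) * Real.sin ψ) with hF
  have hcont : Continuous F := by
    rw [hF]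
    fun_prop
  obtain ⟨ψ₀, hψ₀, hmin⟩ := (isCompact_Icc (a := (0 : ℝ)) (b := Real.pi / 2)).exists_isMinOn
    ⟨0, by constructor <;> linarith⟩ hcont.continuousOn
  have hm0 : 0 < F ψ₀ := by
    rw [hF]
    have := shift_ineq hφ0 hφ hδ0 hδ hK hψ₀.1 hψ₀.2
    simp only
    linarith
  set m := F ψ₀ with hm
  have ht0 : 0 < Real.tan (φ / 2) := Real.tan_pos_of_pos_of_lt_pi_div_two (by linarith) (by linarith)
  have hcos1 := Real.cos_le_one φ
  have hsc := Real.sin_sq_add_cos_sq φ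
  have hts : Real.tan (φ / 2) * Real.sin φ = 1 - Real.cos φ := by
    have h1 : (1 + Real.cos φ) * (Real.tan (φ / 2) * Real.sin φ) =
        (1 + Real.cos φ) * (1 - Real.cos φ) := by
      calc (1 + Real.cos φ) * (Real.tan (φ / 2) * Real.sin φ) =
          (Real.tan (φ / 2) * (1 + Real.cos φ)) * Real.sin φ := by ring
        _ = Real.sin φ * Real.sin φ := by rw [htan]
        _ = _ := by nlinarith
    exact mul_left_cancel₀ (by linarith) h1
  have key : ∀ ψ : ℝ, 0 ≤ ψ → ψ ≤ Real.pi / 2 →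
      Real.cos φ * Real.cos ψ + (Real.tan (φ / 2) + m / 2) * Real.sin ψ <
        max (Real.cos (ψ - δ)) (Real.cos φ) := by
    intro ψ h1 h2
    have h3 : m ≤ F ψ := hmin ⟨h1, h2⟩
    have h4 := Real.sin_le_one ψ
    have h5 : 0 ≤ Real.sin ψ := Real.sin_nonneg_of_nonneg_of_le_pi h1 (by linarith)
    have h6 : m / 2 * Real.sin ψ ≤ m / 2 := by nlinarith
    have h7 : F ψ = max (Real.cos (ψ - δ)) (Real.cos φ) -
      (Real.cos φ * Real.cos ψ + Real.tan (φ / 2) * Real.sin ψ) := rfl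
    rw [h7] at h3
    linarith
  apply h.shift_core hmax (θ := -(φ + δ)) (t := Real.tan (φ / 2) + m / 2)
  · rw [add_mul, hts]
    have : 0 < m / 2 * Real.sin φ := by positivity
    linarith
  · have h1 : Real.sin φ ≤ 2 * Real.tan (φ / 2) := by
      rw [← htan]
      nlinarith
    linarith
  · intro ψ h1 h2
    have h3 := key ψ h1 h2
    rcases le_total (Real.cos φ) (Real.cos (ψ - δ)) with h4 | h4
    · rw [max_eq_left h4] at h3
      refine ⟨⟨uv (-φ), h.bot, ?_⟩, ⟨uv (-(φ + 2 * δ)), hq, ?_⟩⟩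
      · rw [dt_uv, show -φ - (-(φ + δ) + ψ) = -(ψ - δ) by ring, Real.cos_neg]
        exact h3
      · rw [dt_uv, show -(φ + 2 * δ) - (-(φ + δ) - ψ) = ψ - δ by ring]
        exact h3
    · rw [max_eq_right h4] at h3
      obtain ⟨a, ha, -, ha1⟩ := hmax (-(φ + δ) + ψ)
      obtain ⟨b, hb, -, hb1⟩ := hmax (-(φ + δ) - ψ)
      exact ⟨⟨a, ha, h3.trans_le ha1⟩, ⟨b, hb, h3.trans_le hb1⟩⟩

end Newton54P
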