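import Pool.Agent.Lib.MP_54d165_co.PS.X1

/-! Row X2: choice of the rectangle. -/

set_option autoImplicit false

namespace Newton54P

open Complex Set Newton54S

/-- the choice of `b` -/
theorem x2_real {K S q s c : ℝ} (hK : 0 < K) (hS : 0 < S) (hq : q * S = K)
    (hs : s = q * (1 + q ^ 2 / 4)) (hc : 0 < c) (hsc : s ^ 2 + c ^ 2 = 1) (hq3 : 3 * q ^ 2 ≤ 1) :
    ∃ b : ℝ, 0 < b ∧ b < 2 * S ∧ b * s < 2 * K * (1 - c) ∧ (2 * S - b) * s < 2 * K ∧
      2 * K * s - 2 * S * (1 - c) < b * c := by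
  have hq0 : 0 < q := by
    by_contra h
    push Not at h
    have := mul_nonpos_of_nonpos_of_nonneg h hS.le
    linarith
  have hs0 : 0 < s := by rw [hs]; positivity
  have hc1 : c < 1 := by nlinarith
  have hA : K < S * s := by
    have : S * s = K + K * (q ^ 2 / 4) := by rw [hs, ← hq]; ring
    rw [this]
    have : 0 < K * (q ^ 2 / 4) := by positivity
    linarith
  have hcq : c < 1 - q ^ 2 / 4 := by
    have h1 : 0 < 1 - q ^ 2 / 4 := by nlinarith
    by_contra h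
    push Not at h
    have h2 : (1 - q ^ 2 / 4) ^ 2 ≤ c ^ 2 := pow_le_pow_left₀ h1.le h 2
    have h3 : s ^ 2 = q ^ 2 * (1 + q ^ 2 / 4) ^ 2 := by rw [hs]; ring
    have h4 : 0 < q ^ 2 := by positivity
    have h5 : 0 < q ^ 4 := by positivity
    have h6 : 0 < q ^ 6 := by positivity
    nlinarith
  have hB : S * s < K * (2 - c) := by
    have : S * s = K * (1 + q ^ 2 / 4) := by rw [hs, ← hq]; ring
    rw [this]
    exact mul_lt_mul_of_pos_left (by linarith) hK
  have hsc2 : s ^ 2 = (1 - c) * (1 + c) := by linarith [hsc]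
  have hl : 1 - c ≤ s := by nlinarith
  set U : ℝ := 2 * K * (1 - c) / s with hU
  have hUs : U * s = 2 * K * (1 - c) := by rw [hU, div_mul_cancel₀ _ hs0.ne']
  have hU0 : 0 < U := by
    rw [hU]
    have : 0 < 1 - c := by linarith
    positivity
  set L1 : ℝ := 2 * S - 2 * K / s with hL1
  have hL1s : L1 * s = 2 * S * s - 2 * K := by
    rw [hL1, sub_mul, div_mul_cancel₀ _ hs0.ne']
  set L2 : ℝ := (2 * K * s - 2 * S * (1 - c)) / c with hL2
  have hL2c : L2 * c = 2 * K * s - 2 * S * (1 - c) := by rw [hL2, div_mul_cancel₀ _ hc.ne']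
  have h1 : L1 < U := by
    refine lt_of_mul_lt_mul_right ?_ hs0.le
    rw [hL1s, hUs]
    nlinarith
  have h2 : L2 < U := by
    refine lt_of_mul_lt_mul_right ?_ (mul_pos hs0 hc).le
    have e1 : L2 * (s * c) = (L2 * c) * s := by ring
    have e2 : U * (s * c) = (U * s) * c := by ring
    rw [e1, e2, hL2c, hUs]
    have e3 : (2 * K * s - 2 * S * (1 - c)) * s = 2 * K * s ^ 2 - 2 * (1 - c) * (S * s) := by ring
    rw [e3, hsc2]
    have h3 : 0 < 1 - c := by linarith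
    nlinarith [mul_lt_mul_of_pos_left hA h3]
  set M : ℝ := max 0 (max L1 L2) with hM
  have hMU : M < U := max_lt hU0 (max_lt h1 h2)
  have hM0 : 0 ≤ M := le_max_left _ _
  have hM1 : L1 ≤ M := (le_max_left _ _).trans (le_max_right _ _)
  have hM2 : L2 ≤ M := (le_max_right _ _).trans (le_max_right _ _)
  refine ⟨(M + U) / 2, by linarith, ?_, ?_, ?_, ?_⟩
  · have h3 : U ≤ 2 * S := by
      refine le_of_mul_le_mul_right ?_ hs0
      rw [hUs]
      have : 0 < 1 - c := by linarith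
      nlinarith
    linarith
  · rw [← hUs]
    exact mul_lt_mul_of_pos_right (by linarith) hs0
  · have h3 : L1 * s < (M + U) / 2 * s := mul_lt_mul_of_pos_right (by linarith) hs0
    rw [hL1s] at h3
    linarith
  · rw [← hL2c]
    exact mul_lt_mul_of_pos_right (by linarith) hc

/-- ROW X2, part 1. -/
theorem exists_box {φ : ℝ} (h1 : Real.pi / 3 ≤ φ) (h2 : φ < Real.pi / 2) :
    ∃ θ b : ℝ, 0 < θ ∧ Real.pi / 2 - φ ≤ θ ∧ θ ≤ φ ∧ 0 < b ∧ b < 2 * Real.sin φ ∧
      b * Real.sin θ < 2 * Real.cos φ * (1 - Real.cos θ) ∧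
      (2 * Real.sin φ - b) * Real.sin θ < 2 * Real.cos φ ∧
      2 * Real.cos φ * Real.sin θ - 2 * Real.sin φ * (1 - Real.cos θ) < b * Real.cos θ := by
  have hpi := Real.pi_pos
  set K := Real.cos φ with hKdef
  set S := Real.sin φ with hSdef
  have hK : 0 < K := Real.cos_pos_of_mem_Ioo ⟨by linarith, h2⟩
  have hS : 0 < S := Real.sin_pos_of_pos_of_lt_pi (by linarith) (by linarith)
  have hK2 : K ≤ 1 / 2 := by
    rw [hKdef, ← Real.cos_pi_div_three]
    exact Real.cos_le_cos_of_nonneg_of_le_pi (by linarith) (by linarith) h1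
  have hSK : S ^ 2 + K ^ 2 = 1 := Real.sin_sq_add_cos_sq φ
  have hS34 : 3 / 4 ≤ S ^ 2 := by nlinarith
  have hS1 : S ≤ 1 := Real.sin_le_one φ
  have hKS : K < S := by nlinarith
  set q := K / S with hqdef
  have hq0 : 0 < q := by positivity
  have hqS : q * S = K := div_mul_cancel₀ _ hS.ne'
  have hq3 : 3 * q ^ 2 ≤ 1 := by
    have : q ^ 2 * S ^ 2 = K ^ 2 := by rw [← mul_pow, hqS]
    nlinarith [sq_nonneg q]
  set s := q * (1 + q ^ 2 / 4) with hsdef
  have hs0 : 0 < s := by positivity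
  have hs2 : s ^ 2 ≤ 169 / 432 := by
    have e : s ^ 2 = q ^ 2 * (1 + q ^ 2 / 4) ^ 2 := by rw [hsdef]; ring
    have h3 : q ^ 2 ≤ 1 / 3 := by linarith
    have h4 : 0 ≤ q ^ 2 := sq_nonneg q
    have h5 : (1 + q ^ 2 / 4) ^ 2 ≤ (13 / 12) ^ 2 := pow_le_pow_left₀ (by linarith) (by linarith) 2
    rw [e]
    calc q ^ 2 * (1 + q ^ 2 / 4) ^ 2 ≤ 1 / 3 * (13 / 12) ^ 2 :=
          mul_le_mul h3 h5 (by positivity) (by norm_num)
      _ = 169 / 432 := by norm_num
  have hs1 : s < 1 := by nlinarith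
  have hsS : s ≤ S := by
    refine abs_le_of_sq_le_sq' ?_ hS.le |>.2
    linarith
  have hqs : q ≤ s := by
    rw [hsdef]
    nlinarith [sq_nonneg q, mul_nonneg hq0.le (sq_nonneg q)]
  have hKq : K ≤ q := by
    rw [← hqS]
    nlinarith
  have hsin : Real.sin (Real.arcsin s) = s := Real.sin_arcsin (by linarith) hs1.le
  have hcos : Real.cos (Real.arcsin s) = √(1 - s ^ 2) := Real.cos_arcsin s
  have hc0 : 0 < Real.cos (Real.arcsin s) := by
    rw [hcos]
    exact Real.sqrt_pos.2 (by nlinarith)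
  obtain ⟨b, b1, b2, b3, b4, b5⟩ := x2_real (c := Real.cos (Real.arcsin s)) hK hS hqS hsdef hc0
    (by
      have := Real.sin_sq_add_cos_sq (Real.arcsin s)
      rw [hsin] at this
      exact this) hq3
  refine ⟨Real.arcsin s, b, Real.arcsin_pos.2 hs0, ?_, ?_, b1, b2, ?_, ?_, ?_⟩
  · rw [Real.le_arcsin_iff_sin_le' ⟨by linarith, by linarith⟩, Real.sin_pi_div_two_sub]
    exact hKq.trans hqs
  · rw [Real.arcsin_le_iff_le_sin' ⟨by linarith, h2⟩]
    exact hsS
  · rw [hsin]; exact b3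
  · rw [hsin]; exact b4
  · rw [hsin]; exact b5

/-- large gaps -/
theorem Insc.box {C : Set ℂ} {φ : ℝ} (h : Insc C φ) (h1 : Real.pi / 4 < φ) : Cov C 2 := by
  rcases lt_or_ge φ (Real.pi / 3) with h2 | h2
  · exact h.box_a h1 h2
  · obtain ⟨θ, b, a1, a2, a3, a4, a5, a6, a7, a8⟩ := exists_box h2 h.lt
    exact h.box_b a1 a2 a3 a4 a5 a6 a7 a8

end Newton54P
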