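import Pool.Agent.Lib.MP_54d165_co.Plane
import Pool.Agent.Lib.MP_54d165_co.PS.X2
import Pool.Agent.Lib.MP_54d165_co.PS.L3
import Pool.Agent.Lib.MP_54d165_co.PS.S2
import Pool.Agent.Lib.MP_54d165_co.PS.N3
import Pool.Agent.Lib.MP_54d165_co.PS.B2
import Pool.Agent.Lib.MP_54d165_co.PS.J1
import Pool.Agent.Lib.MP_54d165_co.PS.Hull

/-! Assembly: centrally symmetric planar bodies. -/

set_option autoImplicit false

namespace Newton54P

open Complex Set Newton54S
open scoped RealInnerProductSpace ComplexConjugate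

/-- inscribed bodies -/
theorem cov_inscribed {C : Set ℂ} (hconv : Convex ℝ C) (hcomp : IsCompact C)
    (hint : (interior C).Nonempty) (hsym : ∀ x ∈ C, -x ∈ C)
    (hull : C ⊆ convexHull ℝ {a | a ∈ C ∧ ‖a‖ = 1}) (hne : C ≠ Metric.closedBall 0 1)
    (hreg : ∀ (k : ℕ) (θ : ℝ), 2 ≤ k → C ≠ rt θ (poly k)) : Cov C 2 := by
  by_contra hcov
  obtain ⟨ϑ, φ, hI, hmax⟩ := exists_gap hconv hcomp hint hsym hull hne
  have hD : ¬ Cov (rt ϑ C) 2 := fun h => hcov (cov_rt h)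
  have hφ : φ ≤ Real.pi / 4 := by
    by_contra hc
    push Not at hc
    exact hD (hI.box hc)
  have key : ∀ ϑ' : ℝ, Insc (rt ϑ' (rt ϑ C)) φ → ∀ δ : ℝ, 0 < δ → δ < φ →
      uv (φ + 2 * δ) ∉ rt ϑ' (rt ϑ C) := by
    intro ϑ' hI' δ hδ0 hδ hmem
    have hI'' := hI'.cj
    have hq : uv (-(φ + 2 * δ)) ∈ cj (rt ϑ' (rt ϑ C)) := by rw [uv_mem_cj, neg_neg]; exact hmem
    have hcov' : ¬ Cov (cj (rt ϑ' (rt ϑ C))) 2 := fun h => hD (cov_rt (cov_cj h))
    have hmax' : ∀ η : ℝ, ∃ a ∈ cj (rt ϑ' (rt ϑ C)), ‖a‖ = 1 ∧ Real.cos φ ≤ dt η a := by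
      intro η
      obtain ⟨a, ha, ha1, ha2⟩ := hmax (-η - ϑ')
      refine ⟨conj (uv ϑ' * a), ?_, ?_, ?_⟩
      · rw [mem_cj, Complex.conj_conj, mem_rt, ← mul_assoc, uv_neg_mul, one_mul]
        exact ha
      · rw [RCLike.norm_conj, norm_uv_mul, ha1]
      · rw [dt_conj, dt_mul_uv]
        exact ha2
    rcases lt_or_ge (Real.cos φ * Real.sin (φ + δ)) (2 * Real.sin φ * Real.cos (φ + δ)) with h | h
    · exact hcov' (hI''.loc hδ0 (by linarith) h hq)
    · exact hcov' (hI''.shift hmax' hφ hδ0 hδ h hq)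
  obtain ⟨k, hk, hC⟩ := regular hI hmax hφ key
  refine hreg k (-ϑ + φ) hk ?_
  rw [← rt_rt, ← hC, rt_rt, neg_add_cancel, rt_zero]

/-- central symmetry puts the origin into the interior -/
theorem zero_mem_int {C : Set ℂ} (hconv : Convex ℝ C) (hint : (interior C).Nonempty)
    (hsym : ∀ x ∈ C, -x ∈ C) : (0 : ℂ) ∈ interior C := by
  refine mem_int hconv hint fun η => ?_
  obtain ⟨z, hz⟩ := hint
  obtain ⟨y, hy, hlt⟩ := lt_of_mem_int hz η
  rw [dt_zero_right]
  by_cases h0 : 0 < dt η y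
  · exact ⟨y, hy, h0⟩
  · refine ⟨-z, hsym z (interior_subset hz), ?_⟩
    rw [dt_neg]
    linarith

theorem image_sym {C : Set ℂ} (hsym : ∀ x ∈ C, -x ∈ C) (u : ℂ) :
    ∀ x ∈ (fun x => u * x + 0) '' C, -x ∈ (fun x => u * x + 0) '' C := by
  rintro _ ⟨x, hx, rfl⟩
  exact ⟨-x, hsym x hx, by simp only; ring⟩

theorem image_convex {C : Set ℂ} (hconv : Convex ℝ C) (u : ℂ) :
    Convex ℝ ((fun x => u * x + 0) '' C) := by
  rintro _ ⟨x, hx, rfl⟩ _ ⟨y, hy, rfl⟩ a b ha hb hab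
  refine ⟨a • x + b • y, hconv hx hy ha hb hab, ?_⟩
  simp only [Complex.real_smul]
  ring

theorem image_int {C : Set ℂ} (hint : (interior C).Nonempty) {u : ℂ} (hu : u ≠ 0) :
    (interior ((fun x => u * x + 0) '' C)).Nonempty := by
  have h := (simHomeo u hu 0).image_interior C
  have h2 : (interior ((simHomeo u hu 0) '' C)).Nonempty := by
    rw [← h]
    exact hint.image _
  exact h2

/-- symmetric about the origin -/
theorem classify_zero {C : Set ℂ} (hconv : Convex ℝ C) (hcomp : IsCompact C)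
    (hint : (interior C).Nonempty) (hsym : ∀ x ∈ C, -x ∈ C) (hcov : ¬ Cov C 2) :
    (∃ r : ℝ, C = Metric.closedBall 0 r) ∨
      ∃ (k : ℕ) (u : ℂ), 2 ≤ k ∧ u ≠ 0 ∧ C = (fun x => u * x + 0) '' poly k := by
  have h0 := zero_mem_int hconv hint hsym
  obtain ⟨v, hv, hvmax⟩ := hcomp.exists_isMaxOn ⟨0, interior_subset h0⟩
    (continuous_norm.continuousOn)
  have hvmax' : ∀ x ∈ C, ‖x‖ ≤ ‖v‖ := fun x hx => hvmax hx
  have hR : 0 < ‖v‖ := by
    obtain ⟨y, hy, hlt⟩ := lt_of_mem_int h0 0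
    rw [dt_zero_right] at hlt
    exact lt_of_lt_of_le (lt_of_lt_of_le hlt (dt_le_norm 0 y)) (hvmax' y hy)
  have hext : ∀ u ∈ extremePoints ℝ C, ‖u‖ = ‖v‖ := by
    intro u hu
    refine le_antisymm (hvmax' u hu.1) ?_
    by_contra hc
    push Not at hc
    exact hcov (cov_extreme hconv hcomp hint hsym hu hv hc)
  set w : ℂ := (‖v‖ : ℂ)⁻¹ with hw
  have hw0 : w ≠ 0 := by
    rw [hw]
    exact inv_ne_zero (by exact_mod_cast hR.ne')
  have hwn : ‖w‖ = ‖v‖⁻¹ := by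
    rw [hw, norm_inv, Complex.norm_real, norm_norm]
  set D := (fun x => w * x + 0) '' C with hD
  have hDcov : ¬ Cov D 2 := fun h => hcov (cov_mul hw0 0 h)
  have hKM : C ⊆ convexHull ℝ {a | a ∈ C ∧ ‖a‖ = ‖v‖} := by
    have h1 := closure_convexHull_extremePoints hcomp hconv
    have hA : IsCompact {a | a ∈ C ∧ ‖a‖ = ‖v‖} := by
      have : {a | a ∈ C ∧ ‖a‖ = ‖v‖} = C ∩ Metric.sphere 0 ‖v‖ := by
        ext a
        simp
      rw [this]
      exact hcomp.inter_right Metric.isClosed_sphere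
    have h2 : IsCompact (convexHull ℝ {a | a ∈ C ∧ ‖a‖ = ‖v‖}) :=
      isCompact_convexHull_of_isCompact hA
    have h3 : convexHull ℝ (extremePoints ℝ C) ⊆ convexHull ℝ {a | a ∈ C ∧ ‖a‖ = ‖v‖} :=
      convexHull_mono fun u hu => ⟨hu.1, hext u hu⟩
    calc C = closure (convexHull ℝ (extremePoints ℝ C)) := h1.symm
      _ ⊆ convexHull ℝ {a | a ∈ C ∧ ‖a‖ = ‖v‖} := closure_minimal h3 h2.isClosed
  have hull : D ⊆ convexHull ℝ {a | a ∈ D ∧ ‖a‖ = 1} := by
    rintro _ ⟨x, hx, rfl⟩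
    have hconv2 : Convex ℝ {y : ℂ | w * y + 0 ∈ convexHull ℝ {a | a ∈ D ∧ ‖a‖ = 1}} := by
      intro a ha b hb s t hs ht hst
      have h := (convex_convexHull ℝ {a | a ∈ D ∧ ‖a‖ = 1}) ha hb hs ht hst
      have e : w * (s • a + t • b) + 0 = s • (w * a + 0) + t • (w * b + 0) := by
        simp only [Complex.real_smul]
        ring
      rw [mem_ofPred_eq, e]
      exact h
    have hsub : {a | a ∈ C ∧ ‖a‖ = ‖v‖} ⊆
        {y : ℂ | w * y + 0 ∈ convexHull ℝ {a | a ∈ D ∧ ‖a‖ = 1}} := by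
      rintro a ⟨ha, ha1⟩
      refine subset_convexHull ℝ _ ⟨⟨a, ha, rfl⟩, ?_⟩
      rw [add_zero, norm_mul, hwn, ha1, inv_mul_cancel₀ hR.ne']
    exact convexHull_min hsub hconv2 (hKM hx)
  by_contra hcon
  push Not at hcon
  obtain ⟨hc1, hc2⟩ := hcon
  have hCD : C = (fun x => w⁻¹ * x + 0) '' D := by
    rw [hD, ← image_comp]
    have : ((fun x => w⁻¹ * x + 0) ∘ fun x => w * x + 0) = (id : ℂ → ℂ) := by
      funext x
      simp only [Function.comp_apply, id_eq, add_zero]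
      rw [← mul_assoc, inv_mul_cancel₀ hw0, one_mul]
    rw [this, image_id]
  refine hDcov (cov_inscribed (image_convex hconv w) (hcomp.image (by fun_prop))
    (image_int hint hw0) (image_sym hsym w) hull ?_ ?_)
  · intro heq
    refine hc1 ‖v‖ ?_
    rw [hCD]
    change D = _ at heq
    rw [heq]
    ext x
    constructor
    · rintro ⟨y, hy, rfl⟩
      rw [mem_closedBall_zero_iff] at hy ⊢
      simp only [add_zero]
      rw [norm_mul, norm_inv, hwn, inv_inv]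
      nlinarith
    · intro hx
      rw [mem_closedBall_zero_iff] at hx
      refine ⟨w * x, ?_, ?_⟩
      · rw [mem_closedBall_zero_iff, norm_mul, hwn, inv_mul_le_iff₀ hR, mul_one]
        exact hx
      · simp only [add_zero]
        rw [← mul_assoc, inv_mul_cancel₀ hw0, one_mul]
  · intro k θ hk heq
    refine hc2 k (w⁻¹ * uv θ) hk (mul_ne_zero (inv_ne_zero hw0) (uv_ne_zero θ)) ?_
    rw [hCD]
    change D = _ at heq
    rw [heq, rt_eq_image, ← image_comp]
    congr 1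
    funext x
    simp only [Function.comp_apply, add_zero]
    ring

theorem cov_ge_two {C : Set ℂ} (hcomp : IsCompact C) (hint : (interior C).Nonempty) {k : ℕ}
    (hk : Cov C k) : 2 ≤ k := by
  by_contra hc
  push Not at hc
  obtain ⟨g, U, hU, hCU, hUg⟩ := hk
  -- a diametral pair
  obtain ⟨p, hp, hmax⟩ := (hcomp.prod hcomp).exists_isMaxOn
    ((hint.mono interior_subset).prod (hint.mono interior_subset))
    (continuous_dist.continuousOn)
  obtain ⟨x, y⟩ := p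
  have hx : x ∈ C := hp.1
  have hy : y ∈ C := hp.2
  have hmax' : ∀ a ∈ C, ∀ b ∈ C, dist a b ≤ dist x y := fun a ha b hb =>
    hmax (show (a, b) ∈ C ×ˢ C from ⟨ha, hb⟩)
  have hpos : 0 < dist x y := by
    obtain ⟨z, hz⟩ := hint
    obtain ⟨z', hz', hlt⟩ := lt_of_mem_int hz 0
    refine lt_of_lt_of_le ?_ (hmax' z (interior_subset hz) z' hz')
    rw [dist_pos]
    rintro rfl
    exact lt_irrefl _ hlt
  have hk1 : k = 1 := by
    rcases Nat.lt_or_ge 0 k with h | h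
    · omega
    · exfalso
      have hk0 : k = 0 := by omega
      subst hk0
      obtain ⟨i, -⟩ := mem_iUnion.1 (hUg (hCU hx))
      exact i.elim0
  subst hk1
  have hsub : U ⊆ g 0 '' C := by
    intro z hz
    obtain ⟨i, hi⟩ := mem_iUnion.1 (hUg hz)
    rwa [Subsingleton.elim i 0] at hi
  -- extend beyond x
  have hcont : Continuous fun t : ℝ => x + t * (x - y) := by fun_prop
  have h1 : ∀ᶠ t : ℝ in nhds 0, x + t * (x - y) ∈ U := by
    refine hcont.continuousAt.eventually_mem ?_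
    rw [Complex.ofReal_zero, zero_mul, add_zero]
    exact hU.mem_nhds (hCU hx)
  have h2 : ∀ᶠ t : ℝ in nhdsWithin 0 (Ioi 0), x + t * (x - y) ∈ U := h1.filter_mono nhdsWithin_le_nhds
  obtain ⟨t, ht, ht0⟩ := (h2.and self_mem_nhdsWithin).exists
  have ht0' : 0 < t := ht0
  obtain ⟨a, ha, hax⟩ := hsub ht
  obtain ⟨b, hb, hby⟩ := hsub (hCU hy)
  have h3 := hmax' a ha b hb
  rw [← (g 0).dist_eq a b, hax, hby] at h3
  have h4 : dist (x + t * (x - y)) y = (1 + t) * dist x y := by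
    rw [dist_eq_norm, dist_eq_norm]
    have : x + t * (x - y) - y = ((1 + t : ℝ) : ℂ) * (x - y) := by push_cast; ring
    rw [this, norm_mul, Complex.norm_real, Real.norm_of_nonneg (by linarith)]
  rw [h4] at h3
  nlinarith

end Newton54P
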