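import Pool.Agent.Lib.MP_54d165_co.PS.Basic

/-! Row N1 (about 130 lines): a boundary point where the radius increases. -/

set_option autoImplicit false

namespace Newton54P

open Complex Set Newton54S Filter
open scoped RealInnerProductSpace Topology

/-- modulo `2π` the angle of a normal can be taken in `(ϑ - π/2, ϑ)` -/
theorem n1_angle {ϑ η : ℝ} (hs : 0 < Real.sin (ϑ - η)) (hc : 0 < Real.cos (ϑ - η)) :
    ∃ n : ℤ, ϑ - Real.pi / 2 < η + n * (2 * Real.pi) ∧ η + n * (2 * Real.pi) < ϑ := by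
  have hπ := Real.pi_pos
  have h2π : (0 : ℝ) < 2 * Real.pi := by positivity
  set δ := toIocMod h2π (-Real.pi) (ϑ - η) with hδ
  have hmem := toIocMod_mem_Ioc h2π (-Real.pi) (ϑ - η)
  rw [← hδ] at hmem
  have h1 : -Real.pi < δ := hmem.1
  have h2 : δ ≤ Real.pi := by
    have := hmem.2
    linarith
  have h3 : δ + toIocDiv h2π (-Real.pi) (ϑ - η) • (2 * Real.pi) = ϑ - η :=
    toIocMod_add_toIocDiv_zsmul h2π (-Real.pi) (ϑ - η)
  set n := toIocDiv h2π (-Real.pi) (ϑ - η) with hn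
  rw [zsmul_eq_mul] at h3
  have h4 : δ = ϑ - (η + n * (2 * Real.pi)) := by linarith
  have h5 : Real.sin (ϑ - η) = Real.sin δ := by
    rw [← h3, Real.sin_add_int_mul_two_pi]
  have h6 : Real.cos (ϑ - η) = Real.cos δ := by
    rw [← h3, Real.cos_add_int_mul_two_pi]
  rw [h5] at hs
  rw [h6] at hc
  refine ⟨n, ?_, ?_⟩
  · by_contra hcon
    push Not at hcon
    have h7 : Real.pi / 2 ≤ δ := by linarith
    have h8 := Real.cos_nonpos_of_pi_div_two_le_of_le h7 (by linarith)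
    linarith
  · by_contra hcon
    push Not at hcon
    have h7 : δ ≤ 0 := by linarith
    have h8 := Real.sin_nonpos_of_nonpos_of_neg_pi_le h7 h1.le
    linarith

/-- polar form of `1 - s λ - s i` for small `s` -/
theorem n1_polar {s l T : ℝ} (hs : 0 < s) (hl : 0 < l) (hsl : s * l ≤ 1 / 2) (hs1 : s ≤ 1 / 2)
    (hsT : 2 * s ≤ T) :
    ∃ r a : ℝ, 0 < a ∧ a < T ∧ 0 < r ∧ 1 - s * l ≤ r ∧ s < 2 * a ∧
      (1 : ℂ) - s * l - s * Complex.I = r * uv (-a) := by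
  have h1 : 0 < 1 - s * l := by linarith
  set x := s / (1 - s * l) with hx
  have hx0 : 0 < x := div_pos hs h1
  set a := Real.arctan x with ha
  have ha0 : 0 < a := Real.arctan_pos.2 hx0
  have ha1 : a < Real.pi / 2 := Real.arctan_lt_pi_div_two x
  have htan : Real.tan a = x := Real.tan_arctan x
  have hcos : 0 < Real.cos a := Real.cos_arctan_pos x
  have hax : a < x := by
    have := Real.lt_tan ha0 ha1
    rwa [htan] at this
  have hx2 : x ≤ 2 * s := by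
    rw [hx, div_le_iff₀ h1]
    nlinarith
  have hcos1 : Real.cos a ≤ 1 := Real.cos_le_one a
  have hsin : Real.sin a = x * Real.cos a := by
    rw [← htan, Real.tan_mul_cos hcos.ne']
  have hsin_lt : Real.sin a < a := Real.sin_lt ha0
  refine ⟨(1 - s * l) / Real.cos a, a, ha0, by linarith, div_pos h1 hcos, ?_, ?_, ?_⟩
  · rw [le_div_iff₀ hcos]
    nlinarith
  · -- `r sin a = s`, `r < 2`
    have hr : (1 - s * l) / Real.cos a * Real.sin a = s := by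
      rw [hsin, hx]
      field_simp
    have hr0 : 0 < (1 - s * l) / Real.cos a := div_pos h1 hcos
    have hr2 : ((1 - s * l) / Real.cos a) ^ 2 = (1 - s * l) ^ 2 + s ^ 2 := by
      have e1 := Real.sin_sq_add_cos_sq a
      have e2 : ((1 - s * l) / Real.cos a * Real.sin a) ^ 2 = s ^ 2 := by rw [hr]
      have e3 : ((1 - s * l) / Real.cos a * Real.cos a) ^ 2 = (1 - s * l) ^ 2 := by
        rw [div_mul_cancel₀ _ hcos.ne']
      calc ((1 - s * l) / Real.cos a) ^ 2 = ((1 - s * l) / Real.cos a) ^ 2 * (Real.sin a ^ 2 + Real.cos a ^ 2) := by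
            rw [e1, mul_one]
        _ = ((1 - s * l) / Real.cos a * Real.sin a) ^ 2 + ((1 - s * l) / Real.cos a * Real.cos a) ^ 2 := by ring
        _ = _ := by rw [e2, e3]; ring
    have hrlt : (1 - s * l) / Real.cos a < 2 := by
      have hsl0 : 0 < s * l := mul_pos hs hl
      by_contra hcon
      push Not at hcon
      have : (4 : ℝ) ≤ ((1 - s * l) / Real.cos a) ^ 2 := by nlinarith
      rw [hr2] at this
      nlinarith
    have hsa : Real.sin a > 0 := Real.sin_pos_of_pos_of_lt_pi ha0 (by linarith [Real.pi_pos])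
    have : s < 2 * Real.sin a := by
      rw [← hr]
      exact mul_lt_mul_of_pos_right hrlt hsa
    linarith
  · apply Complex.ext
    · simp only [Complex.sub_re, Complex.one_re, Complex.mul_re, Complex.ofReal_re,
        Complex.ofReal_im, Complex.I_re, Complex.I_im, uv_re, uv_im, Real.cos_neg]
      have : (1 - s * l) / Real.cos a * Real.cos a = 1 - s * l := div_mul_cancel₀ _ hcos.ne'
      linarith
    · simp only [Complex.sub_im, Complex.one_im, Complex.mul_im, Complex.ofReal_re,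
        Complex.ofReal_im, Complex.I_re, Complex.I_im, uv_re, uv_im, Real.sin_neg]
      have : (1 - s * l) / Real.cos a * Real.sin a = s := by
        rw [hsin, hx]
        field_simp
      linarith

/-- ROW N1.  `κ = (ρ - u)/(2π) > 0`.  Compact set `Z = {(r, ϑ) | 0 ≤ r ≤ M, 0 ≤ ϑ ≤ β, r * uv ϑ ∈ C}`, `M` a bound
of the norms on `C`; let `(ρ₁, ϑ₁)` maximise `r - κ ϑ` on `Z` (`IsCompact.exists_isMaxOn`).  As `(ρ, β) ∈ Z`,
`ρ₁ - κ ϑ₁ ≥ ρ - κ β > u` (`κ β < (ρ - u)/2`); if `ϑ₁ = 0` then `ρ₁ ≤ u` (hub), contradiction; so `0 < ϑ₁`,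
`0 < u < ρ₁`.  For `0 ≤ ϑ < ϑ₁` and `r * uv ϑ ∈ C`: `r ≤ ρ₁ - κ (ϑ₁ - ϑ) < ρ₁` (trivial if `r < 0`).
NORMAL.  Put `x₁ = ρ₁ * uv ϑ₁`.  Suppose every `η` with `∀ y ∈ C, dt η y ≤ dt η x₁` satisfies
`0 ≤ dt η (I * x₁)`.  Let `λ = κ / (2 ρ₁)`, `X = λ x₁ + I * x₁`.  For such `η`, `0 < dt η x₁`
(`lt_of_mem_int h0`), so `0 < dt η X`, and by `inward` (unit normals `n = uv η`, `exists_uv`) there is `τ > 0`
with `x₁ - τ • X ∈ interior C`; by convexity `x₁ - s • X ∈ C` for `0 ≤ s ≤ τ`.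
`x₁ - s X = x₁ (1 - s λ - s I)`; write `1 - s λ - s I = r * uv (-a)` with `r = ‖·‖`,
`a = -arg ∈ (0, π/2)` for small `s`; `r ≥ 1 - s λ`, `r sin a = s`, `r ≤ 3/2`, so
`a ≥ sin a ≥ 2 s/3`, and `a → 0`, so `a < ϑ₁` for small `s`.  Then `(ρ₁ r, ϑ₁ - a) ∈ Z`, so
`ρ₁ r - κ (ϑ₁ - a) ≤ ρ₁ - κ ϑ₁`, `ρ₁ (1 - s λ) + κ a ≤ ρ₁`, `κ a ≤ ρ₁ s λ = κ s/2`, `2s/3 ≤ s/2`, a contradiction.
So there is a normal `η` at `x₁` with `dt η (I * x₁) = ρ₁ cos (ϑ₁ + π/2 - η) = -ρ₁ sin (ϑ₁ - η) < 0` and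
`0 < dt η x₁ = ρ₁ cos (ϑ₁ - η)`; modulo `2π` we may take `ϑ₁ - π/2 < η < ϑ₁` (choose `ϑ₁ - η ∈ (-π, π]`,
`toIocMod` or `Real.Angle`, or subtract `2π * n`, `dt_add_int`). -/
theorem exists_slope {C : Set ℂ} (hconv : Convex ℝ C) (hcomp : IsCompact C)
    (h0 : (0 : ℂ) ∈ interior C) {u ρ β : ℝ} (hu : 0 < u) (huC : (u : ℂ) ∈ C)
    (hub : ∀ r : ℝ, (r : ℂ) ∈ C → r ≤ u) (hβ : 0 < β) (hβπ : β < Real.pi)
    (hv : (ρ : ℂ) * uv β ∈ C) (hlt : u < ρ) :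
    ∃ ρ₁ ϑ₁ η : ℝ, 0 < ρ₁ ∧ 0 < ϑ₁ ∧ ϑ₁ ≤ β ∧ (ρ₁ : ℂ) * uv ϑ₁ ∈ C ∧
      (∀ r ϑ : ℝ, 0 ≤ ϑ → ϑ < ϑ₁ → (r : ℂ) * uv ϑ ∈ C → r < ρ₁) ∧
      ϑ₁ - Real.pi / 2 < η ∧ η < ϑ₁ ∧ ∀ y ∈ C, dt η y ≤ dt η ((ρ₁ : ℂ) * uv ϑ₁) := by
  have hπ := Real.pi_pos
  set κ : ℝ := (ρ - u) / (2 * Real.pi) with hκ
  have hκ0 : 0 < κ := div_pos (by linarith) (by positivity)
  obtain ⟨M, hM⟩ := hcomp.isBounded.exists_norm_le
  have hnorm : ∀ r ϑ : ℝ, 0 ≤ r → (r : ℂ) * uv ϑ ∈ C → r ≤ M := by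
    intro r ϑ hr h
    have h1 := hM _ h
    rwa [norm_mul, norm_uv, mul_one, Complex.norm_real, Real.norm_of_nonneg hr] at h1
  set Z : Set (ℝ × ℝ) := (Set.Icc 0 M ×ˢ Set.Icc 0 β) ∩ {p | (p.1 : ℂ) * uv p.2 ∈ C} with hZ
  have hZcomp : IsCompact Z := by
    refine (isCompact_Icc.prod isCompact_Icc).inter_right ?_
    refine hcomp.isClosed.preimage ?_
    exact (Complex.continuous_ofReal.comp continuous_fst).mul (continuous_uv.comp continuous_snd)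
  have hZmem : ∀ r ϑ : ℝ, 0 ≤ r → 0 ≤ ϑ → ϑ ≤ β → (r : ℂ) * uv ϑ ∈ C → (r, ϑ) ∈ Z := by
    intro r ϑ h1 h2 h3 h4
    exact ⟨⟨⟨h1, hnorm r ϑ h1 h4⟩, ⟨h2, h3⟩⟩, h4⟩
  have hρβ : (ρ, β) ∈ Z := hZmem ρ β (by linarith) hβ.le le_rfl hv
  obtain ⟨⟨ρ₁, ϑ₁⟩, hp, hmax⟩ := hZcomp.exists_isMaxOn ⟨_, hρβ⟩
    (f := fun p : ℝ × ℝ => p.1 - κ * p.2) (by fun_prop)
  have hmax' : ∀ r ϑ : ℝ, 0 ≤ r → 0 ≤ ϑ → ϑ ≤ β → (r : ℂ) * uv ϑ ∈ C →
      r - κ * ϑ ≤ ρ₁ - κ * ϑ₁ := by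
    intro r ϑ h1 h2 h3 h4
    exact hmax (hZmem r ϑ h1 h2 h3 h4)
  obtain ⟨⟨⟨hρ₁0, -⟩, ⟨hϑ₁0, hϑ₁β⟩⟩, hx₁⟩ := hp
  simp only [Set.mem_ofPred_eq] at hρ₁0 hϑ₁0 hϑ₁β hx₁
  have hgt : u < ρ₁ - κ * ϑ₁ := by
    have h1 := hmax' ρ β (by linarith) hβ.le le_rfl hv
    have h2 : κ * β < (ρ - u) / 2 := by
      have h3 : κ * Real.pi = (ρ - u) / 2 := by
        rw [hκ]
        field_simp
      have h4 : κ * β < κ * Real.pi := mul_lt_mul_of_pos_left hβπ hκ0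
      linarith
    linarith
  have hϑ₁ : 0 < ϑ₁ := by
    rcases hϑ₁0.eq_or_lt with h | h
    · exfalso
      rw [← h, uv_zero, mul_one] at hx₁
      have h1 := hub ρ₁ hx₁
      rw [← h, mul_zero, sub_zero] at hgt
      linarith
    · exact h
  have hρ₁ : 0 < ρ₁ := by
    have : 0 < κ * ϑ₁ := mul_pos hκ0 hϑ₁
    linarith
  -- the normal
  have hnormal : ∃ η : ℝ, (∀ y ∈ C, dt η y ≤ dt η ((ρ₁ : ℂ) * uv ϑ₁)) ∧
      dt η (Complex.I * ((ρ₁ : ℂ) * uv ϑ₁)) < 0 := by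
    by_contra hcon
    push Not at hcon
    set x₁ : ℂ := (ρ₁ : ℂ) * uv ϑ₁ with hx₁def
    set l : ℝ := κ / (2 * ρ₁) with hl
    have hl0 : 0 < l := by positivity
    set X : ℂ := (l : ℂ) * x₁ + Complex.I * x₁ with hX
    obtain ⟨τ, hτ, hint⟩ := inward hconv ⟨0, h0⟩ hx₁ X (by
      rintro n ⟨hn1, hn2⟩
      obtain ⟨η, -, -, rfl⟩ := exists_uv hn1
      rw [← dt_eq_inner]
      have h1 : ∀ y ∈ C, dt η y ≤ dt η x₁ := by
        intro y hy
        rw [dt_eq_inner, dt_eq_inner]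
        exact hn2 y hy
      have h2 := hcon η h1
      obtain ⟨y, hy, hlt⟩ := lt_of_mem_int h0 η
      rw [dt_zero_right] at hlt
      have h3 : 0 < dt η x₁ := lt_of_lt_of_le hlt (h1 y hy)
      rw [hX, dt_add, dt_real_mul]
      have := mul_pos hl0 h3
      linarith)
    set s : ℝ := min τ (min (1 / (2 * l)) (min (1 / 2) (ϑ₁ / 2))) with hs
    have hs0 : 0 < s := by
      rw [hs]
      refine lt_min hτ (lt_min (by positivity) (lt_min (by norm_num) (by linarith)))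
    have hsτ : s ≤ τ := min_le_left _ _
    have hsl : s * l ≤ 1 / 2 := by
      have h1 : s ≤ 1 / (2 * l) := (min_le_right _ _).trans (min_le_left _ _)
      rw [le_div_iff₀ (by positivity)] at h1
      linarith
    have hs1 : s ≤ 1 / 2 := (min_le_right _ _).trans ((min_le_right _ _).trans (min_le_left _ _))
    have hsϑ : s ≤ ϑ₁ / 2 := (min_le_right _ _).trans ((min_le_right _ _).trans (min_le_right _ _))
    have hxs : x₁ - s • X ∈ C := by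
      have h1 : x₁ - s • X = (1 - s / τ) • x₁ + (s / τ) • (x₁ - τ • X) := by
        rw [smul_sub, smul_smul, div_mul_cancel₀ _ hτ.ne']
        module
      rw [h1]
      refine hconv hx₁ (interior_subset hint) ?_ (by positivity) (by ring)
      rw [sub_nonneg, div_le_one hτ]
      exact hsτ
    obtain ⟨r, a, ha0, haϑ, hr0, hr1, hsa, heq⟩ := n1_polar (T := ϑ₁) hs0 hl0 hsl hs1 (by linarith)
    have h2 : x₁ - s • X = ((ρ₁ * r : ℝ) : ℂ) * uv (ϑ₁ - a) := by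
      have h3 : x₁ - s • X = x₁ * ((1 : ℂ) - s * l - s * Complex.I) := by
        rw [hX, Complex.real_smul]
        ring
      rw [h3, heq, sub_eq_add_neg ϑ₁ a, uv_add, hx₁def]
      push_cast
      ring
    rw [h2] at hxs
    have h3 := hmax' (ρ₁ * r) (ϑ₁ - a) (by positivity) (by linarith) (by linarith) hxs
    have h4 : κ * a ≤ ρ₁ * (s * l) := by nlinarith
    have h5 : ρ₁ * (s * l) = κ * s / 2 := by
      rw [hl]
      field_simp
    rw [h5] at h4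
    nlinarith
  obtain ⟨η, hη1, hη2⟩ := hnormal
  have hpos : 0 < dt η ((ρ₁ : ℂ) * uv ϑ₁) := by
    obtain ⟨y, hy, hlt⟩ := lt_of_mem_int h0 η
    rw [dt_zero_right] at hlt
    exact lt_of_lt_of_le hlt (hη1 y hy)
  have hcos : 0 < Real.cos (ϑ₁ - η) := by
    rw [dt_real_mul, dt_uv] at hpos
    exact (mul_pos_iff_of_pos_left hρ₁).1 hpos
  have hsin : 0 < Real.sin (ϑ₁ - η) := by
    have h1 : dt η (Complex.I * ((ρ₁ : ℂ) * uv ϑ₁)) = -(ρ₁ * Real.sin (ϑ₁ - η)) := by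
      simp only [dt, Complex.mul_re, Complex.mul_im, Complex.I_re, Complex.I_im, uv_re, uv_im,
        Complex.ofReal_re, Complex.ofReal_im, Real.sin_sub]
      ring
    rw [h1] at hη2
    have h2 : 0 < ρ₁ * Real.sin (ϑ₁ - η) := by linarith
    exact (mul_pos_iff_of_pos_left hρ₁).1 h2
  obtain ⟨n, hn1, hn2⟩ := n1_angle hsin hcos
  refine ⟨ρ₁, ϑ₁, η + n * (2 * Real.pi), hρ₁, hϑ₁, hϑ₁β, hx₁, ?_, hn1, hn2, ?_⟩
  · intro r ϑ h1 h2 h3
    rcases lt_or_ge r 0 with hr | hr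
    · linarith
    · have h4 := hmax' r ϑ hr h1 (by linarith) h3
      have h5 : κ * ϑ < κ * ϑ₁ := mul_lt_mul_of_pos_left h2 hκ0
      linarith
  · intro y hy
    rw [dt_add_int, dt_add_int]
    exact hη1 y hy

end Newton54P
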