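import Pool.Agent.Lib.MP_54d165_co.PS.N1

/-! Row N2 (about 150 lines): the edge position. -/

set_option autoImplicit false

namespace Newton54P

open Complex Set Newton54S

theorem n2_dec (m : ℝ) (z : ℂ) : uv m * (⟨dt m z, dt (m + Real.pi / 2) z⟩ : ℂ) = z := by
  have h := Real.sin_sq_add_cos_sq m
  apply Complex.ext
  · simp only [Complex.mul_re, uv_re, uv_im, dt, Real.cos_add_pi_div_two, Real.sin_add_pi_div_two]
    linear_combination z.re * h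
  · simp only [Complex.mul_im, uv_re, uv_im, dt, Real.cos_add_pi_div_two, Real.sin_add_pi_div_two]
    linear_combination z.im * h

theorem n2_re (m : ℝ) (x : ℂ) : dt m (uv m * x) = x.re := by
  rw [dt_mul_uv, sub_self, dt_zero_left]

theorem n2_im (m : ℝ) (x : ℂ) : dt (m + Real.pi / 2) (uv m * x) = x.im := by
  rw [dt_mul_uv, add_sub_cancel_left, dt_pi_div_two]

theorem n2_dt_ext {a b : ℝ} (h : uv a = uv b) (w : ℂ) : dt a w = dt b w := by
  have h1 := congrArg Complex.re h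
  have h2 := congrArg Complex.im h
  rw [uv_re, uv_re] at h1
  rw [uv_im, uv_im] at h2
  rw [dt, dt, h1, h2]

theorem n2_polar (m ρ ϑ : ℝ) : dt m ((ρ : ℂ) * uv ϑ) = ρ * Real.cos (ϑ - m) := by
  rw [dt_real_mul, dt_uv]

theorem n2_polar2 (m ρ ϑ : ℝ) : dt (m + Real.pi / 2) ((ρ : ℂ) * uv ϑ) = ρ * Real.sin (ϑ - m) := by
  rw [dt_real_mul, dt_uv, show ϑ - (m + Real.pi / 2) = (ϑ - m) - Real.pi / 2 by ring,
    Real.cos_sub_pi_div_two]

/-- the claim on the sum of the two ordinates -/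
theorem n2_sum {C : Set ℂ} (hconv : Convex ℝ C) {u ρ₁ ϑ₁ m : ℝ} (hu0 : 0 < u)
    (hu : (u : ℂ) ∈ extremePoints ℝ C) (hub : ∀ r : ℝ, (r : ℂ) ∈ C → r ≤ u) (hρ : 0 < ρ₁)
    (hϑ : 0 < ϑ₁) (hϑπ : ϑ₁ < Real.pi) (hx : (ρ₁ : ℂ) * uv ϑ₁ ∈ C)
    (hmax : ∀ r ϑ : ℝ, 0 ≤ ϑ → ϑ < ϑ₁ → (r : ℂ) * uv ϑ ∈ C → r < ρ₁)
    (hm1 : ϑ₁ - Real.pi / 2 < m) (hm2 : m < ϑ₁)
    (hm : ∀ y ∈ C, dt m y ≤ dt m ((ρ₁ : ℂ) * uv ϑ₁)) {p : ℂ} (hp : p ∈ C)
    (hpH : dt m p = dt m ((ρ₁ : ℂ) * uv ϑ₁))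
    (hy : dt (m + Real.pi / 2) p ≤ -(ρ₁ * Real.sin (ϑ₁ - m))) : False := by
  have hcos : 0 < Real.cos (ϑ₁ - m) :=
    Real.cos_pos_of_mem_Ioo ⟨by linarith [Real.pi_pos], by linarith⟩
  have hsin : 0 < Real.sin (ϑ₁ - m) := Real.sin_pos_of_pos_of_lt_pi (by linarith) (by linarith [Real.pi_pos])
  set H := dt m ((ρ₁ : ℂ) * uv ϑ₁) with hH
  have hHv : H = ρ₁ * Real.cos (ϑ₁ - m) := n2_polar m ρ₁ ϑ₁
  have hH0 : 0 < H := by rw [hHv]; exact mul_pos hρ hcos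
  set y₁ := dt (m + Real.pi / 2) p with hy₁
  have hρs : 0 < ρ₁ * Real.sin (ϑ₁ - m) := mul_pos hρ hsin
  have hy0 : y₁ < 0 := by linarith
  have hdec : uv m * (⟨H, y₁⟩ : ℂ) = p := by
    rw [← hpH]
    exact n2_dec m p
  obtain ⟨α, hα1, hα2, hα⟩ := exists_polar (⟨H, y₁⟩ : ℂ)
  set R := ‖(⟨H, y₁⟩ : ℂ)‖ with hR
  have hRsq : R ^ 2 = H ^ 2 + y₁ ^ 2 := by
    rw [hR, Complex.sq_norm, Complex.normSq_apply]
    ring
  have hR0 : 0 ≤ R := norm_nonneg _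
  have hRpos : 0 < R := by
    rcases hR0.eq_or_lt with h | h
    · rw [← h] at hRsq
      nlinarith
    · exact h
  have hre : H = R * Real.cos α := by
    have := congrArg Complex.re hα
    rw [Complex.re_ofReal_mul, uv_re] at this
    exact this
  have him : y₁ = R * Real.sin α := by
    have := congrArg Complex.im hα
    rw [Complex.im_ofReal_mul, uv_im] at this
    exact this
  have hcα : 0 < Real.cos α := by
    rw [hre] at hH0
    exact (mul_pos_iff_of_pos_left hRpos).1 hH0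
  have hsα : Real.sin α < 0 := by
    by_contra hc
    push Not at hc
    have := mul_nonneg hR0 hc
    linarith
  have hα0 : α < 0 := by
    by_contra hc
    push Not at hc
    have := Real.sin_nonneg_of_nonneg_of_le_pi hc hα2
    linarith
  have hα3 : -(Real.pi / 2) < α := by
    by_contra hc
    push Not at hc
    have h1 : Real.cos (-α) ≤ 0 := Real.cos_nonpos_of_pi_div_two_le_of_le (by linarith) (by linarith)
    rw [Real.cos_neg] at h1
    linarith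
  have hRρ : ρ₁ ≤ R := by
    have h1 : ρ₁ ^ 2 ≤ R ^ 2 := by
      rw [hRsq, hHv]
      have h2 : (ρ₁ * Real.sin (ϑ₁ - m)) ^ 2 ≤ y₁ ^ 2 := by nlinarith
      have h3 := Real.sin_sq_add_cos_sq (ϑ₁ - m)
      have h4 : ρ₁ ^ 2 = (ρ₁ * Real.cos (ϑ₁ - m)) ^ 2 + (ρ₁ * Real.sin (ϑ₁ - m)) ^ 2 := by
        linear_combination (-ρ₁ ^ 2) * h3
      linarith
    exact (abs_le_of_sq_le_sq' h1 hR0).2
  have hpv : p = (R : ℂ) * uv (m + α) := by
    rw [← hdec, hα, uv_add]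
    ring
  set ϑ' := m + α with hϑ'
  rcases le_or_gt 0 ϑ' with h0 | h0
  · have h1 := hmax R ϑ' h0 (by linarith) (by rw [← hpv]; exact hp)
    linarith
  · have hsϑ : 0 < Real.sin ϑ₁ := Real.sin_pos_of_pos_of_lt_pi hϑ hϑπ
    have hsϑ' : 0 < Real.sin (-ϑ') := Real.sin_pos_of_pos_of_lt_pi (by linarith) (by linarith)
    have hsd : 0 < Real.sin (ϑ₁ - ϑ') := Real.sin_pos_of_pos_of_lt_pi (by linarith) (by linarith)
    set A := ρ₁ * Real.sin ϑ₁ with hA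
    set B := R * Real.sin (-ϑ') with hB
    have hA0 : 0 < A := mul_pos hρ hsϑ
    have hB0 : 0 < B := mul_pos hRpos hsϑ'
    have hAB : 0 < A + B := by linarith
    have ha0 : 0 < A / (A + B) := div_pos hA0 hAB
    have hb0 : 0 < B / (A + B) := div_pos hB0 hAB
    have hab : A / (A + B) + B / (A + B) = 1 := by rw [← add_div, div_self hAB.ne']
    set x₁ : ℂ := (ρ₁ : ℂ) * uv ϑ₁ with hx₁
    set z : ℂ := (A / (A + B)) • p + (B / (A + B)) • x₁ with hz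
    have hzC : z ∈ C := hconv hp hx ha0.le hb0.le hab
    have hzo : z ∈ openSegment ℝ p x₁ := ⟨_, _, ha0, hb0, hab, rfl⟩
    have hpim : p.im = -B := by
      rw [hpv, Complex.im_ofReal_mul, uv_im, hB, Real.sin_neg]
      ring
    have hpre : p.re = R * Real.cos ϑ' := by
      rw [hpv, Complex.re_ofReal_mul, uv_re]
    have hxim : x₁.im = A := by
      rw [hx₁, Complex.im_ofReal_mul, uv_im]
    have hxre : x₁.re = ρ₁ * Real.cos ϑ₁ := by
      rw [hx₁, Complex.re_ofReal_mul, uv_re]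
    have hzim : z.im = 0 := by
      rw [hz, Complex.add_im, Complex.smul_im, Complex.smul_im, hpim, hxim, smul_eq_mul, smul_eq_mul]
      field_simp
      ring
    have hzre : z.re = R * ρ₁ * Real.sin (ϑ₁ - ϑ') / (A + B) := by
      rw [hz, Complex.add_re, Complex.smul_re, Complex.smul_re, hpre, hxre, smul_eq_mul, smul_eq_mul,
        Real.sin_sub, hA, hB, Real.sin_neg]
      ring
    have hzr : z = ((z.re : ℝ) : ℂ) := by
      apply Complex.ext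
      · simp
      · simp [hzim]
    have hr0 : 0 < z.re := by rw [hzre]; positivity
    have hdz : dt m z = H := by
      rw [hz, dt_add, dt_smul, dt_smul, hpH, ← hH, ← add_mul, hab, one_mul]
    have hdz2 : dt m z = z.re * Real.cos m := by
      rw [dt, hzim]
      ring
    have hcm : 0 < Real.cos m := by
      rw [← hdz, hdz2] at hH0
      exact (mul_pos_iff_of_pos_left hr0).1 hH0
    have huC : (u : ℂ) ∈ C := extremePoints_subset hu
    have hud : dt m (u : ℂ) = u * Real.cos m := by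
      simp [dt]
    have h1 : u * Real.cos m ≤ z.re * Real.cos m := by
      rw [← hud, ← hdz2, hdz]
      exact hm _ huC
    have h2 : u ≤ z.re := le_of_mul_le_mul_right h1 hcm
    have h3 : z.re ≤ u := hub _ (by rw [← hzr]; exact hzC)
    have h4 : z.re = u := le_antisymm h3 h2
    rw [h4] at hzr
    rw [hzr] at hzo
    have h5 := (mem_extremePoints.1 hu).2 p hp x₁ hx hzo
    have h6 : p = x₁ := h5.1.trans h5.2.symm
    have h7 : y₁ = ρ₁ * Real.sin (ϑ₁ - m) := by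
      rw [hy₁, h6, hx₁]
      exact n2_polar2 m ρ₁ ϑ₁
    linarith

/-- ROW N2.  Conclusion: for the body rotated by `-m` the hypotheses of the edge lemma hold.
Let `x₁ = ρ₁ * uv ϑ₁`.  `N = {η ∈ [ϑ₁ - π/2, ϑ₁] | ∀ y ∈ C, dt η y ≤ dt η x₁}` is compact and nonempty; let `m` be
its minimum; `m ≤ η < ϑ₁`; `0 < dt m x₁ = ρ₁ cos (ϑ₁ - m)` (`lt_of_mem_int h0 m`) so `ϑ₁ - π/2 < m`.
`H = dt m x₁`.  `F = {y ∈ C | dt m y = H}` is compact, contains `x₁`; let `p`, `q` minimise and maximise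
`dt (m + π/2)` on `F`, with values `y₁ ≤ y₂`; `x₁` has the value `ρ₁ sin (ϑ₁ - m) > 0`.
`uv (-m) * p = ⟨H, y₁⟩`, and in general `uv (-m) * z = ⟨dt m z, dt (m + π/2) z⟩`, i.e.
`z = uv m * ⟨dt m z, dt (m + π/2) z⟩`; `x ∈ rt (-m) C` iff `uv m * x ∈ C`, `dt m (uv m * x) = x.re`,
`dt (m + π/2) (uv m * x) = x.im`.
CLAIM `0 < y₁ + y₂`.  Suppose `y₁ ≤ -y₂ ≤ -ρ₁ sin (ϑ₁ - m) < 0`.  Then `‖p‖² = H² + y₁² ≥ ρ₁²`.
Write `p = ‖p‖ uv (m - ω)`, `ω = arctan (-y₁/H) ∈ (0, π/2)`, `ϑ' = m - ω < ϑ₁`.  If `0 ≤ ϑ'` then hmax gives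
`‖p‖ < ρ₁`, a contradiction.  If `ϑ' < 0`: `ϑ' < 0 < ϑ₁ < ϑ' + π` (`ϑ₁ - ϑ' = (ϑ₁ - m) + ω < π`), so the segment
`[p, x₁]` meets the positive real axis: the point
`z = (sin ϑ₁ ρ₁ p + sin (-ϑ') ‖p‖ x₁)/(sin ϑ₁ ρ₁ + sin (-ϑ') ‖p‖)` has imaginary part zero (both coefficients are positive,
`0 < ϑ₁ < π`, `-π < ϑ' < 0`), so it lies in the open segment; `dt m z = H`, `z = r` real,
`r = ‖p‖ ρ₁ sin (ϑ₁ - ϑ')/(...) > 0`, so `r ≤ u` (hub), and `dt m u = u cos m ≤ H = r cos m`, with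
`cos m > 0` (as `H, r > 0`), so `u ≤ r`, `u = r` lies in `openSegment ℝ p x₁`, and `p ≠ x₁`
(`dt (m + π/2) p = y₁ < 0 <` that of `x₁`); this contradicts `hu` (`mem_extremePoints`).
ONE SIDE.  If `y₁ < y₂` done (left alternative).  Otherwise `F = {x₁}` and `⟨H, y₁⟩ = uv (-m) * x₁`.  Let `sin η' < 0` and suppose
`dt η' y ≤ dt η' ⟨H, y₁⟩` for `y ∈ rt (-m) C`; so `η'' = η' + m` is a normal direction at `x₁` (`dt_mul_uv`); reduce
`η'` mod `2π` to `(-π, 0)`, so `η'' ∈ (m - π, m)`.  If `ϑ₁ - π/2 ≤ η''` then `η'' ∈ N`, contradicting the choice of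
`m`.  Otherwise `ϑ₁ - η'' ∈ (π/2, 3π/2)` (`ϑ₁ - η'' < ϑ₁ - m + π < 3π/2`), so `dt η'' x₁ = ρ₁ cos (ϑ₁ - η'') < 0`, but
`0 < dt η'' x₁` (`lt_of_mem_int h0`), a contradiction. -/
theorem exists_edge {C : Set ℂ} (hcomp : IsCompact C) (hconv : Convex ℝ C)
    (h0 : (0 : ℂ) ∈ interior C) {u ρ₁ ϑ₁ η : ℝ} (hu0 : 0 < u)
    (hu : (u : ℂ) ∈ extremePoints ℝ C) (hub : ∀ r : ℝ, (r : ℂ) ∈ C → r ≤ u) (hρ : 0 < ρ₁)
    (hϑ : 0 < ϑ₁) (hϑπ : ϑ₁ < Real.pi) (hx : (ρ₁ : ℂ) * uv ϑ₁ ∈ C)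
    (hmax : ∀ r ϑ : ℝ, 0 ≤ ϑ → ϑ < ϑ₁ → (r : ℂ) * uv ϑ ∈ C → r < ρ₁)
    (hη1 : ϑ₁ - Real.pi / 2 < η) (hη2 : η < ϑ₁)
    (hη : ∀ y ∈ C, dt η y ≤ dt η ((ρ₁ : ℂ) * uv ϑ₁)) :
    ∃ m H y₁ y₂ : ℝ, (∀ x ∈ rt (-m) C, x.re ≤ H) ∧ (⟨H, y₁⟩ : ℂ) ∈ rt (-m) C ∧
      (⟨H, y₂⟩ : ℂ) ∈ rt (-m) C ∧ (∀ x ∈ rt (-m) C, x.re = H → y₁ ≤ x.im ∧ x.im ≤ y₂) ∧
      0 < y₁ + y₂ ∧ (y₁ < y₂ ∨ ∀ η : ℝ, Real.sin η < 0 →
        ¬ ∀ y ∈ rt (-m) C, dt η y ≤ dt η ⟨H, y₁⟩) := by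
  set x₁ : ℂ := (ρ₁ : ℂ) * uv ϑ₁ with hx₁
  set N : Set ℝ := Icc (ϑ₁ - Real.pi / 2) ϑ₁ ∩ ⋂ y ∈ C, {η | dt η y ≤ dt η x₁} with hN
  have hNc : IsCompact N := by
    apply isCompact_Icc.inter_right
    apply isClosed_biInter
    intro y _
    have h1 : ∀ w : ℂ, Continuous fun η : ℝ => dt η w := fun w =>
      continuous_dt.comp (continuous_id.prodMk continuous_const)
    exact isClosed_le (h1 y) (h1 x₁)
  have hmemN : ∀ t : ℝ, t ∈ N ↔ (ϑ₁ - Real.pi / 2 ≤ t ∧ t ≤ ϑ₁) ∧ ∀ y ∈ C, dt t y ≤ dt t x₁ := by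
    intro t
    rw [hN, mem_inter_iff, mem_Icc, mem_iInter₂]
    rfl
  have hNne : N.Nonempty := ⟨η, (hmemN η).2 ⟨⟨hη1.le, hη2.le⟩, hη⟩⟩
  obtain ⟨m, hmN, hmin⟩ := hNc.exists_isLeast hNne
  obtain ⟨⟨hm1, hm2⟩, hm⟩ := (hmemN m).1 hmN
  have hmη : m ≤ η := hmin ((hmemN η).2 ⟨⟨hη1.le, hη2.le⟩, hη⟩)
  have hm2' : m < ϑ₁ := by linarith
  have hpos : ∀ t : ℝ, (∀ y ∈ C, dt t y ≤ dt t x₁) → 0 < dt t x₁ := by
    intro t ht
    obtain ⟨y, hy, hlt⟩ := lt_of_mem_int h0 t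
    rw [dt_zero_right] at hlt
    exact hlt.trans_le (ht y hy)
  have hm1' : ϑ₁ - Real.pi / 2 < m := by
    rcases hm1.eq_or_lt with h | h
    · exfalso
      have h1 := hpos m hm
      rw [hx₁, n2_polar, ← h, sub_sub_cancel, Real.cos_pi_div_two, mul_zero] at h1
      exact lt_irrefl _ h1
    · exact h
  set H := dt m x₁ with hH
  have hcdt : ∀ t : ℝ, Continuous fun w : ℂ => dt t w := fun t =>
    continuous_dt.comp (continuous_const.prodMk continuous_id)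
  set F : Set ℂ := C ∩ {y | dt m y = H} with hF
  have hFc : IsCompact F := hcomp.inter_right (isClosed_eq (hcdt m) continuous_const)
  have hFne : F.Nonempty := ⟨x₁, hx, rfl⟩
  obtain ⟨p, hpF, hpmin⟩ := hFc.exists_isMinOn hFne (hcdt (m + Real.pi / 2)).continuousOn
  obtain ⟨q, hqF, hqmax⟩ := hFc.exists_isMaxOn hFne (hcdt (m + Real.pi / 2)).continuousOn
  have hpm : ∀ y ∈ F, dt (m + Real.pi / 2) p ≤ dt (m + Real.pi / 2) y := fun y hy => hpmin hy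
  have hqm : ∀ y ∈ F, dt (m + Real.pi / 2) y ≤ dt (m + Real.pi / 2) q := fun y hy => hqmax hy
  have hxF : x₁ ∈ F := ⟨hx, rfl⟩
  have hgx : dt (m + Real.pi / 2) x₁ = ρ₁ * Real.sin (ϑ₁ - m) := n2_polar2 m ρ₁ ϑ₁
  have hsin : 0 < Real.sin (ϑ₁ - m) := Real.sin_pos_of_pos_of_lt_pi (by linarith) (by linarith [Real.pi_pos])
  have hmem : ∀ x : ℂ, x ∈ rt (-m) C ↔ uv m * x ∈ C := by
    intro x
    rw [mem_rt, neg_neg]
  refine ⟨m, H, dt (m + Real.pi / 2) p, dt (m + Real.pi / 2) q, ?_, ?_, ?_, ?_, ?_, ?_⟩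
  · intro x hx
    rw [hmem] at hx
    have h1 := hm _ hx
    rw [n2_re] at h1
    exact h1
  · rw [hmem]
    have h1 : dt m p = H := hpF.2
    rw [← h1, n2_dec]
    exact hpF.1
  · rw [hmem]
    have h1 : dt m q = H := hqF.2
    rw [← h1, n2_dec]
    exact hqF.1
  · intro x hx hxH
    rw [hmem] at hx
    have h1 : uv m * x ∈ F := ⟨hx, by show dt m (uv m * x) = H; rw [n2_re, hxH]⟩
    have h2 := hpm _ h1
    have h3 := hqm _ h1
    rw [n2_im] at h2 h3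
    exact ⟨h2, h3⟩
  · by_contra hc
    push Not at hc
    have h1 := hqm _ hxF
    rw [hgx] at h1
    exact n2_sum hconv hu0 hu hub hρ hϑ hϑπ hx hmax hm1' hm2' hm hpF.1 hpF.2 (by linarith)
  · rcases lt_or_ge (dt (m + Real.pi / 2) p) (dt (m + Real.pi / 2) q) with hlt | hge
    · exact Or.inl hlt
    · right
      have h1 := hpm _ hxF
      have h2 := hqm _ hxF
      have h3 : dt (m + Real.pi / 2) p = dt (m + Real.pi / 2) x₁ := le_antisymm h1 (h2.trans hge)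
      intro η' hη' hall
      have hdec : uv m * (⟨H, dt (m + Real.pi / 2) p⟩ : ℂ) = x₁ := by
        rw [h3, hH]
        exact n2_dec m x₁
      obtain ⟨α, hα1, hα2, hα⟩ := exists_uv (norm_uv η')
      have hsα : Real.sin α < 0 := by
        have := congrArg Complex.im hα
        rw [uv_im, uv_im] at this
        rwa [← this]
      have hα0 : α < 0 := by
        by_contra hc
        push Not at hc
        have := Real.sin_nonneg_of_nonneg_of_le_pi hc hα2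
        linarith
      have huvm : uv (η' + m) = uv (α + m) := by rw [uv_add, uv_add, hα]
      have hnorm : ∀ y ∈ C, dt (α + m) y ≤ dt (α + m) x₁ := by
        intro y hy
        have h4 : uv (-m) * y ∈ rt (-m) C := by
          rw [hmem, ← mul_assoc, uv_mul_neg, one_mul]
          exact hy
        have h5 := hall _ h4
        have h6 : dt η' (uv (-m) * y) = dt (α + m) y := by
          rw [dt_mul_uv, sub_neg_eq_add]
          exact n2_dt_ext huvm y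
        have h7 : dt η' (⟨H, dt (m + Real.pi / 2) p⟩ : ℂ) = dt (α + m) x₁ := by
          rw [← hdec, dt_mul_uv, add_sub_cancel_right]
          exact n2_dt_ext hα _
        rw [h6, h7] at h5
        exact h5
      rcases le_or_gt (ϑ₁ - Real.pi / 2) (α + m) with h4 | h4
      · have h5 := hmin ((hmemN (α + m)).2 ⟨⟨h4, by linarith⟩, hnorm⟩)
        linarith
      · have h5 := hpos (α + m) hnorm
        rw [hx₁, n2_polar] at h5
        have h6 : Real.cos (ϑ₁ - (α + m)) < 0 :=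
          Real.cos_neg_of_pi_div_two_lt_of_lt (by linarith) (by linarith)
        have h7 := mul_neg_of_pos_of_neg hρ h6
        linarith

end Newton54P
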