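import Pool.Agent.Lib.MP_54d165_co.PS.A1

/-! Row S1 (about 110 lines): covering by a rotated and shifted copy. -/

set_option autoImplicit false

namespace Newton54P

open Complex Set Newton54S

/-- (D) for all directions -/
private theorem s1_all {C : Set ℂ} {φ : ℝ} (h : Insc C φ) {θ t : ℝ}
    (hD : ∀ ψ : ℝ, 0 ≤ ψ → ψ ≤ Real.pi / 2 →
      (∃ a ∈ C, Real.cos φ * Real.cos ψ + t * Real.sin ψ < dt (θ + ψ) a) ∧
      ∃ a ∈ C, Real.cos φ * Real.cos ψ + t * Real.sin ψ < dt (θ - ψ) a) (η : ℝ) :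
    ∃ a ∈ C, Real.cos φ * |Real.cos η| + t * |Real.sin η| < dt (θ + η) a := by
  set ψ := Real.arccos |Real.cos η| with hψ
  have hc : Real.cos ψ = |Real.cos η| :=
    Real.cos_arccos (by linarith [abs_nonneg (Real.cos η)]) (Real.abs_cos_le_one η)
  have h0 : 0 ≤ ψ := Real.arccos_nonneg _
  have h1 : ψ ≤ Real.pi / 2 := Real.arccos_le_pi_div_two.2 (abs_nonneg _)
  have hs0 : 0 ≤ Real.sin ψ := Real.sin_nonneg_of_nonneg_of_le_pi h0 (by linarith [Real.pi_pos])
  have hs : Real.sin ψ = |Real.sin η| := by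
    have e1 := Real.sin_sq_add_cos_sq ψ
    have e2 := Real.sin_sq_add_cos_sq η
    have e3 : Real.cos ψ ^ 2 = Real.cos η ^ 2 := by rw [hc, sq_abs]
    have e4 : Real.sin ψ ^ 2 = |Real.sin η| ^ 2 := by rw [sq_abs]; linarith
    exact (sq_eq_sq₀ hs0 (abs_nonneg _)).1 e4
  obtain ⟨⟨a, ha, hlt⟩, b, hb, hlt'⟩ := hD ψ h0 h1
  rw [hc, hs] at hlt hlt'
  rcases le_or_gt 0 (Real.cos η) with hcη | hcη <;> rcases le_or_gt 0 (Real.sin η) with hsη | hsη
  · refine ⟨a, ha, hlt.trans_eq ?_⟩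
    rw [abs_of_nonneg hcη] at hc
    rw [abs_of_nonneg hsη] at hs
    simp only [dt, Real.cos_add, Real.sin_add, hc, hs]
  · refine ⟨b, hb, hlt'.trans_eq ?_⟩
    rw [abs_of_nonneg hcη] at hc
    rw [abs_of_neg hsη] at hs
    simp only [dt, Real.cos_add, Real.sin_add, Real.cos_sub, Real.sin_sub, hc, hs]
    ring
  · refine ⟨-b, h.sym b hb, hlt'.trans_eq ?_⟩
    rw [abs_of_neg hcη] at hc
    rw [abs_of_nonneg hsη] at hs
    simp only [dt, Real.cos_add, Real.sin_add, Real.cos_sub, Real.sin_sub, hc, hs,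
      Complex.neg_re, Complex.neg_im]
    ring
  · refine ⟨-a, h.sym a ha, hlt.trans_eq ?_⟩
    rw [abs_of_neg hcη] at hc
    rw [abs_of_neg hsη] at hs
    simp only [dt, Real.cos_add, Real.sin_add, hc, hs, Complex.neg_re, Complex.neg_im]
    ring

private theorem s1_dtm (η t : ℝ) (x : ℂ) :
    dt η (x - t * Complex.I) = dt η x - t * Real.sin η := by
  simp only [dt, Complex.sub_re, Complex.sub_im, Complex.mul_re, Complex.mul_im,
    Complex.ofReal_re, Complex.ofReal_im, Complex.I_re, Complex.I_im]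
  ring

private theorem s1_mem {C : Set ℂ} {φ : ℝ} (h : Insc C φ) {θ t : ℝ} {x : ℂ}
    (hx : ∀ η : ℝ, ∃ a ∈ C, dt η x - t * Real.sin η < dt (θ + η) a) :
    uv θ * x + -(uv θ * (t * Complex.I)) ∈ interior C := by
  refine h.mem_int fun η => ?_
  obtain ⟨a, ha, hlt⟩ := hx (η - θ)
  refine ⟨a, ha, ?_⟩
  have e : uv θ * x + -(uv θ * (t * Complex.I)) = uv θ * (x - t * Complex.I) := by ring
  rw [e, dt_mul_uv, s1_dtm]
  rwa [show θ + (η - θ) = η by ring] at hlt

/-- ROW S1.  `h.cov_two` with its `t = 0` (`|0| < sin φ`), `α = uv θ`, `c = -(uv θ * (t * I))`; then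
`α x + c = uv θ * (x - t I)` and `dt (η) (uv θ * (x - t I)) = dt (η - θ) (x - t I)
= dt (η - θ) x - t sin (η - θ)`.  By `h.mem_int` it suffices for each of the points `x` below to find, for each
`η` (this is `η - θ`), a point `a ∈ C` with `dt η x - t sin η < dt (θ + η) a`.  Note `0 < t` (ht2).
FACTS: (M) for every `η` some `a ∈ C` has `cos φ ≤ dt (θ + η) a` (hmax);
(D) for every `η` some `a ∈ C` has `cos φ * |cos η| + t * |sin η| < dt (θ + η) a`: reduce `η` mod `2π` to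
`[-π, π]`; write `|η| = ψ` or `π - ψ`, `ψ ∈ [0, π/2]`, and use hD, with `-a` in place of `a` in the second case
(`h.sym`, `dt_add_pi`).
* `x = ± cos φ` (the points `± ⟨cos φ, 0⟩`): `dt η x - t sin η ≤ cos φ |cos η| + t |sin η|`, use (D).
* `x = a₀`, a unit vector of `C` with `0 < a₀.im`: `sin φ ≤ a₀.im` (`h.im_ge`), `|a₀.re| ≤ cos φ`, `a₀.im ≤ 1`.
 If `sin η ≤ 0`: `dt η a₀ - t sin η ≤ cos φ |cos η| + t |sin η|`, (D).
 If `sin η > 0` and `|cos η| ≤ cos φ`: then `sin φ ≤ sin η`, `dt η a₀ ≤ 1` (`dt_le_norm`), and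
 `1 - t sin η ≤ 1 - t sin φ < cos φ` (ht), use (M).
 If `sin η > 0` and `cos φ < |cos η|`: then `sin η < sin φ` and
 `dt η a₀ ≤ cos φ |cos η| + sin φ sin η` (write `a₀ = ⟨r, s⟩`, `|r| ≤ cos φ`, `sin φ ≤ s`, `r² + s² = 1`:
 `(r, s)`, `(cos φ, sin φ)` are unit vectors, `cos φ |cos η| + sin φ sin η - |r| |cos η| - s sin η ≥ 0` since
 `(cos φ - |r|) |cos η| ≥ (s - sin φ) sin η`, because `(cos φ - |r|)(cos φ + |r|) = (s - sin φ)(s + sin φ)` and
 `|cos η| (s + sin φ) ≥ sin η (cos φ + |r|)`, as `|cos η| ≥ cos φ ≥ |r|`, `s ≥ sin φ ≥ sin η`);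
 so `dt η a₀ - t sin η ≤ cos φ |cos η| + (sin φ - t) sin η ≤ cos φ |cos η| + t |sin η|` (ht2), use (D). -/
theorem Insc.shift_core {C : Set ℂ} {φ : ℝ} (h : Insc C φ)
    (hmax : ∀ η : ℝ, ∃ a ∈ C, ‖a‖ = 1 ∧ Real.cos φ ≤ dt η a) {θ t : ℝ}
    (ht : 1 - Real.cos φ < t * Real.sin φ) (ht2 : Real.sin φ ≤ 2 * t)
    (hD : ∀ ψ : ℝ, 0 ≤ ψ → ψ ≤ Real.pi / 2 →
      (∃ a ∈ C, Real.cos φ * Real.cos ψ + t * Real.sin ψ < dt (θ + ψ) a) ∧
      ∃ a ∈ C, Real.cos φ * Real.cos ψ + t * Real.sin ψ < dt (θ - ψ) a) : Cov C 2 := by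
  classical
  have hcp := h.cos_pos
  have hsp := h.sin_pos
  have ht0 : 0 < t := by linarith
  have hall := s1_all h hD
  have hsc := Real.sin_sq_add_cos_sq φ
  have hc1 : Real.cos φ ≤ 1 := Real.cos_le_one φ
  -- the points on the real axis
  have hreal : ∀ r : ℝ, |r| ≤ Real.cos φ →
      uv θ * (⟨r, 0⟩ : ℂ) + -(uv θ * (t * Complex.I)) ∈ interior C := by
    intro r hr
    refine s1_mem h fun η => ?_
    obtain ⟨a, ha, hlt⟩ := hall η
    refine ⟨a, ha, lt_of_le_of_lt ?_ hlt⟩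
    have e1 : dt η (⟨r, 0⟩ : ℂ) = r * Real.cos η := by simp [dt]
    rw [e1]
    have e2 : r * Real.cos η ≤ Real.cos φ * |Real.cos η| := by
      calc r * Real.cos η ≤ |r * Real.cos η| := le_abs_self _
        _ = |r| * |Real.cos η| := abs_mul _ _
        _ ≤ Real.cos φ * |Real.cos η| := mul_le_mul_of_nonneg_right hr (abs_nonneg _)
    have e3 : -(t * Real.sin η) ≤ t * |Real.sin η| := by
      rw [← mul_neg]
      exact mul_le_mul_of_nonneg_left (neg_le_abs _) ht0.le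
    linarith
  refine h.cov_two (t := 0) (by rw [abs_zero]; exact hsp) (norm_uv θ)
    (c := -(uv θ * (t * Complex.I))) (hreal _ (by rw [abs_of_pos hcp])) ?_ ?_
  · have e : (-⟨Real.cos φ, 0⟩ : ℂ) = ⟨-Real.cos φ, 0⟩ := by apply Complex.ext <;> simp
    rw [e]
    exact hreal _ (by rw [abs_neg, abs_of_pos hcp])
  · intro a₀ ha₀ hn him
    have hs := h.im_ge ha₀ hn him
    have hr := h.abs_re ha₀ hn
    have hnorm : a₀.re ^ 2 + a₀.im ^ 2 = 1 := by
      have := Complex.sq_norm a₀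
      rw [hn, Complex.normSq_apply] at this
      nlinarith
    have him1 : a₀.im ≤ 1 := by nlinarith [sq_nonneg a₀.re]
    refine s1_mem h fun η => ?_
    have hηsc := Real.sin_sq_add_cos_sq η
    have hre : a₀.re * Real.cos η ≤ |a₀.re| * |Real.cos η| := by
      rw [← abs_mul]
      exact le_abs_self _
    have hre2 : |a₀.re| * |Real.cos η| ≤ Real.cos φ * |Real.cos η| :=
      mul_le_mul_of_nonneg_right hr (abs_nonneg _)
    rcases le_or_gt (Real.sin η) 0 with hsη | hsη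
    · obtain ⟨a, ha, hlt⟩ := hall η
      refine ⟨a, ha, lt_of_le_of_lt ?_ hlt⟩
      rw [abs_of_nonpos hsη]
      have e1 : a₀.im * Real.sin η ≤ 0 := mul_nonpos_of_nonneg_of_nonpos him.le hsη
      simp only [dt]
      linarith
    rcases le_or_gt |Real.cos η| (Real.cos φ) with hcη | hcη
    · obtain ⟨a, ha, -, hle⟩ := hmax (θ + η)
      refine ⟨a, ha, lt_of_lt_of_le ?_ hle⟩
      have e1 : Real.sin φ ≤ Real.sin η := by
        have e2 : Real.cos η ^ 2 ≤ Real.cos φ ^ 2 := by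
          rw [← sq_abs (Real.cos η)]
          exact pow_le_pow_left₀ (abs_nonneg _) hcη 2
        nlinarith
      have e3 := dt_le_norm η a₀
      rw [hn] at e3
      have e4 : t * Real.sin φ ≤ t * Real.sin η := mul_le_mul_of_nonneg_left e1 ht0.le
      linarith
    · obtain ⟨a, ha, hlt⟩ := hall η
      refine ⟨a, ha, lt_of_le_of_lt ?_ hlt⟩
      rw [abs_of_pos hsη]
      have e1 : Real.sin η ≤ Real.sin φ := by
        have e2 : Real.cos φ ^ 2 ≤ Real.cos η ^ 2 := by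
          rw [← sq_abs (Real.cos η)]
          exact pow_le_pow_left₀ hcp.le hcη.le 2
        nlinarith
      have hr0 := abs_nonneg a₀.re
      have hrr : |a₀.re| ^ 2 = a₀.re ^ 2 := sq_abs _
      -- the key inequality
      have key : (a₀.im - Real.sin φ) * Real.sin η ≤
          (Real.cos φ - |a₀.re|) * |Real.cos η| := by
        have f1 : (Real.cos φ - |a₀.re|) * (Real.cos φ + |a₀.re|) =
            (a₀.im - Real.sin φ) * (a₀.im + Real.sin φ) := by nlinarith
        have f2 : Real.sin η * (Real.cos φ + |a₀.re|) ≤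
            |Real.cos η| * (a₀.im + Real.sin φ) := by
          have g1 : Real.sin η * Real.cos φ ≤ Real.sin φ * |Real.cos η| :=
            mul_le_mul e1 hcη.le hcp.le hsp.le
          have g2 : Real.sin η * |a₀.re| ≤ a₀.im * |Real.cos η| :=
            mul_le_mul (e1.trans hs) (hr.trans hcη.le) hr0 him.le
          linarith
        have f3 : 0 < Real.cos φ + |a₀.re| := by linarith
        have f4 : 0 ≤ a₀.im - Real.sin φ := by linarith
        have f5 := mul_le_mul_of_nonneg_left f2 f4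
        have f6 : (a₀.im - Real.sin φ) * Real.sin η * (Real.cos φ + |a₀.re|) ≤
            (Real.cos φ - |a₀.re|) * |Real.cos η| * (Real.cos φ + |a₀.re|) := by
          calc (a₀.im - Real.sin φ) * Real.sin η * (Real.cos φ + |a₀.re|)
              = (a₀.im - Real.sin φ) * (Real.sin η * (Real.cos φ + |a₀.re|)) := by ring
            _ ≤ (a₀.im - Real.sin φ) * (|Real.cos η| * (a₀.im + Real.sin φ)) := f5
            _ = |Real.cos η| * ((a₀.im - Real.sin φ) * (a₀.im + Real.sin φ)) := by ring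
            _ = |Real.cos η| * ((Real.cos φ - |a₀.re|) * (Real.cos φ + |a₀.re|)) := by rw [f1]
            _ = (Real.cos φ - |a₀.re|) * |Real.cos η| * (Real.cos φ + |a₀.re|) := by ring
        exact le_of_mul_le_mul_right f6 f3
      simp only [dt]
      have e5 : Real.sin φ * Real.sin η ≤ 2 * t * Real.sin η :=
        mul_le_mul_of_nonneg_right ht2 hsη.le
      nlinarith

end Newton54P
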