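import Pool.Agent.Lib.MP_54d165_co.PS.A1

/-! Row X1 (about 120 lines): large gaps, the half fits into a rotated rectangle. -/

set_option autoImplicit false

namespace Newton54P

open Complex Set Newton54S

/-- ROW X1, part 1.  `Insc.cov_two` with `t = 0`, `α = -I = uv (-π/2)`, `c = -1/2`.  A point `x` is mapped to
`⟨x.im - 1/2, -x.re⟩`.  For a unit vector `a ∈ C` with `0 < a.im`: `0 < a.im ≤ 1` and `|a.re| ≤ cos φ`
(`h.abs_re`), and `1/2 < cos φ` (as `φ < π/3`, `Real.cos_pi_div_three`), `cos φ < sin φ` (as `π/4 < φ`, e.g.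
`Real.cos_pi_div_two_sub` and monotonicity), so `h.rect` applies; `± y = ± cos φ` are mapped to
`⟨-1/2, ∓ cos φ⟩`. -/
theorem Insc.box_a {C : Set ℂ} {φ : ℝ} (h : Insc C φ) (h1 : Real.pi / 4 < φ)
    (h2 : φ < Real.pi / 3) : Cov C 2 := by
  have hpi := Real.pi_pos
  have hc : 1 / 2 < Real.cos φ := by
    have := Real.cos_lt_cos_of_nonneg_of_le_pi h.pos.le (by linarith) h2
    rwa [Real.cos_pi_div_three] at this
  have hcs : Real.cos φ < Real.sin φ := by
    rw [← Real.cos_pi_div_two_sub]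
    exact Real.cos_lt_cos_of_nonneg_of_le_pi (by linarith [h.lt]) (by linarith [h.lt]) (by linarith)
  have hval : ∀ x : ℂ, uv (-(Real.pi / 2)) * x + ((-1 / 2 : ℝ) : ℂ) = ⟨x.im - 1 / 2, -x.re⟩ := by
    intro x
    apply Complex.ext
    · simp only [Complex.add_re, Complex.mul_re, uv_re, uv_im, Complex.ofReal_re, Real.cos_neg,
        Real.sin_neg, Real.cos_pi_div_two, Real.sin_pi_div_two]
      ring
    · simp only [Complex.add_im, Complex.mul_im, uv_re, uv_im, Complex.ofReal_im, Real.cos_neg,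
        Real.sin_neg, Real.cos_pi_div_two, Real.sin_pi_div_two]
      ring
  refine h.cov_two (t := 0) (α := uv (-(Real.pi / 2))) (c := ((-1 / 2 : ℝ) : ℂ))
    (by rw [abs_zero]; exact h.sin_pos) (norm_uv _) ?_ ?_ ?_
  · rw [hval]
    refine h.rect ?_ ?_
    · show |(0 : ℝ) - 1 / 2| < Real.cos φ
      rw [abs_lt]; constructor <;> linarith
    · show |-Real.cos φ| < Real.sin φ
      rw [abs_neg, abs_of_pos h.cos_pos]; exact hcs
  · rw [hval]
    refine h.rect ?_ ?_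
    · show |(-(⟨Real.cos φ, 0⟩ : ℂ)).im - 1 / 2| < Real.cos φ
      rw [Complex.neg_im]
      show |-(0 : ℝ) - 1 / 2| < Real.cos φ
      rw [abs_lt]; constructor <;> linarith
    · show |-(-(⟨Real.cos φ, 0⟩ : ℂ)).re| < Real.sin φ
      rw [Complex.neg_re]
      show |-(-Real.cos φ)| < Real.sin φ
      rw [neg_neg, abs_of_pos h.cos_pos]; exact hcs
  · intro a ha hn him
    rw [hval]
    have hre := h.abs_re ha hn
    have hi1 : a.im ≤ 1 := by
      have := Complex.abs_im_le_norm a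
      rw [hn] at this
      exact (le_abs_self _).trans this
    refine h.rect ?_ ?_
    · show |a.im - 1 / 2| < Real.cos φ
      rw [abs_lt]; constructor <;> linarith
    · show |-a.re| < Real.sin φ
      rw [abs_neg]; linarith

private theorem x1_mid {v m M K : ℝ} (h1 : m ≤ v) (h2 : v ≤ M) (h3 : M - m < 2 * K) :
    |v + -(m + M) / 2| < K := by
  rw [abs_lt]; constructor <;> linarith

private theorem x1_rect {C : Set ℂ} {φ : ℝ} (h : Insc C φ) {θ m M n N : ℝ} {x : ℂ}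
    (h1 : m ≤ dt θ x) (h2 : dt θ x ≤ M) (h3 : M - m < 2 * Real.cos φ)
    (h4 : n ≤ dt (θ + Real.pi / 2) x) (h5 : dt (θ + Real.pi / 2) x ≤ N)
    (h6 : N - n < 2 * Real.sin φ) :
    uv (-θ) * x + (⟨-(m + M) / 2, -(n + N) / 2⟩ : ℂ) ∈ interior C := by
  have e1 : (uv (-θ) * x + (⟨-(m + M) / 2, -(n + N) / 2⟩ : ℂ)).re = dt θ x + -(m + M) / 2 := by
    simp only [Complex.add_re, Complex.mul_re, uv_re, uv_im, dt, Real.cos_neg, Real.sin_neg]
    ring
  have e2 : (uv (-θ) * x + (⟨-(m + M) / 2, -(n + N) / 2⟩ : ℂ)).im =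
      dt (θ + Real.pi / 2) x + -(n + N) / 2 := by
    simp only [Complex.add_im, Complex.mul_im, uv_re, uv_im, dt, Real.cos_neg, Real.sin_neg,
      Real.cos_add_pi_div_two, Real.sin_add_pi_div_two]
    ring
  refine h.rect ?_ ?_
  · rw [e1]; exact x1_mid h1 h2 h3
  · rw [e2]; exact x1_mid h4 h5 h6

/-- ROW X1, part 2.  `Insc.cov_two` with `t = -sin φ + b`, `α = uv (-θ)`.  For `x : ℂ` put `f x = dt θ x`,
`g x = dt (θ + π/2) x`; then `uv (-θ) * x = ⟨f x, g x⟩` (`Real.cos_add_pi_div_two`, ...).  Write `K = cos φ`,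
`S = sin φ`, `M = cos (φ - θ) = K cos θ + S sin θ`, `N = sin (φ + θ) = S cos θ + K sin θ`, `y = ⟨K, -S + b⟩`.
For a unit vector `a = uv β` of `C` with `0 < a.im` we have `φ ≤ β ≤ π - φ` (`h.angle`), `f a = cos (β - θ)`,
`g a = sin (β - θ)`, and (as `θ ≤ φ`, `π/2 - φ ≤ θ`) `-cos (φ + θ) ≤ f a ≤ M` and `sin (φ - θ) ≤ g a ≤ N`
(`cos` antitone on `[0, π]`, `sin` monotone on `[-π/2, π/2]`; `β - θ ∈ [φ - θ, π - φ - θ]`,
`π - φ - θ ≤ π/2`).
All of `f a`, `f y`, `f (-y)` lie in `(M - 2K, M]` and all of `g a`, `g y`, `g (-y)` in `(N - 2S, N]`: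
`f y = K cos θ - S sin θ + b sin θ`, `g y = -K sin θ - S cos θ + b cos θ`, and
`M - f (-y) = 2K cos θ + b sin θ < 2K` (hb1), `M - f y = (2S - b) sin θ < 2K` (hb2),
`M - (-cos (φ + θ)) = 2K cos θ < 2K`; `N - g y = 2S cos θ + 2K sin θ - b cos θ < 2S` (hb3),
`N - g (-y) = b cos θ < 2S`, `N - sin (φ - θ) = 2K sin θ < 2S` (from hb3, as `b cos θ < 2 S cos θ`: or
`K < S`, which follows from `π/2 - φ ≤ θ ≤ φ`, `θ < ...`; if `K = S` then `θ = φ = π/4`, `sin θ < 1`).
With the six values let `εf > 0` be smaller than `f - (M - 2K)` for the three kinds of points (for the unit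
vectors use the lower bound `-cos (φ + θ)`), `εg` likewise, and take `c = ⟨K - M - εf/2, S - N - εg/2⟩`.
Then `|f + c.re| < K`, `|g + c.im| < S`, so `h.rect` applies to all points. -/
theorem Insc.box_b {C : Set ℂ} {φ : ℝ} (h : Insc C φ) {θ b : ℝ} (hθ0 : 0 < θ)
    (hθ1 : Real.pi / 2 - φ ≤ θ) (hθ2 : θ ≤ φ) (hb0 : 0 < b) (hb : b < 2 * Real.sin φ)
    (hb1 : b * Real.sin θ < 2 * Real.cos φ * (1 - Real.cos θ))
    (hb2 : (2 * Real.sin φ - b) * Real.sin θ < 2 * Real.cos φ)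
    (hb3 : 2 * Real.cos φ * Real.sin θ - 2 * Real.sin φ * (1 - Real.cos θ) < b * Real.cos θ) :
    Cov C 2 := by
  have hpi := Real.pi_pos
  have hφ := h.lt
  have hφ0 := h.pos
  have hK := h.cos_pos
  have hS := h.sin_pos
  set K := Real.cos φ with hKd
  set S := Real.sin φ with hSd
  have hsθ : 0 < Real.sin θ := Real.sin_pos_of_pos_of_lt_pi hθ0 (by linarith)
  have hcθ : 0 < Real.cos θ := Real.cos_pos_of_mem_Ioo ⟨by linarith, by linarith⟩
  have hcθ1 : Real.cos θ < 1 := by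
    have := Real.cos_lt_cos_of_nonneg_of_le_pi le_rfl (show θ ≤ Real.pi by linarith) hθ0
    rwa [Real.cos_zero] at this
  have hK1 : K < 1 := by
    have := Real.cos_lt_cos_of_nonneg_of_le_pi le_rfl (show φ ≤ Real.pi by linarith) hφ0
    rwa [Real.cos_zero] at this
  have hsS : Real.sin θ ≤ S := Real.sin_le_sin_of_le_of_le_pi_div_two (by linarith) hφ.le hθ2
  have hM : Real.cos (φ - θ) = K * Real.cos θ + S * Real.sin θ := Real.cos_sub _ _
  have hM2 : Real.cos (φ + θ) = K * Real.cos θ - S * Real.sin θ := Real.cos_add _ _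
  have hN : Real.sin (φ + θ) = S * Real.cos θ + K * Real.sin θ := Real.sin_add _ _
  have hN2 : Real.sin (φ - θ) = S * Real.cos θ - K * Real.sin θ := Real.sin_sub _ _
  have hbs : 0 < b * Real.sin θ := mul_pos hb0 hsθ
  have hbc : 0 < b * Real.cos θ := mul_pos hb0 hcθ
  have h2s : 0 < (2 * S - b) * Real.sin θ := mul_pos (by linarith) hsθ
  have h2c : 0 < (2 * S - b) * Real.cos θ := mul_pos (by linarith) hcθ
  have hKc : 0 < K * Real.cos θ := mul_pos hK hcθ
  have hKs : 0 < K * Real.sin θ := mul_pos hK hsθ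
  have hKc1 : 0 < K * (1 - Real.cos θ) := mul_pos hK (by linarith)
  have hSc1 : 0 < S * (1 - Real.cos θ) := mul_pos hS (by linarith)
  have hKS : K * Real.sin θ < S := by
    have h7 : K * Real.sin θ ≤ K * S := mul_le_mul_of_nonneg_left hsS hK.le
    have h8 : 0 < S * (1 - K) := mul_pos hS (by linarith)
    linarith [mul_comm K S, mul_sub S 1 K, mul_one S]
  -- the values at `y`
  have fy : dt θ (⟨K, -S + b⟩ : ℂ) = K * Real.cos θ + (-S + b) * Real.sin θ := rfl
  have gy : dt (θ + Real.pi / 2) (⟨K, -S + b⟩ : ℂ) = -(K * Real.sin θ) + (-S + b) * Real.cos θ := by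
    simp only [dt, Real.cos_add_pi_div_two, Real.sin_add_pi_div_two]
    ring
  obtain ⟨m, hm⟩ : ∃ m : ℝ, m = min (min (dt θ (⟨K, -S + b⟩ : ℂ)) (dt θ (-(⟨K, -S + b⟩ : ℂ))))
    (-Real.cos (φ + θ)) := ⟨_, rfl⟩
  obtain ⟨n, hn⟩ : ∃ n : ℝ, n = min (min (dt (θ + Real.pi / 2) (⟨K, -S + b⟩ : ℂ))
    (dt (θ + Real.pi / 2) (-(⟨K, -S + b⟩ : ℂ)))) (Real.sin (φ - θ)) := ⟨_, rfl⟩
  have m1 : m ≤ dt θ (⟨K, -S + b⟩ : ℂ) := by
    rw [hm]; exact (min_le_left _ _).trans (min_le_left _ _)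
  have m2 : m ≤ dt θ (-(⟨K, -S + b⟩ : ℂ)) := by
    rw [hm]; exact (min_le_left _ _).trans (min_le_right _ _)
  have m3 : m ≤ -Real.cos (φ + θ) := by rw [hm]; exact min_le_right _ _
  have n1 : n ≤ dt (θ + Real.pi / 2) (⟨K, -S + b⟩ : ℂ) := by
    rw [hn]; exact (min_le_left _ _).trans (min_le_left _ _)
  have n2 : n ≤ dt (θ + Real.pi / 2) (-(⟨K, -S + b⟩ : ℂ)) := by
    rw [hn]; exact (min_le_left _ _).trans (min_le_right _ _)
  have n3 : n ≤ Real.sin (φ - θ) := by rw [hn]; exact min_le_right _ _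
  have hMm : Real.cos (φ - θ) - m < 2 * K := by
    have : Real.cos (φ - θ) - 2 * K < m := by
      rw [hm, lt_min_iff, lt_min_iff, dt_neg, fy, hM, hM2]
      refine ⟨⟨?_, ?_⟩, ?_⟩
      · linarith
      · linarith
      · linarith
    linarith
  have hNn : Real.sin (φ + θ) - n < 2 * S := by
    have : Real.sin (φ + θ) - 2 * S < n := by
      rw [hn, lt_min_iff, lt_min_iff, dt_neg, gy, hN, hN2]
      refine ⟨⟨?_, ?_⟩, ?_⟩
      · linarith
      · linarith
      · linarith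
    linarith
  refine h.cov_two (t := -S + b) (α := uv (-θ))
    (c := (⟨-(m + Real.cos (φ - θ)) / 2, -(n + Real.sin (φ + θ)) / 2⟩ : ℂ)) ?_ (norm_uv _) ?_ ?_ ?_
  · rw [abs_lt]; constructor <;> linarith
  · refine x1_rect h m1 ?_ hMm n1 ?_ hNn
    · rw [fy, hM]; linarith
    · rw [gy, hN]; linarith
  · refine x1_rect h m2 ?_ hMm n2 ?_ hNn
    · rw [dt_neg, fy, hM]; linarith
    · rw [dt_neg, gy, hN]; linarith
  · intro a ha hna him
    obtain ⟨β, hβ1, hβ2, rfl⟩ := h.angle ha hna him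
    have e1 : dt (θ + Real.pi / 2) (uv β) = Real.sin (β - θ) := by
      rw [dt_uv, show β - (θ + Real.pi / 2) = (β - θ) - Real.pi / 2 by ring, Real.cos_sub_pi_div_two]
    refine x1_rect h (m3.trans ?_) ?_ hMm (n3.trans ?_) ?_ hNn
    · rw [dt_uv, ← Real.cos_pi_sub]
      exact Real.cos_le_cos_of_nonneg_of_le_pi (by linarith) (by linarith) (by linarith)
    · rw [dt_uv]
      exact Real.cos_le_cos_of_nonneg_of_le_pi (by linarith) (by linarith) (by linarith)
    · rw [e1]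
      exact Real.sin_le_sin_of_le_of_le_pi_div_two (by linarith) (by linarith) (by linarith)
    · rw [e1, ← Real.sin_pi_sub (φ + θ)]
      exact Real.sin_le_sin_of_le_of_le_pi_div_two (by linarith) (by linarith) (by linarith)

end Newton54P
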